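import Pool.Agent.Lib.CMT.A.Fin
import Pool.Agent.Lib.CMT.B.IfaceB

/-!
# CMT part A (I3): `S_A3` in the form of part B, from `S_Sum` and the three generators (helper75)
-/

open Complex Real Matrix

namespace Pool.Agent.CMT.A

open Pool.Agent.Lib.CMT

variable {ι : Type} [Fintype ι] [DecidableEq ι]

theorem th_eq (N : ℕ) (φ : (ι → ZMod (N ^ 2)) → ℂ) (Z : Matrix ι ι ℂ) (w : ι → ℂ) :
    CMT.B.th N φ Z w = th N φ Z w := by
  unfold CMT.B.th th tmg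
  refine tsum_congr (fun m => ?_)
  have h1 : iv m ⬝ᵥ Z *ᵥ iv m = ∑ p, ∑ q, (m p : ℂ) * Z p q * (m q : ℂ) := by
    simp only [iv, dotProduct, mulVec, Finset.mul_sum]
    refine Finset.sum_congr rfl (fun p _ => Finset.sum_congr rfl (fun q _ => ?_))
    ring
  have h2 : iv m ⬝ᵥ w = ∑ p, (m p : ℂ) * w p := rfl
  rw [h1, h2]
  rfl

theorem isH_of {Z : Matrix ι ι ℂ} (h1 : Zᵀ = Z)
    (h2 : ∀ v : ι → ℝ, v ≠ 0 → 0 < ∑ p, ∑ q, v p * (Z p q).im * v q) : IsH Z := by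
  refine ⟨h1, fun x hx => ?_⟩
  have h := h2 x hx
  have e : x ⬝ᵥ (Z.map Complex.im) *ᵥ x = ∑ p, ∑ q, x p * (Z p q).im * x q := by
    simp only [dotProduct, mulVec, Finset.mul_sum, map_apply]
    refine Finset.sum_congr rfl (fun p _ => Finset.sum_congr rfl (fun q _ => ?_))
    ring
  rw [e]
  exact h

/-- **S_A3** from the convergence and the generators. -/
theorem a3B
    (hS : ∀ (ι : Type) [Fintype ι], S_Sum ι)
    (hJ : ∀ (ι : Type) [Fintype ι] [DecidableEq ι] (N : ℕ) [NeZero N], Even N → ∀ i : ι,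
      PG N (8 * N ^ 2) (Jp i))
    (hT : ∀ (ι : Type) [Fintype ι] [DecidableEq ι] (N : ℕ) [NeZero N], Even N →
      ∀ c : Matrix ι ι ℤ, cᵀ = c → PG N (8 * N ^ 2) (fromBlocks 1 0 c 1))
    (hM : ∀ (ι : Type) [Fintype ι] [DecidableEq ι] (N : ℕ) [NeZero N], Even N →
      ∀ u v : Matrix ι ι ℤ, u * vᵀ = 1 → PG N (8 * N ^ 2) (fromBlocks u 0 0 v)) :
    CMT.B.S_A3 := by
  intro ι _ _ N hN
  haveI : NeZero N := ⟨hN.ne'⟩
  obtain ⟨M, k, hM0, hk0, h⟩ := a3 (hS ι) (hJ ι) (hT ι) (hM ι) N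
  refine ⟨M, k, hM0, hk0, ?_⟩
  intro a b g d hmem hG Z Z' A hZ _ hZp _ h1 h2
  have hb : be (fromBlocks a b g d) = b.map (Int.cast : ℤ → ℂ) := by
    unfold be; rw [toBlocks_fromBlocks₁₂]
  obtain ⟨c, hc, hth⟩ := h (fromBlocks a b g d) hmem hG Z Z' A (isH_of hZ hZp) (by
    constructor
    · unfold be de
      rw [toBlocks_fromBlocks₁₂, toBlocks_fromBlocks₂₂]
      exact h1
    · unfold al ga
      rw [toBlocks_fromBlocks₁₁, toBlocks_fromBlocks₂₁]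
      exact h2)
  refine ⟨c, hc, fun φ w => ?_⟩
  rw [th_eq, th_eq, hth φ w, hb]

end Pool.Agent.CMT.A
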