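import Mathlib

/-! CMT part A/P (helper31): Poisson summation on `ℤ ^ ι` for functions on `ι → ℝ`. -/

open Complex Real MeasureTheory

namespace Pool.Agent.CMT

variable {ι : Type*} [Fintype ι]

/-- the additive character `exp (2 π i m x)` -/
noncomputable def ePi (m : ι → ℤ) (x : ι → ℝ) : ℂ := cexp (2 * π * I * ∑ i, (m i : ℂ) * (x i : ℂ))

/-- Fourier transform at an integral point. -/
noncomputable def ftPi (f : (ι → ℝ) → ℂ) (m : ι → ℤ) : ℂ :=
  ∫ x : ι → ℝ, cexp (-2 * π * I * ∑ i, (m i : ℂ) * (x i : ℂ)) * f x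

/-- unit box `(0,1]^ι` translated by `n`. -/
def boxPi (n : ι → ℤ) : Set (ι → ℝ) := {x | ∀ i, x i ∈ Set.Ioc ((n i : ℝ)) ((n i : ℝ) + 1)}

set_option linter.unusedSectionVars false

theorem measurableSet_boxPi (n : ι → ℤ) : MeasurableSet (boxPi n) :=
  MeasurableSet.univ_pi' (fun _ => measurableSet_Ioc)

theorem boxPi_disjoint : Pairwise (Function.onFun Disjoint (boxPi (ι := ι))) := by
  intro n m hnm
  rw [Function.onFun, Set.disjoint_left]
  intro x hx hy
  apply hnm
  funext i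
  have h1 := hx i
  have h2 := hy i
  rw [Set.mem_Ioc] at h1 h2
  have a : (n i : ℝ) < m i + 1 := lt_of_lt_of_le h1.1 h2.2
  have b : (m i : ℝ) < n i + 1 := lt_of_lt_of_le h2.1 h1.2
  have a' : n i < m i + 1 := by exact_mod_cast a
  have b' : m i < n i + 1 := by exact_mod_cast b
  omega

theorem iUnion_boxPi : (⋃ n : ι → ℤ, boxPi n) = Set.univ := by
  rw [Set.eq_univ_iff_forall]
  intro x
  rw [Set.mem_iUnion]
  refine ⟨fun i => ⌈x i⌉ - 1, fun i => ?_⟩
  rw [Set.mem_Ioc]
  push_cast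
  have := Int.ceil_lt_add_one (x i)
  have h2 := Int.le_ceil (x i)
  constructor <;> linarith

theorem volume_boxPi_lt_top (n : ι → ℤ) : volume (boxPi n) < ⊤ := by
  have : boxPi n = Set.univ.pi (fun i => Set.Ioc ((n i : ℝ)) ((n i : ℝ) + 1)) := by
    ext x; simp [boxPi]
  rw [this, Real.volume_pi_Ioc]
  exact ENNReal.prod_lt_top (fun i _ => by simp)

theorem volume_boxPi (n : ι → ℤ) : volume (boxPi n) = 1 := by
  have : boxPi n = Set.univ.pi (fun i => Set.Ioc ((n i : ℝ)) ((n i : ℝ) + 1)) := by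
    ext x; simp [boxPi]
  rw [this, Real.volume_pi_Ioc]
  simp

theorem setIntegral_boxPi (g : (ι → ℝ) → ℂ) (n : ι → ℤ) :
    ∫ x in boxPi n, g x = ∫ x in boxPi (0 : ι → ℤ), g (x + fun i => (n i : ℝ)) := by
  have h : (fun x : ι → ℝ => x + fun i => (n i : ℝ)) ⁻¹' (boxPi n) = boxPi 0 := by
    ext x
    simp only [boxPi, Set.mem_preimage, Set.mem_ofPred_eq, Set.mem_Ioc, Pi.add_apply, Pi.zero_apply,
      Int.cast_zero, zero_add]
    refine forall_congr' (fun i => ?_)
    constructor <;> rintro ⟨h1, h2⟩ <;> constructor <;> linarith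
  rw [← h]
  exact ((measurePreserving_add_right volume (fun i => (n i : ℝ))).setIntegral_preimage_emb
    (MeasurableEquiv.addRight _).measurableEmbedding g (boxPi n)).symm

/-- hypothesis: the translates are dominated, uniformly on bounded sets, by a summable family. -/
def DomPi (f : (ι → ℝ) → ℂ) : Prop :=
  ∀ R : ℝ, ∃ B : (ι → ℤ) → ℝ, Summable B ∧
    ∀ (n : ι → ℤ) (x : ι → ℝ), (∀ i, |x i| ≤ R) → ‖f (x + fun i => (n i : ℝ))‖ ≤ B n

theorem DomPi.integrable {f : (ι → ℝ) → ℂ} (hc : Continuous f) (h : DomPi f) :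
    Integrable f := by
  obtain ⟨B, hB, hfB⟩ := h 1
  rw [← integrableOn_univ, ← iUnion_boxPi]
  have hint : ∀ n : ι → ℤ, IntegrableOn f (boxPi n) := by
    intro n
    have hK : IsCompact (Set.univ.pi (fun i => Set.Icc ((n i : ℝ)) ((n i : ℝ) + 1))) :=
      isCompact_univ_pi (fun i => isCompact_Icc)
    refine (hc.continuousOn.integrableOn_compact hK).mono_set ?_
    intro x hx
    rw [Set.mem_univ_pi]
    intro i
    exact Set.Ioc_subset_Icc_self (hx i)
  refine integrableOn_iUnion_of_summable_integral_norm hint ?_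
  refine Summable.of_nonneg_of_le (fun n => integral_nonneg (fun x => norm_nonneg _))
    (fun n => ?_) hB
  have h1 : ∀ x ∈ boxPi n, ‖f x‖ ≤ B n := by
    intro x hx
    have := hfB n (x - fun i => (n i : ℝ)) (fun i => ?_)
    · simpa using this
    · have := hx i
      rw [Set.mem_Ioc] at this
      rw [Pi.sub_apply, abs_le]
      constructor <;> linarith
  have h2 : ‖∫ x in boxPi n, ‖f x‖‖ ≤ B n * (volume (boxPi n)).toReal := by
    refine norm_setIntegral_le_of_norm_le_const (volume_boxPi_lt_top n) (fun x hx => ?_)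
    rw [norm_norm]
    exact h1 x hx
  rw [volume_boxPi, ENNReal.toReal_one, mul_one] at h2
  exact (le_abs_self _).trans h2

theorem ePi_add (m n : ι → ℤ) (x : ι → ℝ) :
    cexp (-2 * π * I * ∑ i, (m i : ℂ) * ((x + fun i => (n i : ℝ)) i : ℂ)) =
      cexp (-2 * π * I * ∑ i, (m i : ℂ) * (x i : ℂ)) := by
  have : -2 * π * I * ∑ i, (m i : ℂ) * ((x + fun i => (n i : ℝ)) i : ℂ) =
      -2 * π * I * ∑ i, (m i : ℂ) * (x i : ℂ) + ((- ∑ i, m i * n i : ℤ) : ℂ) * (2 * π * I) := by
    simp only [Pi.add_apply, Complex.ofReal_add, mul_add, Finset.sum_add_distrib]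
    push_cast
    ring
  rw [this, Complex.exp_add, Complex.exp_int_mul_two_pi_mul_I, mul_one]

theorem norm_e (m : ι → ℤ) (x : ι → ℝ) :
    ‖cexp (-2 * π * I * ∑ i, (m i : ℂ) * (x i : ℂ))‖ = 1 := by
  have : -2 * π * I * ∑ i, (m i : ℂ) * (x i : ℂ) =
      ((-2 * π * ∑ i, (m i : ℝ) * x i : ℝ) : ℂ) * I := by
    push_cast; ring
  rw [this, Complex.norm_exp_ofReal_mul_I]

theorem continuous_e (m : ι → ℤ) :
    Continuous (fun x : ι → ℝ => cexp (-2 * π * I * ∑ i, (m i : ℂ) * (x i : ℂ))) := by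
  fun_prop

theorem DomPi.mul_e {f : (ι → ℝ) → ℂ} (h : DomPi f) (m : ι → ℤ) :
    DomPi (fun x => cexp (-2 * π * I * ∑ i, (m i : ℂ) * (x i : ℂ)) * f x) := by
  intro R
  obtain ⟨B, hB, hfB⟩ := h R
  refine ⟨B, hB, fun n x hx => ?_⟩
  rw [norm_mul, norm_e, one_mul]
  exact hfB n x hx

/-- the periodisation -/
noncomputable def perPi (f : (ι → ℝ) → ℂ) (x : ι → ℝ) : ℂ :=
  ∑' n : ι → ℤ, f (x + fun i => (n i : ℝ))

theorem DomPi.summable {f : (ι → ℝ) → ℂ} (h : DomPi f) (x : ι → ℝ) :
    Summable (fun n : ι → ℤ => f (x + fun i => (n i : ℝ))) := by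
  obtain ⟨B, hB, hfB⟩ := h (∑ i, |x i|)
  exact Summable.of_norm_bounded hB (fun n => hfB n x
    (fun i => Finset.single_le_sum (f := fun i => |x i|) (fun j _ => abs_nonneg _)
      (Finset.mem_univ i)))

theorem continuous_perPi {f : (ι → ℝ) → ℂ} (hc : Continuous f) (h : DomPi f) :
    Continuous (perPi f) := by
  rw [continuous_iff_continuousAt]
  intro x
  obtain ⟨B, hB, hfB⟩ := h (‖x‖ + 1)
  have h1 : ContinuousOn (perPi f) (Metric.ball x 1) := by
    refine continuousOn_tsum (u := B) (fun n => ?_) hB (fun n y hy => ?_)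
    · exact (hc.comp (continuous_id.add continuous_const)).continuousOn
    · refine hfB n y (fun i => ?_)
      have h2 : ‖y‖ ≤ ‖x‖ + 1 := by
        have := norm_sub_norm_le y x
        rw [Metric.mem_ball, dist_eq_norm] at hy
        linarith
      exact (norm_le_pi_norm y i).trans h2
  exact h1.continuousAt (Metric.ball_mem_nhds x one_pos)

theorem perPi_add (f : (ι → ℝ) → ℂ) (x : ι → ℝ) (m : ι → ℤ) :
    perPi f (x + fun i => (m i : ℝ)) = perPi f x := by
  unfold perPi
  rw [← (Equiv.addRight m).tsum_eq (fun n : ι → ℤ => f (x + fun i => (n i : ℝ)))]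
  refine tsum_congr (fun n => ?_)
  congr 1
  funext i
  simp only [Pi.add_apply, Equiv.coe_addRight, Int.cast_add]
  ring

/-- the quotient map to the torus. -/
def qPi (x : ι → ℝ) : UnitAddTorus ι := fun i => (x i : UnitAddCircle)

theorem isQuotientMap_qPi : Topology.IsQuotientMap (qPi (ι := ι)) := by
  have : IsOpenQuotientMap (Pi.map (fun (_ : ι) (t : ℝ) => (t : UnitAddCircle))) :=
    IsOpenQuotientMap.piMap (fun i => QuotientAddGroup.isOpenQuotientMap_mk)
  exact this.isQuotientMap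

/-- the periodisation as a function on the torus. -/
noncomputable def perT (f : (ι → ℝ) → ℂ) (y : UnitAddTorus ι) : ℂ :=
  perPi f (fun i => (AddCircle.equivIoc 1 0 (y i)).1)

theorem perT_qPi (f : (ι → ℝ) → ℂ) (x : ι → ℝ) : perT f (qPi x) = perPi f x := by
  unfold perT qPi
  have : ∀ i, ∃ m : ℤ, ((AddCircle.equivIoc 1 0 ((x i : ℝ) : UnitAddCircle)).1 : ℝ) =
      x i + m := by
    intro i
    have h1 : (((AddCircle.equivIoc 1 0 ((x i : ℝ) : UnitAddCircle)).1 : ℝ) : UnitAddCircle) =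
        ((x i : ℝ) : UnitAddCircle) := by
      have := (AddCircle.equivIoc (1 : ℝ) 0).symm_apply_apply ((x i : ℝ) : UnitAddCircle)
      exact this
    rw [← sub_eq_zero, ← AddCircle.coe_sub, AddCircle.coe_eq_zero_iff] at h1
    obtain ⟨m, hm⟩ := h1
    refine ⟨m, ?_⟩
    rw [zsmul_eq_mul, mul_one] at hm
    linarith
  choose m hm using this
  rw [funext hm]
  exact perPi_add f x m

theorem continuous_perT {f : (ι → ℝ) → ℂ} (hc : Continuous f) (h : DomPi f) :
    Continuous (perT f) := by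
  rw [isQuotientMap_qPi.continuous_iff]
  have : perT f ∘ qPi = perPi f := funext (fun x => perT_qPi f x)
  rw [this]
  exact continuous_perPi hc h

theorem mFourier_neg_coe (m : ι → ℤ) (x : ι → ℝ) :
    UnitAddTorus.mFourier (-m) (qPi x) =
      cexp (-2 * π * I * ∑ i, (m i : ℂ) * (x i : ℂ)) := by
  unfold UnitAddTorus.mFourier qPi
  simp only [ContinuousMap.coe_mk, Pi.neg_apply, fourier_coe_apply]
  rw [← Complex.exp_sum, Finset.mul_sum]
  congr 1
  refine Finset.sum_congr rfl (fun i _ => ?_)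
  push_cast
  ring

theorem mFourier_coe (m : ι → ℤ) (x : ι → ℝ) :
    UnitAddTorus.mFourier m (qPi x) = ePi m x := by
  unfold UnitAddTorus.mFourier qPi ePi
  simp only [ContinuousMap.coe_mk, fourier_coe_apply]
  rw [← Complex.exp_sum, Finset.mul_sum]
  congr 1
  refine Finset.sum_congr rfl (fun i _ => ?_)
  push_cast
  ring

theorem mFourierCoeff_perT {f : (ι → ℝ) → ℂ} (hc : Continuous f) (h : DomPi f) (m : ι → ℤ) :
    UnitAddTorus.mFourierCoeff (perT f) m = ftPi f m := by
  have hset : {x : ι → ℝ | ∀ i, x i ∈ Set.Ioc ((0 : ι → ℝ) i) ((0 : ι → ℝ) i + 1)} =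
      boxPi (0 : ι → ℤ) := by
    ext x; simp [boxPi]
  rw [UnitAddTorus.mFourierCoeff_eq_integral _ _ (0 : ι → ℝ), hset]
  set g : (ι → ℝ) → ℂ := fun x => cexp (-2 * π * I * ∑ i, (m i : ℂ) * (x i : ℂ)) * f x with hg
  have hgc : Continuous g := (continuous_e m).mul hc
  have hgd : DomPi g := h.mul_e m
  have hgi : Integrable g := hgd.integrable hgc
  have h1 : ∀ x : ι → ℝ, UnitAddTorus.mFourier (-m) (fun i => (x i : UnitAddCircle)) •
      perT f (fun i => (x i : UnitAddCircle)) =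
      ∑' n : ι → ℤ, g (x + fun i => (n i : ℝ)) := by
    intro x
    have e1 := mFourier_neg_coe m x
    have e2 := perT_qPi f x
    unfold qPi at e1 e2
    rw [e1, e2, smul_eq_mul]
    unfold perPi
    rw [← tsum_mul_left]
    refine tsum_congr (fun n => ?_)
    rw [hg]
    simp only
    rw [ePi_add]
  simp_rw [h1]
  -- bound on the box
  obtain ⟨B, hB, hfB⟩ := hgd 1
  have hbox : ∀ n : ι → ℤ, ∀ x ∈ boxPi (0 : ι → ℤ), ‖g (x + fun i => (n i : ℝ))‖ ≤ B n := by
    intro n x hx
    refine hfB n x (fun i => ?_)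
    have := hx i
    rw [Set.mem_Ioc] at this
    simp only [Pi.zero_apply, Int.cast_zero, zero_add] at this
    rw [abs_le]
    constructor <;> linarith
  have hint : ∀ n : ι → ℤ, IntegrableOn (fun x => g (x + fun i => (n i : ℝ)))
      (boxPi (0 : ι → ℤ)) := by
    intro n
    exact (hgi.comp_add_right (fun i => (n i : ℝ))).integrableOn
  have hsum : Summable (fun n : ι → ℤ => ∫ x in boxPi (0 : ι → ℤ),
      ‖g (x + fun i => (n i : ℝ))‖) := by
    refine Summable.of_nonneg_of_le (fun n => integral_nonneg (fun x => norm_nonneg _))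
      (fun n => ?_) hB
    have h2 : ‖∫ x in boxPi (0 : ι → ℤ), ‖g (x + fun i => (n i : ℝ))‖‖ ≤
        B n * (volume (boxPi (0 : ι → ℤ))).toReal := by
      refine norm_setIntegral_le_of_norm_le_const (volume_boxPi_lt_top 0) (fun x hx => ?_)
      rw [norm_norm]
      exact hbox n x hx
    rw [volume_boxPi, ENNReal.toReal_one, mul_one] at h2
    exact (le_abs_self _).trans h2
  have h3 := hasSum_integral_of_summable_integral_norm hint hsum
  rw [← h3.tsum_eq]
  have h4 : ∀ n : ι → ℤ, ∫ x in boxPi (0 : ι → ℤ), g (x + fun i => (n i : ℝ)) =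
      ∫ x in boxPi n, g x := fun n => (setIntegral_boxPi g n).symm
  simp_rw [h4]
  have h5 := hasSum_integral_iUnion (f := g) (μ := volume)
    (fun n : ι → ℤ => measurableSet_boxPi n) boxPi_disjoint (by
      rw [iUnion_boxPi]; exact hgi.integrableOn)
  rw [h5.tsum_eq, iUnion_boxPi, setIntegral_univ]
  rfl

/-- **Poisson summation** on `ℤ ^ ι`. -/
theorem tPois {f : (ι → ℝ) → ℂ} (hc : Continuous f) (h : DomPi f) (hF : Summable (ftPi f))
    (x : ι → ℝ) :
    ∑' n : ι → ℤ, f (x + fun i => (n i : ℝ)) = ∑' m : ι → ℤ, ftPi f m * ePi m x := by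
  let F : C(UnitAddTorus ι, ℂ) := ⟨perT f, continuous_perT hc h⟩
  have hF' : Summable (UnitAddTorus.mFourierCoeff F) := by
    refine hF.congr (fun m => ?_)
    exact (mFourierCoeff_perT hc h m).symm
  have h1 := (UnitAddTorus.hasSum_mFourier_series_apply_of_summable hF' (qPi x)).tsum_eq
  have h2 : F (qPi x) = perPi f x := perT_qPi f x
  rw [h2] at h1
  unfold perPi at h1
  rw [← h1]
  refine tsum_congr (fun m => ?_)
  rw [smul_eq_mul, mFourier_coe]
  congr 1
  exact mFourierCoeff_perT hc h m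

theorem tPois0 {f : (ι → ℝ) → ℂ} (hc : Continuous f) (h : DomPi f) (hF : Summable (ftPi f)) :
    ∑' n : ι → ℤ, f (fun i => (n i : ℝ)) = ∑' m : ι → ℤ, ftPi f m := by
  have := tPois hc h hF 0
  simp only [zero_add] at this
  rw [this]
  refine tsum_congr (fun m => ?_)
  unfold ePi
  simp

end Pool.Agent.CMT
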