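import Mathlib
import Pool.Agent.Lib.CMT.A.Pois

/-! CMT part A/P (helper31): real Gaussians with complex linear term on `ι → ℝ`:
Fourier transform and Poisson summation. -/

open Complex Real MeasureTheory Matrix
open scoped MatrixOrder

namespace Pool.Agent.CMT

variable {ι : Type*} [Fintype ι]

/-- a nonnegative function on `ι → ℤ` which is a product of summable functions is summable. -/
theorem summable_prod_pi {h : ℤ → ℝ} (h0 : ∀ k, 0 ≤ h k) (hs : Summable h) :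
    Summable (fun n : ι → ℤ => ∏ i, h (n i)) := by
  classical
  refine summable_of_sum_le (c := ∏ _i : ι, ∑' k, h k)
    (fun n => Finset.prod_nonneg (fun i _ => h0 _)) (fun u => ?_)
  have h1 : u ⊆ Fintype.piFinset (fun i => u.image (fun n => n i)) := by
    intro n hn
    rw [Fintype.mem_piFinset]
    intro i
    exact Finset.mem_image_of_mem (fun n : ι → ℤ => n i) hn
  refine (Finset.sum_le_sum_of_subset_of_nonneg h1
    (fun n _ _ => Finset.prod_nonneg (fun i _ => h0 _))).trans ?_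
  rw [← Finset.prod_univ_sum]
  exact Finset.prod_le_prod (fun i _ => Finset.sum_nonneg (fun k _ => h0 k))
    (fun i _ => hs.sum_le_tsum _ (fun k _ => h0 k))

theorem summable_gauss1 {a : ℝ} (ha : 0 < a) (b : ℝ) :
    Summable (fun k : ℤ => Real.exp (-a * (k : ℝ) ^ 2 + b * |(k : ℝ)|)) := by
  have h := summable_pow_mul_jacobiTheta₂_term_bound (b / (2 * π)) (T := a / π)
    (div_pos ha Real.pi_pos) 0
  refine h.congr (fun k => ?_)
  rw [pow_zero, one_mul]
  congr 1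
  have := Real.pi_pos.ne'
  push_cast
  field_simp
  ring

/-- growth condition: Gaussian decay. -/
def GaBd (f : (ι → ℝ) → ℂ) : Prop :=
  ∃ C a b : ℝ, 0 ≤ C ∧ 0 < a ∧ 0 ≤ b ∧
    ∀ x, ‖f x‖ ≤ C * Real.exp (-a * ∑ i, x i ^ 2 + b * ∑ i, |x i|)

theorem GaBd.domPi {f : (ι → ℝ) → ℂ} (h : GaBd f) : DomPi f := by
  obtain ⟨C, a, b, hC, ha, hb, hf⟩ := h
  intro R
  set h1 : ℤ → ℝ := fun k => Real.exp (a * R ^ 2 + b * |R|) *
    Real.exp (-(a / 2) * (k : ℝ) ^ 2 + b * |(k : ℝ)|) with hh1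
  have hs1 : Summable h1 := (summable_gauss1 (by positivity) b).mul_left _
  refine ⟨fun n => C * ∏ i, h1 (n i), (summable_prod_pi (fun k => by positivity) hs1).mul_left C,
    fun n x hx => ?_⟩
  refine (hf _).trans (mul_le_mul_of_nonneg_left ?_ hC)
  rw [Finset.mul_sum, Finset.mul_sum, ← Finset.sum_add_distrib, Real.exp_sum]
  refine Finset.prod_le_prod (fun i _ => (Real.exp_pos _).le) (fun i _ => ?_)
  rw [hh1]
  simp only [Pi.add_apply]
  rw [← Real.exp_add, Real.exp_le_exp]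
  have h2 : |x i| ≤ R := hx i
  have h3 : |x i + (n i : ℝ)| ≤ |R| + |(n i : ℝ)| := by
    refine (abs_add_le _ _).trans ?_
    have := h2.trans (le_abs_self R)
    linarith
  have h4 : (n i : ℝ) ^ 2 / 2 - R ^ 2 ≤ (x i + (n i : ℝ)) ^ 2 := by
    have h5 : (x i) ^ 2 ≤ R ^ 2 := by
      rw [← sq_abs (x i)]
      exact pow_le_pow_left₀ (abs_nonneg _) h2 2
    nlinarith [sq_nonneg (2 * x i + (n i : ℝ))]
  have h6 := mul_le_mul_of_nonneg_left h4 ha.le
  have h7 := mul_le_mul_of_nonneg_left h3 hb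
  linarith

theorem GaBd.integrable {f : (ι → ℝ) → ℂ} (hc : Continuous f) (h : GaBd f) : Integrable f :=
  h.domPi.integrable hc

theorem GaBd.summable {f : (ι → ℝ) → ℂ} (h : GaBd f) :
    Summable (fun n : ι → ℤ => f (fun i => (n i : ℝ))) := by
  have := h.domPi.summable 0
  simpa using this

/-- functions of at most exponential growth -/
def ExGr (g : (ι → ℝ) → ℂ) : Prop :=
  ∃ C b : ℝ, 0 ≤ C ∧ 0 ≤ b ∧ ∀ x, ‖g x‖ ≤ C * Real.exp (b * ∑ i, |x i|)

theorem ExGr.mul {f g : (ι → ℝ) → ℂ} (hf : ExGr f) (hg : ExGr g) :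
    ExGr (fun x => f x * g x) := by
  obtain ⟨C, b, hC, hb, h⟩ := hf
  obtain ⟨C', b', hC', hb', h'⟩ := hg
  refine ⟨C * C', b + b', mul_nonneg hC hC', add_nonneg hb hb', fun x => ?_⟩
  rw [norm_mul]
  refine (mul_le_mul (h x) (h' x) (norm_nonneg _) (by positivity)).trans (le_of_eq ?_)
  rw [add_mul, Real.exp_add]
  ring

theorem ExGr.mul_gaBd {f g : (ι → ℝ) → ℂ} (hg : ExGr g) (hf : GaBd f) :
    GaBd (fun x => g x * f x) := by
  obtain ⟨C, a, b, hC, ha, hb, h⟩ := hf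
  obtain ⟨C', b', hC', hb', h'⟩ := hg
  refine ⟨C' * C, a, b' + b, mul_nonneg hC' hC, ha, add_nonneg hb' hb, fun x => ?_⟩
  rw [norm_mul]
  refine (mul_le_mul (h' x) (h x) (norm_nonneg _) (by positivity)).trans (le_of_eq ?_)
  have e : Real.exp (-a * ∑ i, x i ^ 2 + (b' + b) * ∑ i, |x i|) =
      Real.exp (b' * ∑ i, |x i|) * Real.exp (-a * ∑ i, x i ^ 2 + b * ∑ i, |x i|) := by
    rw [← Real.exp_add]
    congr 1
    ring
  rw [e]
  ring

theorem ExGr.add {f g : (ι → ℝ) → ℂ} (hf : ExGr f) (hg : ExGr g) :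
    ExGr (fun x => f x + g x) := by
  obtain ⟨C, b, hC, hb, h⟩ := hf
  obtain ⟨C', b', hC', hb', h'⟩ := hg
  refine ⟨C + C', max b b', add_nonneg hC hC', le_max_of_le_left hb, fun x => ?_⟩
  have hx : 0 ≤ ∑ i, |x i| := Finset.sum_nonneg (fun i _ => abs_nonneg _)
  have e1 : Real.exp (b * ∑ i, |x i|) ≤ Real.exp (max b b' * ∑ i, |x i|) :=
    Real.exp_le_exp.2 (mul_le_mul_of_nonneg_right (le_max_left _ _) hx)
  have e2 : Real.exp (b' * ∑ i, |x i|) ≤ Real.exp (max b b' * ∑ i, |x i|) :=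
    Real.exp_le_exp.2 (mul_le_mul_of_nonneg_right (le_max_right _ _) hx)
  refine (norm_add_le _ _).trans ?_
  have h1 := (h x).trans (mul_le_mul_of_nonneg_left e1 hC)
  have h2 := (h' x).trans (mul_le_mul_of_nonneg_left e2 hC')
  rw [add_mul]
  linarith

theorem exGr_const (c : ℂ) : ExGr (fun _ : ι → ℝ => c) :=
  ⟨‖c‖, 0, norm_nonneg _, le_refl _, fun x => by simp⟩

theorem exGr_linear (v : ι → ℂ) : ExGr (fun x : ι → ℝ => ∑ i, (x i : ℂ) * v i) := by
  refine ⟨∑ i, ‖v i‖, 1, Finset.sum_nonneg (fun i _ => norm_nonneg _), zero_le_one, fun x => ?_⟩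
  refine (norm_sum_le _ _).trans ?_
  rw [Finset.sum_mul]
  refine Finset.sum_le_sum (fun i _ => ?_)
  rw [norm_mul, mul_comm, Complex.norm_real, Real.norm_eq_abs, one_mul]
  refine mul_le_mul_of_nonneg_left ?_ (norm_nonneg _)
  have h1 : |x i| ≤ ∑ j, |x j| :=
    Finset.single_le_sum (f := fun j => |x j|) (fun j _ => abs_nonneg _) (Finset.mem_univ i)
  have h2 := Real.add_one_le_exp (∑ j, |x j|)
  linarith

/-- the complexified quadratic form -/
noncomputable def qC (A : Matrix ι ι ℝ) (w : ι → ℂ) : ℂ :=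
  w ⬝ᵥ (A.map (algebraMap ℝ ℂ)) *ᵥ w

/-- the Gaussian with linear term -/
noncomputable def gA (A : Matrix ι ι ℝ) (w : ι → ℂ) (x : ι → ℝ) : ℂ :=
  cexp (-π * ((x ⬝ᵥ A *ᵥ x : ℝ) : ℂ) + 2 * π * ∑ i, (x i : ℂ) * w i)

theorem continuous_gA (A : Matrix ι ι ℝ) (w : ι → ℂ) : Continuous (gA A w) := by
  unfold gA
  refine Complex.continuous_exp.comp ?_
  refine Continuous.add ?_ ?_
  · refine continuous_const.mul (Complex.continuous_ofReal.comp ?_)
    exact Continuous.dotProduct continuous_id (Continuous.matrix_mulVec continuous_const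
      continuous_id)
  · fun_prop

/-- a positive definite real matrix is `Bᵀ B` with `B` invertible -/
theorem posDef_factor [DecidableEq ι] {A : Matrix ι ι ℝ} (hA : A.PosDef) :
    ∃ B : Matrix ι ι ℝ, A = Bᵀ * B ∧ B.det ≠ 0 := by
  obtain ⟨B, hB⟩ := CStarAlgebra.nonneg_iff_eq_star_mul_self.mp hA.posSemidef.nonneg
  have h1 : A = Bᵀ * B := by
    rw [hB, Matrix.star_eq_conjTranspose, Matrix.conjTranspose_eq_transpose_of_trivial]
  refine ⟨B, h1, fun h0 => ?_⟩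
  have h2 := hA.det_pos
  rw [h1, Matrix.det_mul, h0, mul_zero] at h2
  exact lt_irrefl _ h2

/-- bound for a linear map in the euclidean norm -/
theorem sum_sq_mulVec_le (M : Matrix ι ι ℝ) (x : ι → ℝ) :
    ∑ i, (M *ᵥ x) i ^ 2 ≤ (∑ i, ∑ j, M i j ^ 2) * ∑ j, x j ^ 2 := by
  rw [Finset.sum_mul]
  refine Finset.sum_le_sum (fun i _ => ?_)
  exact Finset.sum_mul_sq_le_sq_mul_sq _ _ _

theorem quad_factor (B : Matrix ι ι ℝ) (x : ι → ℝ) :
    x ⬝ᵥ (Bᵀ * B) *ᵥ x = ∑ i, (B *ᵥ x) i ^ 2 := by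
  rw [← Matrix.mulVec_mulVec, Matrix.dotProduct_mulVec, Matrix.vecMul_transpose]
  unfold dotProduct
  exact Finset.sum_congr rfl (fun i _ => (sq _).symm)

/-- coercivity of a positive definite real matrix -/
theorem posDef_coercive [DecidableEq ι] {A : Matrix ι ι ℝ} (hA : A.PosDef) :
    ∃ c : ℝ, 0 < c ∧ ∀ x : ι → ℝ, c * ∑ i, x i ^ 2 ≤ x ⬝ᵥ A *ᵥ x := by
  obtain ⟨B, rfl, hB⟩ := posDef_factor hA
  set c := ∑ i, ∑ j, (B⁻¹) i j ^ 2 with hc
  have hc0 : 0 ≤ c := Finset.sum_nonneg (fun i _ => Finset.sum_nonneg (fun j _ => sq_nonneg _))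
  refine ⟨(c + 1)⁻¹, by positivity, fun x => ?_⟩
  rw [quad_factor, inv_mul_le_iff₀ (by positivity)]
  have h1 := sum_sq_mulVec_le B⁻¹ (B *ᵥ x)
  rw [Matrix.mulVec_mulVec, Matrix.nonsing_inv_mul _ (isUnit_iff_ne_zero.2 hB),
    Matrix.one_mulVec] at h1
  refine h1.trans ?_
  have h2 : 0 ≤ ∑ i, (B *ᵥ x) i ^ 2 := Finset.sum_nonneg (fun i _ => sq_nonneg _)
  nlinarith

theorem re_exponent_gA (A : Matrix ι ι ℝ) (w : ι → ℂ) (x : ι → ℝ) :
    (-π * ((x ⬝ᵥ A *ᵥ x : ℝ) : ℂ) + 2 * π * ∑ i, (x i : ℂ) * w i).re =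
      -π * (x ⬝ᵥ A *ᵥ x) + 2 * π * ∑ i, x i * (w i).re := by
  have h1 : (2 * (π : ℂ) * ∑ i, (x i : ℂ) * w i).re = 2 * π * ∑ i, x i * (w i).re := by
    rw [show (2 * (π : ℂ)) = ((2 * π : ℝ) : ℂ) by push_cast; ring, Complex.re_ofReal_mul,
      Complex.re_sum]
    congr 1
    exact Finset.sum_congr rfl (fun i _ => Complex.re_ofReal_mul _ _)
  have h2 : (-(π : ℂ) * ((x ⬝ᵥ A *ᵥ x : ℝ) : ℂ)).re = -π * (x ⬝ᵥ A *ᵥ x) := by
    rw [show (-(π : ℂ)) = ((-π : ℝ) : ℂ) by push_cast; ring, Complex.re_ofReal_mul,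
      Complex.ofReal_re]
  rw [Complex.add_re, h1, h2]

theorem gaBd_gA [DecidableEq ι] {A : Matrix ι ι ℝ} (hA : A.PosDef) (w : ι → ℂ) :
    GaBd (gA A w) := by
  obtain ⟨c, hc, h⟩ := posDef_coercive hA
  refine ⟨1, π * c, 2 * π * ∑ i, ‖w i‖, zero_le_one, mul_pos Real.pi_pos hc, by positivity,
    fun x => ?_⟩
  unfold gA
  rw [Complex.norm_exp, one_mul, re_exponent_gA, Real.exp_le_exp]
  have h1 := mul_le_mul_of_nonneg_left (h x) Real.pi_pos.le
  have h2 : ∑ i, x i * (w i).re ≤ (∑ i, ‖w i‖) * ∑ i, |x i| := by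
    rw [Finset.sum_mul]
    refine Finset.sum_le_sum (fun i _ => ?_)
    refine (le_abs_self _).trans ?_
    rw [abs_mul, mul_comm]
    refine mul_le_mul (Complex.abs_re_le_norm _) ?_ (abs_nonneg _) (norm_nonneg _)
    exact Finset.single_le_sum (f := fun j => |x j|) (fun j _ => abs_nonneg _) (Finset.mem_univ i)
  have h3 := mul_le_mul_of_nonneg_left h2 (by positivity : (0 : ℝ) ≤ 2 * π)
  linarith

theorem integrable_gA [DecidableEq ι] {A : Matrix ι ι ℝ} (hA : A.PosDef) (w : ι → ℂ) :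
    Integrable (gA A w) := (gaBd_gA hA w).integrable (continuous_gA A w)

/-- the Gaussian integral with complex linear term -/
theorem tGau [DecidableEq ι] {A : Matrix ι ι ℝ} (hA : A.PosDef) (w : ι → ℂ) :
    ∫ x, gA A w x = ((Real.sqrt A.det)⁻¹ : ℝ) * cexp (π * qC A⁻¹ w) := by
  obtain ⟨B, hAB, hB⟩ := posDef_factor hA
  have hBu : IsUnit B.det := isUnit_iff_ne_zero.2 hB
  set c : ι → ℂ := fun i => 2 * π * ((B⁻¹.map (algebraMap ℝ ℂ))ᵀ *ᵥ w) i with hc
  set h : (ι → ℝ) → ℂ := fun y => cexp (-(π : ℂ) * ∑ i, (y i : ℂ) ^ 2 + ∑ i, c i * (y i : ℂ))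
    with hh
  have h1 : ∀ x, gA A w x = h (Matrix.toLin' B x) := by
    intro x
    unfold gA
    simp only [hh, Matrix.toLin'_apply]
    congr 1
    have e1 : ((x ⬝ᵥ A *ᵥ x : ℝ) : ℂ) = ∑ i, (((B *ᵥ x) i : ℝ) : ℂ) ^ 2 := by
      rw [hAB, quad_factor]
      push_cast
      rfl
    have e2 : 2 * (π : ℂ) * ∑ i, (x i : ℂ) * w i = ∑ i, c i * (((B *ᵥ x) i : ℝ) : ℂ) := by
      have e3 : ∀ i, (((B *ᵥ x) i : ℝ) : ℂ) = ((B.map (algebraMap ℝ ℂ)) *ᵥ (fun j => (x j : ℂ))) i := by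
        intro i
        simp [Matrix.mulVec, dotProduct]
      simp only [e3, hc]
      have e4 : ∑ i, (2 * (π : ℂ) * ((B⁻¹.map (algebraMap ℝ ℂ))ᵀ *ᵥ w) i) *
          ((B.map (algebraMap ℝ ℂ)) *ᵥ (fun j => (x j : ℂ))) i =
          2 * (π : ℂ) * (((B⁻¹.map (algebraMap ℝ ℂ))ᵀ *ᵥ w) ⬝ᵥ
            ((B.map (algebraMap ℝ ℂ)) *ᵥ (fun j => (x j : ℂ)))) := by
        unfold dotProduct
        rw [Finset.mul_sum]
        exact Finset.sum_congr rfl (fun i _ => by ring)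
      rw [e4, Matrix.mulVec_transpose, ← Matrix.dotProduct_mulVec, Matrix.mulVec_mulVec,
        ← Matrix.map_mul, Matrix.nonsing_inv_mul _ hBu, Matrix.map_one _ (map_zero _) (map_one _),
        Matrix.one_mulVec]
      congr 1
      unfold dotProduct
      exact Finset.sum_congr rfl (fun i _ => mul_comm _ _)
    rw [e1, e2]
  have hcont : Continuous h := by
    rw [hh]
    fun_prop
  have h2 : ∫ x, h (Matrix.toLin' B x) = (|(B.det)⁻¹| : ℝ) * ∫ y, h y := by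
    have h3 := integral_map (μ := (volume : Measure (ι → ℝ))) (φ := Matrix.toLin' B)
      (f := h) (Matrix.toLin' B).toContinuousLinearMap.continuous.aemeasurable
      hcont.aestronglyMeasurable
    rw [← h3, Real.map_matrix_volume_pi_eq_smul_volume_pi hB, integral_smul_measure,
      ENNReal.toReal_ofReal (abs_nonneg _), Complex.real_smul]
  have h4 : ∫ y, h y = cexp (π * qC A⁻¹ w) := by
    have h5 := GaussianFourier.integral_cexp_neg_mul_sum_add (ι := ι) (b := (π : ℂ))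
      (by rw [Complex.ofReal_re]; exact Real.pi_pos) c
    rw [hh, h5]
    have hpi : (π : ℂ) ≠ 0 := by exact_mod_cast Real.pi_pos.ne'
    rw [div_self hpi, Complex.one_cpow, one_mul]
    congr 1
    have h6 : qC A⁻¹ w = ∑ i, ((B⁻¹.map (algebraMap ℝ ℂ))ᵀ *ᵥ w) i ^ 2 := by
      unfold qC
      rw [hAB, Matrix.mul_inv_rev, ← Matrix.transpose_nonsing_inv, Matrix.map_mul,
        ← Matrix.mulVec_mulVec, Matrix.dotProduct_mulVec, Matrix.transpose_map,
        Matrix.mulVec_transpose]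
      unfold dotProduct
      exact Finset.sum_congr rfl (fun i _ => (sq _).symm)
    rw [h6, hc]
    simp only [mul_pow]
    rw [← Finset.mul_sum]
    field_simp
    ring
  rw [integral_congr_ae (Filter.Eventually.of_forall h1), h2, h4]
  congr 1
  have h7 : A.det = B.det ^ 2 := by
    rw [hAB, Matrix.det_mul, Matrix.det_transpose, sq]
  rw [h7, Real.sqrt_sq_eq_abs, abs_inv]

end Pool.Agent.CMT
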