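import Mathlib

/-!
# The symplectic group over the integers is generated by `J`, the translations `n(b)` and the `m(u)`
-/

set_option autoImplicit false

namespace Pool.Agent.Lib.CMT

open Matrix Finset

variable {l : Type*} [Fintype l] [DecidableEq l]

/-- the submonoid generated by `J`, `n(b)` (`b` symmetric), `m(u)` -/
inductive GenSp : Matrix (l ⊕ l) (l ⊕ l) ℤ → Prop
  | J : GenSp (Matrix.J l ℤ)
  | N (b : Matrix l l ℤ) (hb : bᵀ = b) : GenSp (fromBlocks 1 b 0 1)
  | M (u v : Matrix l l ℤ) (h : u * vᵀ = 1) : GenSp (fromBlocks u 0 0 v)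
  | mul (x y : Matrix (l ⊕ l) (l ⊕ l) ℤ) : GenSp x → GenSp y → GenSp (x * y)

namespace GenAux

theorem gen_one : GenSp (1 : Matrix (l ⊕ l) (l ⊕ l) ℤ) := by
  have h := GenSp.N (0 : Matrix l l ℤ) (transpose_zero)
  rwa [fromBlocks_one] at h

theorem gen_neg_one : GenSp (-1 : Matrix (l ⊕ l) (l ⊕ l) ℤ) := by
  have h := GenSp.mul _ _ (GenSp.J (l := l)) GenSp.J
  rwa [J_squared] at h

/-- the inverse of a generated matrix is generated -/
theorem gen_inv {x : Matrix (l ⊕ l) (l ⊕ l) ℤ} (hx : GenSp x) : ∃ y, GenSp y ∧ y * x = 1 := by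
  induction hx with
  | J =>
    refine ⟨-Matrix.J l ℤ, ?_, ?_⟩
    · have h := GenSp.mul _ _ (gen_neg_one (l := l)) GenSp.J
      rwa [neg_mul, one_mul] at h
    · rw [neg_mul, J_squared, neg_neg]
  | N b hb =>
    refine ⟨fromBlocks 1 (-b) 0 1, GenSp.N (-b) (by rw [transpose_neg, hb]), ?_⟩
    rw [fromBlocks_multiply]
    simp
  | M u v h =>
    have h1 : vᵀ * u = 1 := mul_eq_one_comm.1 h
    refine ⟨fromBlocks vᵀ 0 0 uᵀ, GenSp.M _ _ (by rw [transpose_transpose, h1]), ?_⟩
    rw [fromBlocks_multiply]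
    have h2 : uᵀ * v = 1 := by
      rw [← transpose_transpose (uᵀ * v), transpose_mul, transpose_transpose, h1, transpose_one]
    simp [h1, h2]
  | mul x y _ _ ihx ihy =>
    obtain ⟨x', hx', ex⟩ := ihx
    obtain ⟨y', hy', ey⟩ := ihy
    refine ⟨y' * x', GenSp.mul _ _ hy' hx', ?_⟩
    rw [mul_assoc, ← mul_assoc x', ex, one_mul, ey]

/-- lower unipotent matrices -/
theorem gen_lower (b : Matrix l l ℤ) (hb : bᵀ = b) : GenSp (fromBlocks 1 0 b 1) := by
  have h1 : GenSp (-Matrix.J l ℤ) := by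
    have h := GenSp.mul _ _ (gen_neg_one (l := l)) GenSp.J
    rwa [neg_mul, one_mul] at h
  have h := GenSp.mul _ _ (GenSp.mul _ _ (GenSp.J (l := l)) (GenSp.N (-b) (by rw [transpose_neg, hb]))) h1
  have e : Matrix.J l ℤ * fromBlocks 1 (-b) 0 1 * -Matrix.J l ℤ = fromBlocks 1 0 b 1 := by
    rw [Matrix.J, fromBlocks_neg, fromBlocks_multiply, fromBlocks_multiply]
    simp
  rwa [e] at h

/-- a generated matrix lies in the symplectic group -/
theorem gen_mem {x : Matrix (l ⊕ l) (l ⊕ l) ℤ} (hx : GenSp x) : x ∈ symplecticGroup l ℤ := by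
  induction hx with
  | J => exact SymplecticGroup.J_mem l ℤ
  | N b hb =>
    rw [SymplecticGroup.fromBlocks_mem_iff]
    simp [hb]
  | M u v h =>
    have h1 : vᵀ * u = 1 := mul_eq_one_comm.1 h
    have h2 : uᵀ * v = 1 := by
      rw [← transpose_transpose (uᵀ * v), transpose_mul, transpose_transpose, h1, transpose_one]
    rw [SymplecticGroup.fromBlocks_mem_iff]
    simp [h2]
  | mul x y _ _ ihx ihy => exact mul_mem ihx ihy

/-- `g` fixes the basis vectors with index in `s` -/
def Fx (s : Finset l) (g : Matrix (l ⊕ l) (l ⊕ l) ℤ) : Prop :=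
  ∀ i ∈ s, g *ᵥ Pi.single (Sum.inl i) 1 = Pi.single (Sum.inl i) 1 ∧
    g *ᵥ Pi.single (Sum.inr i) 1 = Pi.single (Sum.inr i) 1

/-- `w` is obtained from `v` by a generated matrix which fixes the basis vectors with index in `s` -/
def Rch (s : Finset l) (v w : l ⊕ l → ℤ) : Prop := ∃ g, GenSp g ∧ Fx s g ∧ g *ᵥ v = w

theorem rch_refl (s : Finset l) (v : l ⊕ l → ℤ) : Rch s v v :=
  ⟨1, gen_one, fun _ _ => ⟨one_mulVec _, one_mulVec _⟩, one_mulVec _⟩

theorem fx_mul {s : Finset l} {g h : Matrix (l ⊕ l) (l ⊕ l) ℤ} (hg : Fx s g) (hh : Fx s h) : Fx s (g * h) := by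
  intro i hi
  rw [← mulVec_mulVec, ← mulVec_mulVec, (hh i hi).1, (hh i hi).2]
  exact hg i hi

theorem rch_trans {s : Finset l} {u v w : l ⊕ l → ℤ} (h1 : Rch s u v) (h2 : Rch s v w) : Rch s u w := by
  obtain ⟨g, hg, fg, eg⟩ := h1
  obtain ⟨h, hh, fh, eh⟩ := h2
  refine ⟨h * g, GenSp.mul _ _ hh hg, fx_mul fh fg, ?_⟩
  rw [← mulVec_mulVec, eg, eh]

/-- the index of a coordinate -/
def ix : l ⊕ l → l := Sum.elim id id

/-- the other coordinate with the same index -/
def cj : l ⊕ l → l ⊕ l := Sum.swap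

theorem sg (i j : l) (c : ℤ) (x : l → ℤ) : Matrix.single i j c *ᵥ x = Pi.single i (c * x j) := by
  rw [single_mulVec]
  ext k
  by_cases h : k = i
  · subst h
    simp
  · simp [h]

theorem e_inl (k : l) : (Pi.single (Sum.inl k) 1 : l ⊕ l → ℤ) = Sum.elim (Pi.single k 1) 0 := by
  ext (i | i)
  · by_cases h : i = k
    · subst h
      simp
    · simp [h]
  · simp

theorem e_inr (k : l) : (Pi.single (Sum.inr k) 1 : l ⊕ l → ℤ) = Sum.elim (0 : l → ℤ) (Pi.single k 1) := by
  ext (i | i)
  · simp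
  · by_cases h : i = k
    · subst h
      simp
    · simp [h]

theorem act (A B C D : Matrix l l ℤ) (x y : l → ℤ) :
    fromBlocks A B C D *ᵥ Sum.elim x y = Sum.elim (A *ᵥ x + B *ᵥ y) (C *ᵥ x + D *ᵥ y) := by
  rw [fromBlocks_mulVec]
  simp

theorem fx_of {s : Finset l} {A B C D : Matrix l l ℤ} (h : ∀ k ∈ s, A *ᵥ Pi.single k 1 = Pi.single k 1 ∧
    B *ᵥ Pi.single k 1 = 0 ∧ C *ᵥ Pi.single k 1 = 0 ∧ D *ᵥ Pi.single k 1 = Pi.single k 1) :
    Fx s (fromBlocks A B C D) := by
  intro k hk
  obtain ⟨h1, h2, h3, h4⟩ := h k hk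
  rw [e_inl, e_inr, act, act, h1, h2, h3, h4]
  simp

theorem ne_of {s : Finset l} {i k : l} (hi : i ∉ s) (hk : k ∈ s) : i ≠ k := by
  rintro rfl
  exact hi hk

theorem m1 (i j k : l) (h : j ≠ k) (c : ℤ) : single i j c *ᵥ (Pi.single k 1 : l → ℤ) = 0 := by
  rw [sg, Pi.single_eq_of_ne h, mul_zero, Pi.single_zero]

/-- **Elementary moves.** -/
theorem rch_upd {s : Finset l} {p q : l ⊕ l} (hp : ix p ∉ s) (hq : ix q ∉ s) (hpq : p ≠ q) (w : l ⊕ l → ℤ) (c : ℤ)
    (h : ix p = ix q ∨ w (cj p) = 0) : Rch s w (Function.update w p (w p + c * w q)) := by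
  obtain ⟨x, y, rfl⟩ : ∃ x y, w = Sum.elim x y := ⟨w ∘ Sum.inl, w ∘ Sum.inr, (Sum.elim_comp_inl_inr w).symm⟩
  rcases p with i | i <;> rcases q with j | j
  · -- `x_i += c x_j`
    have hij : i ≠ j := fun e => hpq (by rw [e])
    have hy : y i = 0 := h.resolve_left hij
    have hi : i ∉ s := hp
    have hj : j ∉ s := hq
    refine ⟨fromBlocks (1 + single i j c) 0 0 (1 - single j i c), GenSp.M _ _ ?_, fx_of fun k hk => ?_, ?_⟩
    · rw [transpose_sub, transpose_one, transpose_single, mul_sub, mul_one, add_mul, one_mul,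
        single_mul_single_of_ne _ _ _ _ hij.symm]
      abel
    · simp only [add_mulVec, sub_mulVec, one_mulVec, zero_mulVec, m1 i j k (ne_of hj hk), m1 j i k (ne_of hi hk), add_zero,
        sub_zero, and_self]
    · rw [act, add_mulVec, sub_mulVec, one_mulVec, one_mulVec, sg, sg, hy]
      ext (k | k)
      · by_cases hk : k = i
        · subst hk
          simp
        · simp [hk]
      · simp
  · -- `x_i += c y_j`
    have hi : i ∉ s := hp
    have hj : j ∉ s := hq
    by_cases hij : i = j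
    · subst hij
      refine ⟨fromBlocks 1 (single i i c) 0 1, GenSp.N _ (transpose_single _ _ _), fx_of fun k hk => ?_, ?_⟩
      · simp only [one_mulVec, zero_mulVec, m1 i i k (ne_of hi hk), and_self]
      · rw [act, sg]
        ext (k | k)
        · by_cases hk : k = i
          · subst hk
            simp
          · simp [hk]
        · simp
    · have hy : y i = 0 := h.resolve_left hij
      refine ⟨fromBlocks 1 (single i j c + single j i c) 0 1, GenSp.N _ ?_, fx_of fun k hk => ?_, ?_⟩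
      · rw [transpose_add, transpose_single, transpose_single, add_comm]
      · simp only [add_mulVec, one_mulVec, zero_mulVec, m1 i j k (ne_of hj hk), m1 j i k (ne_of hi hk), add_zero, and_self]
      · rw [act, add_mulVec, sg, sg, hy]
        ext (k | k)
        · by_cases hk : k = i
          · subst hk
            simp
          · simp [hk]
        · simp
  · -- `y_i += c x_j`
    have hi : i ∉ s := hp
    have hj : j ∉ s := hq
    by_cases hij : i = j
    · subst hij
      refine ⟨fromBlocks 1 0 (single i i c) 1, gen_lower _ (transpose_single _ _ _), fx_of fun k hk => ?_, ?_⟩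
      · simp only [one_mulVec, zero_mulVec, m1 i i k (ne_of hi hk), and_self]
      · rw [act, sg]
        ext (k | k)
        · simp
        · by_cases hk : k = i
          · subst hk
            simp [add_comm]
          · simp [hk]
    · have hx : x i = 0 := h.resolve_left hij
      refine ⟨fromBlocks 1 0 (single i j c + single j i c) 1, gen_lower _ ?_, fx_of fun k hk => ?_, ?_⟩
      · rw [transpose_add, transpose_single, transpose_single, add_comm]
      · simp only [add_mulVec, one_mulVec, zero_mulVec, m1 i j k (ne_of hj hk), m1 j i k (ne_of hi hk), add_zero, and_self]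
      · rw [act, add_mulVec, sg, sg, hx]
        ext (k | k)
        · simp
        · by_cases hk : k = i
          · subst hk
            simp [add_comm]
          · simp [hk]
  · -- `y_i += c y_j`
    have hij : i ≠ j := fun e => hpq (by rw [e])
    have hx : x i = 0 := h.resolve_left hij
    have hi : i ∉ s := hp
    have hj : j ∉ s := hq
    refine ⟨fromBlocks (1 - single j i c) 0 0 (1 + single i j c), GenSp.M _ _ ?_, fx_of fun k hk => ?_, ?_⟩
    · rw [transpose_add, transpose_one, transpose_single, mul_add, mul_one, sub_mul, one_mul,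
        single_mul_single_of_ne _ _ _ _ hij]
      abel
    · simp only [add_mulVec, sub_mulVec, one_mulVec, zero_mulVec, m1 i j k (ne_of hj hk), m1 j i k (ne_of hi hk), add_zero,
        sub_zero, and_self]
    · rw [act, add_mulVec, sub_mulVec, one_mulVec, one_mulVec, sg, sg, hx]
      ext (k | k)
      · simp
      · by_cases hk : k = i
        · subst hk
          simp
        · simp [hk]

/-- the sum of the absolute values -/
def size (w : l ⊕ l → ℤ) : ℕ := ∑ p, (w p).natAbs

theorem size_upd (w : l ⊕ l → ℤ) (p : l ⊕ l) (v : ℤ) (h : v.natAbs < (w p).natAbs) : size (Function.update w p v) < size w := by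
  refine Finset.sum_lt_sum (fun q _ => ?_) ⟨p, Finset.mem_univ p, ?_⟩
  · by_cases hq : q = p
    · subst hq
      rw [Function.update_self]
      exact h.le
    · rw [Function.update_of_ne hq]
  · rw [Function.update_self]
    exact h

/-- a pair of coordinates for which a move makes the vector smaller -/
theorem exists_pair (w : l ⊕ l → ℤ) {p q : l ⊕ l} (hpq : p ≠ q) (hp : w p ≠ 0) (hq : w q ≠ 0) :
    ∃ p q : l ⊕ l, p ≠ q ∧ w p ≠ 0 ∧ w q ≠ 0 ∧ (ix p = ix q ∨ w (cj p) = 0) ∧ (w q).natAbs ≤ (w p).natAbs := by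
  by_cases h : ∃ i : l, w (Sum.inl i) ≠ 0 ∧ w (Sum.inr i) ≠ 0
  · obtain ⟨i, h1, h2⟩ := h
    rcases le_total (w (Sum.inl i)).natAbs (w (Sum.inr i)).natAbs with h3 | h3
    · exact ⟨Sum.inr i, Sum.inl i, by simp, h2, h1, Or.inl rfl, h3⟩
    · exact ⟨Sum.inl i, Sum.inr i, by simp, h1, h2, Or.inl rfl, h3⟩
  · have hc : ∀ p : l ⊕ l, w p ≠ 0 → w (cj p) = 0 := by
      intro p hp
      by_contra hcon
      rcases p with i | i
      · exact h ⟨i, hp, hcon⟩
      · exact h ⟨i, hcon, hp⟩
    rcases le_total (w p).natAbs (w q).natAbs with h3 | h3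
    · exact ⟨q, p, hpq.symm, hq, hp, Or.inr (hc q hq), h3⟩
    · exact ⟨p, q, hpq, hp, hq, Or.inr (hc p hp), h3⟩

/-- **Reduction to one coordinate.** -/
theorem rch_single (s : Finset l) (n : ℕ) : ∀ w : l ⊕ l → ℤ, size w ≤ n → (∀ p, ix p ∈ s → w p = 0) →
    (∃ p, w p ≠ 0) → ∃ p d, ix p ∉ s ∧ d ≠ 0 ∧ Rch s w (Pi.single p d) := by
  induction n with
  | zero =>
    intro w hn _ hne
    obtain ⟨p, hp⟩ := hne
    exfalso
    have h1 : (w p).natAbs ≤ size w := Finset.single_le_sum (f := fun p => (w p).natAbs) (fun _ _ => Nat.zero_le _)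
      (Finset.mem_univ p)
    have h2 : 0 < (w p).natAbs := Int.natAbs_pos.2 hp
    omega
  | succ n ih =>
    intro w hn hs hne
    obtain ⟨p0, hp0⟩ := hne
    by_cases h : ∃ q, q ≠ p0 ∧ w q ≠ 0
    · obtain ⟨q0, hqp, hq0⟩ := h
      obtain ⟨p, q, hpq, hp, hq, hc, hle⟩ := exists_pair w hqp hq0 hp0
      have hip : ix p ∉ s := fun h => hp (hs p h)
      have hiq : ix q ∉ s := fun h => hq (hs q h)
      obtain ⟨c, hc1⟩ : ∃ c : ℤ, (w p + c * w q).natAbs < (w p).natAbs := by
        rcases le_total 0 (w p) with h1 | h1 <;> rcases le_total 0 (w q) with h2 | h2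
        · exact ⟨-1, by omega⟩
        · exact ⟨1, by omega⟩
        · exact ⟨1, by omega⟩
        · exact ⟨-1, by omega⟩
      have h1 := rch_upd hip hiq hpq w c hc
      obtain ⟨p', d, hp', hd, hr⟩ := ih (Function.update w p (w p + c * w q))
        (by have := size_upd w p (w p + c * w q) hc1; omega)
        (fun r hr => by
          rw [Function.update_of_ne (fun e => hip (by rw [← e]; exact hr))]
          exact hs r hr)
        ⟨q, by rwa [Function.update_of_ne hpq.symm]⟩
      exact ⟨p', d, hp', hd, rch_trans h1 hr⟩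
    · refine ⟨p0, w p0, fun h => hp0 (hs p0 h), hp0, ?_⟩
      have e : w = Pi.single p0 (w p0) := by
        ext q
        by_cases hq : q = p0
        · subst hq
          rw [Pi.single_eq_same]
        · rw [Pi.single_eq_of_ne hq]
          by_contra hcon
          exact h ⟨q, hq, hcon⟩
      rw [← e]
      exact rch_refl s w

/-- **From a unit at one coordinate to the first basis vector.** -/
theorem rch_e {s : Finset l} {j : l} (hj : j ∉ s) {p : l ⊕ l} (hp : ix p ∉ s) {d : ℤ} (hd : d * d = 1) :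
    Rch s (Pi.single p d) (Pi.single (Sum.inl j) 1) := by
  by_cases hpj : p = Sum.inl j
  · subst hpj
    have hd' : d = 1 ∨ d = -1 := by
      have h1 : (d - 1) * (d + 1) = 0 := by linear_combination hd
      rcases mul_eq_zero.1 h1 with h | h
      · left; omega
      · right; omega
    rcases hd' with rfl | rfl
    · exact rch_refl s _
    · have hne : (Sum.inr j : l ⊕ l) ≠ Sum.inl j := by simp
      have hq : ix (Sum.inr j : l ⊕ l) ∉ s := hj
      have h1 := rch_upd hq hp hne (Pi.single (Sum.inl j) (-1) : l ⊕ l → ℤ) (-1) (Or.inl rfl)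
      have h2 := rch_upd hp hq hne.symm _ 2 (Or.inl rfl) |> rch_trans h1
      have h3 := rch_upd hq hp hne _ (-1) (Or.inl rfl) |> rch_trans h2
      convert h3 using 1
      ext (k | k)
      · by_cases hk : k = j
        · subst hk
          simp
        · simp [hk]
      · by_cases hk : k = j
        · subst hk
          simp
        · simp [hk]
  · have hq : ix (Sum.inl j : l ⊕ l) ∉ s := hj
    obtain ⟨w0, hw0⟩ : ∃ w : l ⊕ l → ℤ, w = Pi.single p d := ⟨_, rfl⟩
    have hj0 : w0 (Sum.inl j) = 0 := by rw [hw0, Pi.single_eq_of_ne (Ne.symm hpj)]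
    have hp0 : w0 p = d := by rw [hw0, Pi.single_eq_same]
    have h1 := rch_upd hq hp (Ne.symm hpj) w0 d (by
      by_cases h : ix (Sum.inl j : l ⊕ l) = ix p
      · exact Or.inl h
      · right
        rw [hw0, Pi.single_eq_of_ne]
        rintro rfl
        exact h rfl)
    rw [hj0, hp0, hd, zero_add] at h1
    obtain ⟨w1, hw1⟩ : ∃ w : l ⊕ l → ℤ, w = Function.update w0 (Sum.inl j) 1 := ⟨_, rfl⟩
    rw [← hw1] at h1
    have hj1 : w1 (Sum.inl j) = 1 := by rw [hw1, Function.update_self]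
    have hp1 : w1 p = d := by rw [hw1, Function.update_of_ne hpj, hp0]
    have h2 := rch_upd hp hq hpj w1 (-d) (by
      by_cases h : ix p = ix (Sum.inl j : l ⊕ l)
      · exact Or.inl h
      · right
        rw [hw1, Function.update_of_ne, hw0, Pi.single_eq_of_ne]
        · rcases p with i | i <;> simp [cj]
        · rcases p with i | i
          · simp [cj]
          · intro h3
            apply h
            simp only [cj, Sum.swap_inr, Sum.inl.injEq] at h3
            rw [h3]
            rfl)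
    have e : Function.update w1 p (w1 p + -d * w1 (Sum.inl j)) = Pi.single (Sum.inl j) 1 := by
      rw [hj1, hp1]
      ext q
      by_cases hqp : q = p
      · subst hqp
        rw [Function.update_self, Pi.single_eq_of_ne hpj]
        ring
      · rw [Function.update_of_ne hqp, hw1]
        by_cases hqj : q = Sum.inl j
        · subst hqj
          rw [Function.update_self, Pi.single_eq_same]
        · rw [Function.update_of_ne hqj, hw0, Pi.single_eq_of_ne hqp, Pi.single_eq_of_ne hqj]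
    rw [e] at h2
    rw [← hw0]
    exact rch_trans h1 h2

/-- the symplectic form -/
def om (v w : l ⊕ l → ℤ) : ℤ := v ⬝ᵥ (Matrix.J l ℤ *ᵥ w)

theorem om_mulVec {g : Matrix (l ⊕ l) (l ⊕ l) ℤ} (hg : g ∈ symplecticGroup l ℤ) (v w : l ⊕ l → ℤ) :
    om (g *ᵥ v) (g *ᵥ w) = om v w := by
  unfold om
  rw [← vecMul_transpose g v, mulVec_mulVec, ← dotProduct_mulVec, mulVec_mulVec, ← mul_assoc,
    SymplecticGroup.mem_iff'.1 hg]

theorem om_e (v : l ⊕ l → ℤ) (i : l) : om v (Pi.single (Sum.inl i) 1) = v (Sum.inr i) := by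
  unfold om
  rw [e_inl, Matrix.J, act, zero_mulVec, one_mulVec, mulVec_zero, mulVec_zero, add_zero, add_zero, ← e_inr]
  simp

theorem om_f (v : l ⊕ l → ℤ) (i : l) : om v (Pi.single (Sum.inr i) 1) = -v (Sum.inl i) := by
  unfold om
  rw [e_inr, Matrix.J, act]
  simp only [zero_mulVec, neg_mulVec, one_mulVec, mulVec_zero, add_zero, zero_add]
  have e : (Sum.elim (-Pi.single i 1) 0 : l ⊕ l → ℤ) = -Pi.single (Sum.inl i) 1 := by
    ext (k | k)
    · by_cases h : k = i
      · subst h
        simp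
      · simp [h]
    · simp
  rw [e]
  simp

/-- coordinates of the images of the basis vectors -/
theorem coord {s : Finset l} {g : Matrix (l ⊕ l) (l ⊕ l) ℤ} (hg : g ∈ symplecticGroup l ℤ) (hs : Fx s g) {v : l ⊕ l → ℤ}
    (hv : ∀ p, ix p ∈ s → v p = 0) (p : l ⊕ l) (hp : ix p ∈ s) : (g *ᵥ v) p = 0 := by
  rcases p with i | i
  · obtain ⟨-, h⟩ := hs i hp
    have h1 := om_mulVec hg v (Pi.single (Sum.inr i) 1)
    rw [h, om_f, om_f, hv (Sum.inl i) hp] at h1
    omega
  · obtain ⟨h, -⟩ := hs i hp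
    have h1 := om_mulVec hg v (Pi.single (Sum.inl i) 1)
    rw [h, om_e, om_e, hv (Sum.inr i) hp] at h1
    exact h1

theorem coord_inr {j : l} {g : Matrix (l ⊕ l) (l ⊕ l) ℤ} (hg : g ∈ symplecticGroup l ℤ)
    (hj : g *ᵥ Pi.single (Sum.inl j) 1 = Pi.single (Sum.inl j) 1) :
    (g *ᵥ Pi.single (Sum.inr j) 1) (Sum.inr j) = 1 := by
  have h1 := om_mulVec hg (Pi.single (Sum.inr j) 1) (Pi.single (Sum.inl j) 1)
  rw [hj, om_e, om_e, Pi.single_eq_same] at h1
  exact h1

/-- **The second basis vector.**  If `w` has the coordinate `1` at `inr j` and is supported outside `s` then it can be moved to the basis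
vector without moving the first basis vector. -/
theorem rch_f {s : Finset l} {j : l} (hj : j ∉ s) {w : l ⊕ l → ℤ} (hw : ∀ p, ix p ∈ s → w p = 0) (hw1 : w (Sum.inr j) = 1) :
    ∃ g, GenSp g ∧ Fx s g ∧ g *ᵥ Pi.single (Sum.inl j) 1 = Pi.single (Sum.inl j) 1 ∧
      g *ᵥ w = Pi.single (Sum.inr j) 1 := by
  obtain ⟨x, y, rfl⟩ : ∃ x y, w = Sum.elim x y := ⟨w ∘ Sum.inl, w ∘ Sum.inr, (Sum.elim_comp_inl_inr w).symm⟩
  have hyj : y j = 1 := hw1
  have hxs : ∀ k ∈ s, x k = 0 := fun k hk => hw (Sum.inl k) hk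
  have hys : ∀ k ∈ s, y k = 0 := fun k hk => hw (Sum.inr k) hk
  -- first step: `y = e_j`
  obtain ⟨y', hy'⟩ : ∃ y' : l → ℤ, y' = y - Pi.single j 1 := ⟨_, rfl⟩
  have hy'j : y' j = 0 := by rw [hy', Pi.sub_apply, Pi.single_eq_same, hyj, sub_self]
  have hy's : ∀ k ∈ s, y' k = 0 := fun k hk => by
    rw [hy', Pi.sub_apply, Pi.single_eq_of_ne (ne_of hj hk).symm, hys k hk, sub_zero]
  have vs : ∀ (a b : l → ℤ) (k : l), vecMulVec a b *ᵥ Pi.single k 1 = b k • a := by
    intro a b k
    rw [vecMulVec_mulVec]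
    ext i
    simp [mul_comm]
  have g1 : GenSp (fromBlocks (1 + vecMulVec (Pi.single j 1) y') 0 0 (1 - vecMulVec y' (Pi.single j 1)) :
      Matrix (l ⊕ l) (l ⊕ l) ℤ) := by
    refine GenSp.M _ _ ?_
    rw [transpose_sub, transpose_one, transpose_vecMulVec, mul_sub, mul_one, add_mul, one_mul, vecMulVec_mul_vecMulVec]
    have h0 : y' ⬝ᵥ Pi.single j 1 = 0 := by
      rw [dotProduct_single, hy'j, zero_mul]
    rw [h0]
    simp
  have f1 : Fx s (fromBlocks (1 + vecMulVec (Pi.single j 1) y') 0 0 (1 - vecMulVec y' (Pi.single j 1)) :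
      Matrix (l ⊕ l) (l ⊕ l) ℤ) := by
    refine fx_of fun k hk => ⟨?_, zero_mulVec _, zero_mulVec _, ?_⟩
    · rw [add_mulVec, one_mulVec, vs, hy's k hk, zero_smul, add_zero]
    · rw [sub_mulVec, one_mulVec, vs, Pi.single_eq_of_ne (ne_of hj hk).symm, zero_smul, sub_zero]
  obtain ⟨x1, hx1⟩ : ∃ x1 : l → ℤ, x1 = (1 + vecMulVec (Pi.single j 1) y') *ᵥ x := ⟨_, rfl⟩
  have hx1s : ∀ k ∈ s, x1 k = 0 := by
    intro k hk
    rw [hx1, add_mulVec, one_mulVec, vecMulVec_mulVec, Pi.add_apply, hxs k hk]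
    simp [Pi.single_eq_of_ne (ne_of hj hk).symm]
  have a1 : (fromBlocks (1 + vecMulVec (Pi.single j 1) y') 0 0 (1 - vecMulVec y' (Pi.single j 1)) :
      Matrix (l ⊕ l) (l ⊕ l) ℤ) *ᵥ Sum.elim x y = Sum.elim x1 (Pi.single j 1) := by
    rw [act, zero_mulVec, zero_mulVec, add_zero, zero_add, ← hx1, sub_mulVec, one_mulVec, vecMulVec_mulVec]
    congr 1
    ext k
    simp [hyj, hy']
  have e1 : (fromBlocks (1 + vecMulVec (Pi.single j 1) y') 0 0 (1 - vecMulVec y' (Pi.single j 1)) :
      Matrix (l ⊕ l) (l ⊕ l) ℤ) *ᵥ Pi.single (Sum.inl j) 1 = Pi.single (Sum.inl j) 1 := by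
    rw [e_inl, act]
    simp only [zero_mulVec, mulVec_zero, add_zero, add_mulVec, one_mulVec, vs, hy'j, zero_smul]
  -- second step: `x = 0`
  obtain ⟨b, hb⟩ : ∃ b : Matrix l l ℤ, b = single j j (x1 j) - (vecMulVec x1 (Pi.single j 1) +
      vecMulVec (Pi.single j 1) x1) := ⟨_, rfl⟩
  have hbT : bᵀ = b := by
    rw [hb, transpose_sub, transpose_add, transpose_vecMulVec, transpose_vecMulVec, transpose_single, add_comm]
  have hbk : ∀ k ∈ s, b *ᵥ Pi.single k 1 = 0 := by
    intro k hk
    rw [hb, sub_mulVec, add_mulVec, vs, vs, m1 j j k (ne_of hj hk), Pi.single_eq_of_ne (ne_of hj hk).symm, hx1s k hk,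
      zero_smul, zero_smul, add_zero, sub_zero]
  have hbj : b *ᵥ Pi.single j 1 = -x1 := by
    rw [hb, sub_mulVec, add_mulVec, vs, vs, sg, Pi.single_eq_same, one_smul, mul_one]
    ext k
    by_cases hk : k = j
    · subst hk
      simp
    · simp [hk]
  have g2 : GenSp (fromBlocks 1 b 0 1 : Matrix (l ⊕ l) (l ⊕ l) ℤ) := GenSp.N b hbT
  have f2 : Fx s (fromBlocks 1 b 0 1 : Matrix (l ⊕ l) (l ⊕ l) ℤ) :=
    fx_of fun k hk => ⟨one_mulVec _, hbk k hk, zero_mulVec _, one_mulVec _⟩
  refine ⟨fromBlocks 1 b 0 1 * fromBlocks (1 + vecMulVec (Pi.single j 1) y') 0 0 (1 - vecMulVec y' (Pi.single j 1)),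
    GenSp.mul _ _ g2 g1, fx_mul f2 f1, ?_, ?_⟩
  · rw [← mulVec_mulVec, e1, e_inl, act, one_mulVec, zero_mulVec, mulVec_zero, mulVec_zero, add_zero, add_zero]
  · rw [← mulVec_mulVec, a1, act, one_mulVec, hbj, zero_mulVec, one_mulVec, zero_add, e_inr]
    simp

end GenAux

open GenAux

/-- **Generation of the symplectic group over the integers.** -/
theorem genSp_of_mem {g : Matrix (l ⊕ l) (l ⊕ l) ℤ} (hg : g ∈ symplecticGroup l ℤ) : GenSp g := by
  have key : ∀ (n : ℕ) (s : Finset l), sᶜ.card = n → ∀ g : Matrix (l ⊕ l) (l ⊕ l) ℤ, g ∈ symplecticGroup l ℤ → Fx s g →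
      GenSp g := by
    intro n
    induction n with
    | zero =>
      intro s hs g _ hf
      have hu : s = univ := by
        rw [Finset.card_eq_zero, Finset.compl_eq_empty_iff] at hs
        exact hs
      subst hu
      have e : g = 1 := by
        ext p q
        have h1 : g *ᵥ Pi.single q 1 = Pi.single q 1 := by
          rcases q with i | i
          · exact (hf i (Finset.mem_univ i)).1
          · exact (hf i (Finset.mem_univ i)).2
        have h2 := congrFun h1 p
        rw [mulVec_single_one, col_apply] at h2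
        rw [h2, one_apply, Pi.single_apply]
      rw [e]
      exact gen_one
    | succ n ih =>
      intro s hs g hg hf
      obtain ⟨j, hj⟩ : sᶜ.Nonempty := by
        rw [← Finset.card_pos, hs]
        omega
      rw [Finset.mem_compl] at hj
      have hej : ∀ p : l ⊕ l, ix p ∈ s → (Pi.single (Sum.inl j) 1 : l ⊕ l → ℤ) p = 0 := by
        intro p hp
        rw [Pi.single_eq_of_ne]
        rintro rfl
        exact hj hp
      have hfj : ∀ p : l ⊕ l, ix p ∈ s → (Pi.single (Sum.inr j) 1 : l ⊕ l → ℤ) p = 0 := by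
        intro p hp
        rw [Pi.single_eq_of_ne]
        rintro rfl
        exact hj hp
      -- the first vector
      obtain ⟨p, d, hp, hd, h, hh, fh, eh⟩ := rch_single s _ (g *ᵥ Pi.single (Sum.inl j) 1) le_rfl
        (fun p hp => coord hg hf hej p hp) (by
          by_contra hcon
          push Not at hcon
          have h0 : g *ᵥ Pi.single (Sum.inl j) 1 = 0 := funext hcon
          have h1 := om_mulVec hg (Pi.single (Sum.inr j) 1) (Pi.single (Sum.inl j) 1)
          rw [h0, om_e, Pi.single_eq_same] at h1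
          unfold om at h1
          rw [mulVec_zero, dotProduct_zero] at h1
          omega)
      have hhg : h * g ∈ symplecticGroup l ℤ := mul_mem (gen_mem hh) hg
      have hd1 : d * d = 1 := by
        have h1 := om_mulVec hhg (Pi.single (Sum.inr j) 1) (Pi.single (Sum.inl j) 1)
        have h2 : (h * g) *ᵥ Pi.single (Sum.inl j) 1 = d • Pi.single p 1 := by
          rw [← mulVec_mulVec, eh, ← Pi.single_smul, smul_eq_mul, mul_one]
        rw [h2, om_e, Pi.single_eq_same] at h1
        unfold om at h1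
        rw [mulVec_smul, dotProduct_smul, smul_eq_mul] at h1
        rcases Int.eq_one_or_neg_one_of_mul_eq_one h1 with h3 | h3 <;> rw [h3] <;> norm_num
      obtain ⟨h', hh', fh', eh'⟩ := rch_e hj hp hd1
      obtain ⟨g1, hg1⟩ : ∃ g1, g1 = h' * (h * g) := ⟨_, rfl⟩
      have m1 : g1 ∈ symplecticGroup l ℤ := by
        rw [hg1]
        exact mul_mem (gen_mem hh') hhg
      have f1 : Fx s g1 := by
        rw [hg1]
        exact fx_mul fh' (fx_mul fh hf)
      have e1 : g1 *ᵥ Pi.single (Sum.inl j) 1 = Pi.single (Sum.inl j) 1 := by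
        rw [hg1, ← mulVec_mulVec, ← mulVec_mulVec, eh, eh']
      -- the second vector
      obtain ⟨k, hk, fk, ek1, ek2⟩ := rch_f hj (fun p hp => coord m1 f1 hfj p hp) (coord_inr m1 e1)
      have hgen : GenSp (k * g1) := by
        refine ih (insert j s) ?_ _ (mul_mem (gen_mem hk) m1) ?_
        · rw [Finset.compl_insert, Finset.card_erase_of_mem (Finset.mem_compl.2 hj), hs]
          rfl
        · intro i hi
          rcases Finset.mem_insert.1 hi with rfl | hi
          · refine ⟨?_, ?_⟩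
            · rw [← mulVec_mulVec, e1, ek1]
            · rw [← mulVec_mulVec, ek2]
          · exact fx_mul fk f1 i hi
      obtain ⟨x, hx, ex⟩ := gen_inv (GenSp.mul _ _ hk (GenSp.mul _ _ hh' hh))
      have e2 : g = x * (k * g1) := by
        have e3 : k * g1 = k * (h' * h) * g := by
          rw [hg1]
          simp only [mul_assoc]
        rw [e3, ← mul_assoc, ex, one_mul]
      rw [e2]
      exact GenSp.mul _ _ hx hgen
  exact key _ ∅ rfl g hg (fun i hi => absurd hi (Finset.notMem_empty i))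

/-- **Induction principle.** -/
theorem sp_induction {P : Matrix (l ⊕ l) (l ⊕ l) ℤ → Prop} (hJ : P (Matrix.J l ℤ))
    (hN : ∀ b : Matrix l l ℤ, bᵀ = b → P (fromBlocks 1 b 0 1))
    (hM : ∀ u v : Matrix l l ℤ, u * vᵀ = 1 → P (fromBlocks u 0 0 v))
    (hmul : ∀ x y, x ∈ symplecticGroup l ℤ → y ∈ symplecticGroup l ℤ → P x → P y → P (x * y))
    {g : Matrix (l ⊕ l) (l ⊕ l) ℤ} (hg : g ∈ symplecticGroup l ℤ) : P g := by
  have h := genSp_of_mem hg
  clear hg
  induction h with
  | J => exact hJ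
  | N b hb => exact hN b hb
  | M u v h => exact hM u v h
  | mul x y hx hy ihx ihy => exact hmul x y (gen_mem hx) (gen_mem hy) ihx ihy

/-- the inversion in the coordinate `i` -/
def Jp (i : l) : Matrix (l ⊕ l) (l ⊕ l) ℤ :=
  fromBlocks (1 - single i i 1) (-single i i 1) (single i i 1) (1 - single i i 1)

namespace GenAux

/-- the inversion in the coordinates in `t` -/
def Jt (t : Finset l) : Matrix (l ⊕ l) (l ⊕ l) ℤ :=
  fromBlocks (diagonal fun i => if i ∈ t then 0 else 1) (-diagonal fun i => if i ∈ t then 1 else 0)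
    (diagonal fun i => if i ∈ t then 1 else 0) (diagonal fun i => if i ∈ t then 0 else 1)

theorem jt_empty : Jt (∅ : Finset l) = 1 := by
  unfold Jt
  rw [← fromBlocks_one]
  simp

theorem jt_univ : Jt (univ : Finset l) = Matrix.J l ℤ := by
  unfold Jt Matrix.J
  simp

theorem jp_mul (i : l) (t : Finset l) (hi : i ∉ t) : Jp i * Jt t = Jt (insert i t) := by
  have e : ∀ a : ℤ, (single i i a : Matrix l l ℤ) = diagonal (Pi.single i a) := by
    intro a
    ext k m
    by_cases hkm : k = m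
    · subst hkm
      by_cases hk : i = k
      · subst hk
        simp
      · rw [diagonal_apply_eq, Pi.single_eq_of_ne (Ne.symm hk), single_apply_of_ne]
        exact fun h => hk h.1
    · rw [diagonal_apply_ne _ hkm, single_apply_of_ne]
      exact fun h => hkm (h.1.symm.trans h.2)
  unfold Jp Jt
  rw [fromBlocks_multiply]
  simp only [e, ← diagonal_one, diagonal_sub, diagonal_mul_diagonal, fromBlocks_inj]
  refine ⟨?_, ?_, ?_, ?_⟩
  all_goals
    ext k m
    by_cases hkm : k = m
    · subst hkm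
      by_cases hk : k = i
      · subst hk
        simp [hi]
      · simp [hk]
    · simp [hkm]

theorem jp_mem (i : l) : Jp i ∈ symplecticGroup l ℤ := by
  have h1 : (single i i (1 : ℤ) : Matrix l l ℤ) * single i i 1 = single i i 1 := by
    rw [single_mul_single_same, mul_one]
  unfold Jp
  rw [SymplecticGroup.fromBlocks_mem_iff]
  simp only [transpose_sub, transpose_one, transpose_neg, transpose_single, sub_mul, mul_sub, one_mul, mul_one, neg_mul,
    mul_neg, h1]
  refine ⟨?_, ?_, ?_⟩ <;> first | rfl | abel | simp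

end GenAux

/-- **Induction principle, with the inversions in one coordinate.** -/
theorem sp_induction' {P : Matrix (l ⊕ l) (l ⊕ l) ℤ → Prop} (hJ : ∀ i : l, P (Jp i))
    (hN : ∀ b : Matrix l l ℤ, bᵀ = b → P (fromBlocks 1 b 0 1))
    (hM : ∀ u v : Matrix l l ℤ, u * vᵀ = 1 → P (fromBlocks u 0 0 v))
    (hmul : ∀ x y, x ∈ symplecticGroup l ℤ → y ∈ symplecticGroup l ℤ → P x → P y → P (x * y))
    {g : Matrix (l ⊕ l) (l ⊕ l) ℤ} (hg : g ∈ symplecticGroup l ℤ) : P g := by
  refine sp_induction ?_ hN hM hmul hg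
  have h1 : P 1 := by
    have h := hN (0 : Matrix l l ℤ) transpose_zero
    rwa [fromBlocks_one] at h
  have key : ∀ t : Finset l, P (Jt t) ∧ Jt t ∈ symplecticGroup l ℤ := by
    intro t
    induction t using Finset.induction_on with
    | empty =>
      rw [jt_empty]
      exact ⟨h1, one_mem _⟩
    | insert i t hi ih =>
      rw [← jp_mul i t hi]
      exact ⟨hmul _ _ (jp_mem i) ih.2 (hJ i) ih.1, mul_mem (jp_mem i) ih.2⟩
  rw [← jt_univ]
  exact (key univ).1

/-- **Induction principle, with the inversions in one coordinate and the translations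
`(x, y) ↦ (x, c x + y)`.** -/
theorem sp_induction'' {P : Matrix (l ⊕ l) (l ⊕ l) ℤ → Prop} (hJ : ∀ i : l, P (Jp i))
    (hT : ∀ c : Matrix l l ℤ, cᵀ = c → P (fromBlocks 1 0 c 1))
    (hM : ∀ u v : Matrix l l ℤ, u * vᵀ = 1 → P (fromBlocks u 0 0 v))
    (hmul : ∀ x y, x ∈ symplecticGroup l ℤ → y ∈ symplecticGroup l ℤ → P x → P y → P (x * y))
    {g : Matrix (l ⊕ l) (l ⊕ l) ℤ} (hg : g ∈ symplecticGroup l ℤ) : P g := by
  have h1 : P 1 := by
    have h := hT (0 : Matrix l l ℤ) transpose_zero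
    rwa [fromBlocks_one] at h
  have key : ∀ t : Finset l, P (Jt t) ∧ Jt t ∈ symplecticGroup l ℤ := by
    intro t
    induction t using Finset.induction_on with
    | empty =>
      rw [jt_empty]
      exact ⟨h1, one_mem _⟩
    | insert i t hi ih =>
      rw [← jp_mul i t hi]
      exact ⟨hmul _ _ (jp_mem i) ih.2 (hJ i) ih.1, mul_mem (jp_mem i) ih.2⟩
  have hJJ : P (Matrix.J l ℤ) ∧ Matrix.J l ℤ ∈ symplecticGroup l ℤ := by
    rw [← jt_univ]
    exact key univ
  refine sp_induction hJJ.1 (fun b hb => ?_) hM hmul hg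
  have hm : (fromBlocks 1 0 (-b) 1 : Matrix (l ⊕ l) (l ⊕ l) ℤ) ∈ symplecticGroup l ℤ := by
    rw [SymplecticGroup.fromBlocks_mem_iff]
    refine ⟨?_, ?_, ?_⟩ <;> simp [hb]
  have hJ2 : (Matrix.J l ℤ * Matrix.J l ℤ) ∈ symplecticGroup l ℤ := mul_mem hJJ.2 hJJ.2
  have e : (fromBlocks 1 b 0 1 : Matrix (l ⊕ l) (l ⊕ l) ℤ) =
      Matrix.J l ℤ * (fromBlocks 1 0 (-b) 1 * (Matrix.J l ℤ * (Matrix.J l ℤ * Matrix.J l ℤ))) := by
    unfold Matrix.J
    simp only [fromBlocks_multiply]
    simp
  rw [e]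
  exact hmul _ _ hJJ.2 (mul_mem hm (mul_mem hJJ.2 hJ2)) hJJ.1
    (hmul _ _ hm (mul_mem hJJ.2 hJ2) (hT _ (by rw [transpose_neg, hb]))
      (hmul _ _ hJJ.2 hJ2 hJJ.1 (hmul _ _ hJJ.2 hJJ.2 hJJ.1 hJJ.1)))

end Pool.Agent.Lib.CMT
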