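import Mathlib
import Pool.Agent.Lib.CMT.A.Gen

/-!
# CMT part A (I3): Siegel theta functions of level `N`, definitions (helper75)

`ι` a finite type.  `g : Matrix (ι ⊕ ι) (ι ⊕ ι) ℤ` acts on columns `(x, y)`.
`P_Z (x, y) = Z x + y`.  `Rel g Z Z' A` says `P_{Z'} (g v) = A P_Z v` for all `v`:
with `g = fromBlocks al be ga de`:  `Z' be + de = A`, `Z' al + ga = A Z`.

`th N φ Z w = ∑_{m ∈ ℤ^ι} φ(m mod N²) exp (π i (m·Z m)/N² + 2 π i (m·w)/N)`.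

`PG N K g`: there is a matrix `R` on the functions `(ι → ZMod (N^2)) → ℂ`, `(det R)^K = 1`, such that
for every `Z` in the Siegel upper half space there are `Z'` in the Siegel upper half space, `A`
with `Rel g Z Z' A` and a number `c`, `(c² det A)^K = 1`, with
`th N φ Z' (A w) = c exp (-π i (A w)·(be w)) th N (R φ) Z w` for all `φ`, `w`.

Wanted (helper31), `N` even, `K = 8 N²`:
`S_J  : PG N K (Jp i)`, `S_T : PG N K (fromBlocks 1 0 c 1)` (`c` symmetric),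
`S_M  : PG N K (fromBlocks u 0 0 v)` (`u * vᵀ = 1`), and `S_Sum`.
-/

open Complex Real Matrix

namespace Pool.Agent.CMT.A

variable {ι : Type*} [Fintype ι] [DecidableEq ι]

/-- an integral vector as a complex vector -/
def iv (m : ι → ℤ) : ι → ℂ := fun i => (m i : ℂ)

/-- an integral vector modulo `N ^ 2` -/
def zv (N : ℕ) (m : ι → ℤ) : ι → ZMod (N ^ 2) := fun i => (m i : ZMod (N ^ 2))

/-- the general term of the theta series -/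
noncomputable def tmg (N : ℕ) (Z : Matrix ι ι ℂ) (w : ι → ℂ) (m : ι → ℤ) : ℂ :=
  cexp (π * I * (iv m ⬝ᵥ Z *ᵥ iv m) / (N : ℂ) ^ 2 + 2 * π * I * (iv m ⬝ᵥ w) / N)

/-- the theta function of level `N` with coefficient function `φ` -/
noncomputable def th (N : ℕ) (φ : (ι → ZMod (N ^ 2)) → ℂ) (Z : Matrix ι ι ℂ) (w : ι → ℂ) : ℂ :=
  ∑' m : ι → ℤ, φ (zv N m) * tmg N Z w m

/-- the Siegel upper half space -/
def IsH (Z : Matrix ι ι ℂ) : Prop :=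
  Zᵀ = Z ∧ ∀ x : ι → ℝ, x ≠ 0 → 0 < x ⬝ᵥ (Z.map Complex.im) *ᵥ x

/-- absolute convergence of the theta series -/
def S_Sum (ι : Type*) [Fintype ι] : Prop :=
  ∀ (N : ℕ) [NeZero N] (Z : Matrix ι ι ℂ) (w : ι → ℂ), IsH Z → Summable fun m => ‖tmg N Z w m‖

/-- the blocks of `g` as complex matrices -/
def al (g : Matrix (ι ⊕ ι) (ι ⊕ ι) ℤ) : Matrix ι ι ℂ := g.toBlocks₁₁.map (Int.cast : ℤ → ℂ)

/-- the blocks of `g` as complex matrices -/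
def be (g : Matrix (ι ⊕ ι) (ι ⊕ ι) ℤ) : Matrix ι ι ℂ := g.toBlocks₁₂.map (Int.cast : ℤ → ℂ)

/-- the blocks of `g` as complex matrices -/
def ga (g : Matrix (ι ⊕ ι) (ι ⊕ ι) ℤ) : Matrix ι ι ℂ := g.toBlocks₂₁.map (Int.cast : ℤ → ℂ)

/-- the blocks of `g` as complex matrices -/
def de (g : Matrix (ι ⊕ ι) (ι ⊕ ι) ℤ) : Matrix ι ι ℂ := g.toBlocks₂₂.map (Int.cast : ℤ → ℂ)

/-- `P_{Z'} (g v) = A P_Z v`, `P_Z (x, y) = Z x + y`. -/
def Rel (g : Matrix (ι ⊕ ι) (ι ⊕ ι) ℤ) (Z Z' A : Matrix ι ι ℂ) : Prop :=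
  Z' * be g + de g = A ∧ Z' * al g + ga g = A * Z

/-- the transformation property of the theta functions of level `N` under `g` -/
def PG (N : ℕ) [NeZero N] (K : ℕ) (g : Matrix (ι ⊕ ι) (ι ⊕ ι) ℤ) : Prop :=
  ∃ R : Matrix (ι → ZMod (N ^ 2)) (ι → ZMod (N ^ 2)) ℂ,
    R.det ^ K = 1 ∧ ∀ Z : Matrix ι ι ℂ, IsH Z → ∃ (Z' A : Matrix ι ι ℂ) (c : ℂ),
      IsH Z' ∧ Rel g Z Z' A ∧ (c ^ 2 * A.det) ^ K = 1 ∧
        ∀ (φ : (ι → ZMod (N ^ 2)) → ℂ) (w : ι → ℂ),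
          th N φ Z' (A *ᵥ w) =
            c * cexp (-(π * I * ((A *ᵥ w) ⬝ᵥ (be g *ᵥ w)))) * th N (R *ᵥ φ) Z w

end Pool.Agent.CMT.A
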