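import Mathlib
import Pool.Agent.Lib.CMT.A.Gau
import Pool.Agent.Lib.CMT.A.ThDef

/-! CMT part A (helper31): absolute convergence of the theta series of level `N` (`S_Sum`). -/

open Complex Real MeasureTheory Matrix

namespace Pool.Agent.CMT.A

variable {ι : Type*} [Fintype ι]

theorem isH_posDef {Z : Matrix ι ι ℂ} (hZ : IsH Z) : (Z.map Complex.im).PosDef := by
  refine Matrix.PosDef.of_dotProduct_mulVec_pos ?_ (fun x hx => ?_)
  · rw [Matrix.IsHermitian, Matrix.conjTranspose_eq_transpose_of_trivial, ← Matrix.transpose_map,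
      hZ.1]
  · exact hZ.2 x hx

theorem isH_of_posDef {Z : Matrix ι ι ℂ} (h1 : Zᵀ = Z) (h2 : (Z.map Complex.im).PosDef) :
    IsH Z := ⟨h1, fun x hx => by simpa using h2.dotProduct_mulVec_pos hx⟩

/-- imaginary part of the quadratic form at a real vector -/
theorem im_quad (Z : Matrix ι ι ℂ) (x : ι → ℝ) :
    ((fun i => (x i : ℂ)) ⬝ᵥ Z *ᵥ (fun i => (x i : ℂ))).im = x ⬝ᵥ (Z.map Complex.im) *ᵥ x := by
  simp only [dotProduct, Matrix.mulVec, Complex.im_sum, Matrix.map_apply]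
  refine Finset.sum_congr rfl (fun i _ => ?_)
  rw [Complex.im_ofReal_mul, Complex.im_sum]
  congr 1
  refine Finset.sum_congr rfl (fun j _ => ?_)
  rw [mul_comm, Complex.im_ofReal_mul, mul_comm]

theorem norm_tmg (N : ℕ) (Z : Matrix ι ι ℂ) (w : ι → ℂ) (m : ι → ℤ) :
    ‖tmg N Z w m‖ = Real.exp (-π * ((fun i => (m i : ℝ)) ⬝ᵥ (Z.map Complex.im) *ᵥ
      (fun i => (m i : ℝ))) / (N : ℝ) ^ 2 - 2 * π * (∑ i, (m i : ℝ) * (w i).im) / N) := by
  unfold tmg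
  rw [Complex.norm_exp, Real.exp_eq_exp]
  have e1 : iv m = fun i => (((m i : ℝ)) : ℂ) := by
    funext i
    simp [iv]
  have h1 : (π * I * (iv m ⬝ᵥ Z *ᵥ iv m) / (N : ℂ) ^ 2).re =
      -π * (iv m ⬝ᵥ Z *ᵥ iv m).im / (N : ℝ) ^ 2 := by
    rw [show (π * I * (iv m ⬝ᵥ Z *ᵥ iv m) / (N : ℂ) ^ 2) =
      ((π / (N : ℝ) ^ 2 : ℝ) : ℂ) * (I * (iv m ⬝ᵥ Z *ᵥ iv m)) by push_cast; ring,
      Complex.re_ofReal_mul, Complex.I_mul_re]
    ring
  have h2 : (2 * π * I * (iv m ⬝ᵥ w) / N).re = -(2 * π * (∑ i, (m i : ℝ) * (w i).im) / N) := by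
    rw [show (2 * π * I * (iv m ⬝ᵥ w) / N) = ((2 * π / N : ℝ) : ℂ) * (I * (iv m ⬝ᵥ w)) by
      push_cast; ring, Complex.re_ofReal_mul, Complex.I_mul_re]
    have : (iv m ⬝ᵥ w).im = ∑ i, (m i : ℝ) * (w i).im := by
      rw [e1]
      unfold dotProduct
      rw [Complex.im_sum]
      exact Finset.sum_congr rfl (fun i _ => Complex.im_ofReal_mul _ _)
    rw [this]
    ring
  rw [Complex.add_re, h1, h2, e1, im_quad]
  ring

theorem tSum : S_Sum ι := by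
  classical
  intro N _ Z w hZ
  have hN : (0 : ℝ) < N := by exact_mod_cast NeZero.pos N
  have hA : (((N : ℝ) ^ 2)⁻¹ • (Z.map Complex.im)).PosDef :=
    (isH_posDef hZ).smul (by positivity)
  have h := (gaBd_gA hA (fun i => ((-(w i).im / N : ℝ) : ℂ))).summable.norm
  refine h.congr (fun m => ?_)
  rw [norm_tmg]
  unfold gA
  rw [Complex.norm_exp, re_exponent_gA, Real.exp_eq_exp, Matrix.smul_mulVec, dotProduct_smul,
    smul_eq_mul]
  have e : ∑ i, (m i : ℝ) * (((-(w i).im / N : ℝ) : ℂ)).re = -(∑ i, (m i : ℝ) * (w i).im) / N := by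
    rw [neg_div, Finset.sum_div, ← Finset.sum_neg_distrib]
    refine Finset.sum_congr rfl (fun i _ => ?_)
    rw [Complex.ofReal_re]
    ring
  rw [e]
  ring

/-- with bounded coefficients -/
theorem summable_th (N : ℕ) [NeZero N] (φ : (ι → ZMod (N ^ 2)) → ℂ) (Z : Matrix ι ι ℂ)
    (w : ι → ℂ) (hZ : IsH Z) : Summable (fun m => φ (zv N m) * tmg N Z w m) := by
  classical
  have : NeZero (N ^ 2) := ⟨pow_ne_zero _ (NeZero.ne N)⟩
  obtain ⟨C, hC⟩ : ∃ C : ℝ, ∀ r, ‖φ r‖ ≤ C := by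
    obtain ⟨C, hC⟩ := (Set.finite_range (fun r => ‖φ r‖)).bddAbove
    exact ⟨C, fun r => hC ⟨r, rfl⟩⟩
  refine Summable.of_norm_bounded (g := fun m => C * ‖tmg N Z w m‖)
    ((tSum N Z w hZ).mul_left C) (fun n => ?_)
  rw [norm_mul]
  exact mul_le_mul_of_nonneg_right (hC _) (norm_nonneg _)

end Pool.Agent.CMT.A
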