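import Mathlib
import Pool.Agent.Lib.CMT.A.Sum

/-! CMT part A (helper31): the partial inversion in the coordinate `i`: algebra and the Siegel
upper half space. -/

open Complex Real Matrix

namespace Pool.Agent.CMT.A

set_option linter.unusedSectionVars false

variable {ι : Type*} [Fintype ι] [DecidableEq ι]

/-- the unit vector -/
def eu (i : ι) : ι → ℂ := Pi.single i 1

/-- the column `i` of `Z` minus the unit vector -/
def pJ (Z : Matrix ι ι ℂ) (i : ι) : ι → ℂ := fun k => Z k i - eu i k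

/-- the image of `Z` under the partial inversion -/
noncomputable def ZJ (Z : Matrix ι ι ℂ) (i : ι) : Matrix ι ι ℂ :=
  Z - (Z i i)⁻¹ • vecMulVec (pJ Z i) (pJ Z i) - (2 : ℂ) • vecMulVec (eu i) (eu i)

/-- the automorphy matrix of the partial inversion -/
noncomputable def AJ (Z : Matrix ι ι ℂ) (i : ι) : Matrix ι ι ℂ :=
  1 - (Z i i)⁻¹ • vecMulVec (pJ Z i) (eu i)

theorem vmv (u v w : ι → ℂ) : vecMulVec u v *ᵥ w = (v ⬝ᵥ w) • u := by
  ext k
  simp only [Matrix.mulVec, dotProduct, vecMulVec_apply, Pi.smul_apply, smul_eq_mul,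
    Finset.sum_mul]
  exact Finset.sum_congr rfl (fun j _ => by ring)

theorem eu_dot (i : ι) (x : ι → ℂ) : eu i ⬝ᵥ x = x i := by
  unfold eu
  rw [single_dotProduct, one_mul]

theorem dot_eu (i : ι) (x : ι → ℂ) : x ⬝ᵥ eu i = x i := by
  rw [dotProduct_comm, eu_dot]

theorem pJ_eq (Z : Matrix ι ι ℂ) (i : ι) : pJ Z i = Z *ᵥ eu i - eu i := by
  funext k
  simp [pJ, eu]

theorem pJ_dot {Z : Matrix ι ι ℂ} (hZ : Zᵀ = Z) (i : ι) (x : ι → ℂ) :
    pJ Z i ⬝ᵥ x = (Z *ᵥ x) i - x i := by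
  rw [pJ_eq, sub_dotProduct, eu_dot, dotProduct_comm, Matrix.dotProduct_mulVec,
    ← Matrix.mulVec_transpose, hZ, dot_eu]

theorem ZJ_symm {Z : Matrix ι ι ℂ} (hZ : Zᵀ = Z) (i : ι) : (ZJ Z i)ᵀ = ZJ Z i := by
  unfold ZJ
  rw [Matrix.transpose_sub, Matrix.transpose_sub, Matrix.transpose_smul, Matrix.transpose_smul,
    Matrix.transpose_vecMulVec, Matrix.transpose_vecMulVec, hZ]

theorem ZJ_mulVec (Z : Matrix ι ι ℂ) (i : ι) (x : ι → ℂ) :
    ZJ Z i *ᵥ x = Z *ᵥ x - ((Z i i)⁻¹ * (pJ Z i ⬝ᵥ x)) • pJ Z i - (2 * x i) • eu i := by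
  unfold ZJ
  rw [Matrix.sub_mulVec, Matrix.sub_mulVec, Matrix.smul_mulVec, Matrix.smul_mulVec, vmv, vmv,
    eu_dot, smul_smul, smul_smul]

theorem AJ_mulVec (Z : Matrix ι ι ℂ) (i : ι) (w : ι → ℂ) :
    AJ Z i *ᵥ w = w - ((Z i i)⁻¹ * w i) • pJ Z i := by
  unfold AJ
  rw [Matrix.sub_mulVec, Matrix.one_mulVec, Matrix.smul_mulVec, vmv, eu_dot, smul_smul]

theorem det_AJ {Z : Matrix ι ι ℂ} (i : ι) (h : Z i i ≠ 0) : (AJ Z i).det = (Z i i)⁻¹ := by
  have h1 : AJ Z i = 1 + replicateCol Unit (-((Z i i)⁻¹ • pJ Z i)) * replicateRow Unit (eu i) := by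
    unfold AJ
    rw [← vecMulVec_eq, neg_vecMulVec, smul_vecMulVec, sub_eq_add_neg]
  rw [h1, det_one_add_replicateCol_mul_replicateRow, dotProduct_neg, dotProduct_smul, eu_dot]
  simp only [pJ, eu, Pi.single_eq_same, smul_eq_mul]
  field_simp
  ring

/-- the value of the quadratic form of `ZJ` -/
theorem quad_ZJ (Z : Matrix ι ι ℂ) (i : ι) (x : ι → ℂ) :
    x ⬝ᵥ ZJ Z i *ᵥ x = x ⬝ᵥ Z *ᵥ x - (Z i i)⁻¹ * (pJ Z i ⬝ᵥ x) ^ 2 - 2 * x i ^ 2 := by
  rw [ZJ_mulVec, dotProduct_sub, dotProduct_sub, dotProduct_smul, dotProduct_smul, dot_eu,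
    dotProduct_comm x (pJ Z i)]
  simp only [smul_eq_mul]
  ring

/-- expansion along the coordinate `i` -/
theorem quad_add {Z : Matrix ι ι ℂ} (hZ : Zᵀ = Z) (i : ι) (y : ι → ℂ) (n : ℂ) :
    (y + n • eu i) ⬝ᵥ Z *ᵥ (y + n • eu i) =
      y ⬝ᵥ Z *ᵥ y + 2 * n * (Z *ᵥ y) i + n ^ 2 * Z i i := by
  have h1 : y ⬝ᵥ Z *ᵥ eu i = (Z *ᵥ y) i := by
    rw [Matrix.dotProduct_mulVec, ← Matrix.mulVec_transpose, hZ, dot_eu]
  have h2 : eu i ⬝ᵥ Z *ᵥ eu i = Z i i := by
    rw [eu_dot]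
    simp [eu]
  rw [Matrix.mulVec_add, Matrix.mulVec_smul, add_dotProduct, dotProduct_add, dotProduct_add,
    smul_dotProduct, smul_dotProduct, dotProduct_smul, dotProduct_smul, h1, h2, eu_dot]
  simp only [smul_eq_mul]
  ring

theorem pJ_add {Z : Matrix ι ι ℂ} (hZ : Zᵀ = Z) (i : ι) (y : ι → ℂ) (hy : y i = 0) (n : ℂ) :
    pJ Z i ⬝ᵥ (y + n • eu i) = (Z *ᵥ y) i + n * Z i i - n := by
  rw [dotProduct_add, dotProduct_smul, pJ_dot hZ, dot_eu, hy]
  simp only [pJ, eu, Pi.single_eq_same, smul_eq_mul]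
  ring

/-- the quadratic form of `ZJ`, expanded along the coordinate `i` -/
theorem quad_ZJ_add {Z : Matrix ι ι ℂ} (hZ : Zᵀ = Z) (i : ι) (h : Z i i ≠ 0) (y : ι → ℂ)
    (hy : y i = 0) (n : ℂ) :
    (y + n • eu i) ⬝ᵥ ZJ Z i *ᵥ (y + n • eu i) =
      y ⬝ᵥ Z *ᵥ y - (Z i i)⁻¹ * ((Z *ᵥ y) i - n) ^ 2 := by
  rw [quad_ZJ, quad_add hZ, pJ_add hZ i y hy]
  have : (y + n • eu i) i = n := by
    simp [eu, hy]
  rw [this]
  field_simp
  ring

theorem diag_im_pos {Z : Matrix ι ι ℂ} (hZ : IsH Z) (i : ι) : 0 < (Z i i).im := by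
  have h := hZ.2 (Pi.single i 1) (by simp)
  rw [single_dotProduct, one_mul, Matrix.mulVec_single_one] at h
  simpa using h

theorem isH_ZJ {Z : Matrix ι ι ℂ} (hZ : IsH Z) (i : ι) : IsH (ZJ Z i) := by
  have hτ := diag_im_pos hZ i
  have hτ0 : Z i i ≠ 0 := by
    intro h
    rw [h] at hτ
    simp at hτ
  refine ⟨ZJ_symm hZ.1 i, fun x hx => ?_⟩
  set n : ℝ := x i with hn
  set yr : ι → ℝ := Function.update x i 0 with hyr
  set y : ι → ℂ := fun k => (yr k : ℂ) with hy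
  have hyi : y i = 0 := by simp [hy, hyr]
  have hx1 : (fun k => (x k : ℂ)) = y + (n : ℂ) • eu i := by
    funext k
    by_cases hk : k = i
    · subst hk
      simp [hy, hyr, eu, hn]
    · simp [hy, hyr, eu, hk]
  set s := (Z *ᵥ y) i with hs
  set g : ℂ := (Z i i)⁻¹ * (n - s) with hg
  have hgτ : Z i i * g = n - s := by
    rw [hg]
    field_simp
  rw [← im_quad, hx1, quad_ZJ_add hZ.1 i hτ0 y hyi, ← hs]
  -- the vector `y + u e`
  set x1 : ι → ℝ := yr + g.re • Pi.single i 1 with hx1'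
  have hx2 : (fun k => (x1 k : ℂ)) = y + (g.re : ℂ) • eu i := by
    funext k
    by_cases hk : k = i
    · subst hk
      simp [hx1', hy, eu]
    · simp [hx1', hy, eu, hk]
  have h1 := im_quad Z x1
  rw [hx2, quad_add hZ.1, ← hs] at h1
  have h2 : y ⬝ᵥ Z *ᵥ y - (Z i i)⁻¹ * (s - (n : ℂ)) ^ 2 =
      (y ⬝ᵥ Z *ᵥ y + 2 * (g.re : ℂ) * s + (g.re : ℂ) ^ 2 * Z i i) +
        (((g.im ^ 2 : ℝ) : ℂ) * Z i i - ((2 * g.re * n : ℝ) : ℂ)) := by
    have e1 : (Z i i)⁻¹ * (s - (n : ℂ)) ^ 2 = Z i i * g ^ 2 := by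
      rw [hg]
      field_simp
      ring
    have e2 : s = n - Z i i * g := by rw [hgτ]; ring
    have e3 : g ^ 2 = g * g := sq g
    have e4 : g = (g.re : ℂ) + (g.im : ℂ) * I := (Complex.re_add_im g).symm
    rw [e1, e2]
    push_cast
    have e5 : Z i i * g ^ 2 = Z i i * (2 * (g.re : ℂ) * g - (g.re : ℂ) ^ 2 - (g.im : ℂ) ^ 2) := by
      have : g ^ 2 = 2 * (g.re : ℂ) * g - (g.re : ℂ) ^ 2 - (g.im : ℂ) ^ 2 := by
        have h : (g - g.re) ^ 2 = -(g.im : ℂ) ^ 2 := by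
          have : g - g.re = (g.im : ℂ) * I := by
            nth_rewrite 1 [e4]
            ring
          rw [this, mul_pow, Complex.I_sq]
          ring
        linear_combination h
      rw [this]
    rw [e5]
    ring
  rw [h2, Complex.add_im, h1, Complex.sub_im, Complex.im_ofReal_mul, Complex.ofReal_im, sub_zero]
  by_cases hx0 : x1 = 0
  · rw [hx0]
    simp only [zero_dotProduct, zero_add]
    have hre : g.re = 0 := by
      have := congrFun hx0 i
      simpa [hx1', hyr] using this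
    have hyr0 : yr = 0 := by
      rw [hx1', hre, zero_smul, add_zero] at hx0
      exact hx0
    have hy0 : y = 0 := by
      rw [hy, hyr0]
      funext k
      simp
    have hs0 : s = 0 := by
      rw [hs, hy0, Matrix.mulVec_zero]
      rfl
    have hn0 : n ≠ 0 := by
      intro h0
      apply hx
      have : x = Function.update yr i n := by
        rw [hyr, hn]
        simp
      rw [this, hyr0, h0]
      funext k
      by_cases hk : k = i
      · subst hk; simp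
      · simp [hk]
    have hg0 : g ≠ 0 := by
      rw [hg, hs0, sub_zero]
      exact mul_ne_zero (inv_ne_zero hτ0) (by exact_mod_cast hn0)
    have him : g.im ≠ 0 := by
      intro h0
      exact hg0 (Complex.ext hre h0)
    positivity
  · have := hZ.2 x1 hx0
    have h3 : 0 ≤ g.im ^ 2 * (Z i i).im := by positivity
    linarith

end Pool.Agent.CMT.A
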