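import Mathlib

/-! CMT part A (helper31): the one-variable theta functional equation for coefficient functions of
level `N`, i.e. functions on `ZMod (N ^ 2)` (the point `x = n / N`, `n` modulo `N ^ 2`). -/

open Complex Real

namespace Pool.Agent.CMT

/-- partial Fourier transform in one variable: `(1/N) * sum_r φ(r) e(r m / N^2)`. -/
noncomputable def F1 (N : ℕ) [NeZero N] (φ : ZMod (N ^ 2) → ℂ) (m : ZMod (N ^ 2)) : ℂ :=
  (N : ℂ)⁻¹ * ∑ r : ZMod (N ^ 2), φ r * ZMod.stdAddChar (r * m)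

theorem sum_fin_zmod (M : ℕ) [NeZero M] (g : ZMod M → ℂ) :
    ∑ r : Fin M, g ((r : ℕ) : ZMod M) = ∑ x : ZMod M, g x := by
  apply Fintype.sum_bijective (fun r : Fin M => ((r : ℕ) : ZMod M))
  · rw [Fintype.bijective_iff_injective_and_card]
    refine ⟨fun a b h => ?_, by simp [ZMod.card]⟩
    have h1 := (ZMod.natCast_eq_natCast_iff' _ _ _).1 h
    rw [Nat.mod_eq_of_lt a.2, Nat.mod_eq_of_lt b.2] at h1
    exact Fin.ext h1
  · intro x; rfl

/-- the term -/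
noncomputable def tm1 (N : ℕ) (z w : ℂ) (n : ℤ) : ℂ :=
  cexp (π * I * z * (n : ℂ) ^ 2 / (N : ℂ) ^ 2 + 2 * π * I * n * w / N)

theorem tm1_eq (N : ℕ) (z w : ℂ) (n : ℤ) :
    tm1 N z w n = jacobiTheta₂_term n (w / N) (z / (N : ℂ) ^ 2) := by
  unfold tm1 jacobiTheta₂_term
  congr 1
  ring

theorem summable_tm1 (N : ℕ) [NeZero N] (z w : ℂ) (hz : 0 < z.im) :
    Summable (tm1 N z w) := by
  have hN : (0 : ℝ) < (N : ℝ) ^ 2 := by
    have := NeZero.pos N
    positivity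
  have h : 0 < (z / (N : ℂ) ^ 2).im := by
    have : (z / (N : ℂ) ^ 2) = z / (((N : ℝ) ^ 2 : ℝ) : ℂ) := by push_cast; rfl
    rw [this, Complex.div_ofReal_im]
    positivity
  have := (summable_jacobiTheta₂_term_iff (w / N) (z / (N : ℂ) ^ 2)).2 h
  refine this.congr (fun n => ?_)
  rw [tm1_eq]

theorem summable_mul_tm1 (N : ℕ) [NeZero N] (φ : ZMod (N ^ 2) → ℂ) (z w : ℂ) (hz : 0 < z.im) :
    Summable (fun n : ℤ => φ n * tm1 N z w n) := by
  obtain ⟨C, hC⟩ : ∃ C : ℝ, ∀ r, ‖φ r‖ ≤ C := by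
    obtain ⟨C, hC⟩ := (Set.finite_range (fun r => ‖φ r‖)).bddAbove
    exact ⟨C, fun r => hC ⟨r, rfl⟩⟩
  refine Summable.of_norm_bounded (g := fun n : ℤ => C * ‖tm1 N z w n‖)
    ((summable_tm1 N z w hz).norm.mul_left C) (fun n => ?_)
  rw [norm_mul]
  exact mul_le_mul_of_nonneg_right (hC _) (norm_nonneg _)

/-- the one-variable inversion formula of level `N`. -/
theorem tJOne (N : ℕ) [NeZero N] (φ : ZMod (N ^ 2) → ℂ) (z w : ℂ) (hz : 0 < z.im) :
    ∑' n : ℤ, φ n * tm1 N z w n =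
      1 / (-I * z) ^ (1 / 2 : ℂ) * cexp (-π * I * w ^ 2 / z) *
        ∑' m : ℤ, F1 N φ m * tm1 N (-1 / z) (w / z) m := by
  have hNpos := NeZero.pos N
  have hN0 : (N : ℂ) ≠ 0 := by exact_mod_cast NeZero.ne N
  have hz0 : z ≠ 0 := by
    rintro rfl
    simp at hz
  have hNz : NeZero (N ^ 2) := ⟨pow_ne_zero _ (NeZero.ne N)⟩
  -- residue classes
  have h1 : ∑' n : ℤ, φ n * tm1 N z w n =
      ∑ r : Fin (N ^ 2), ∑' k : ℤ, φ ((r : ℕ) : ZMod (N ^ 2)) *
        tm1 N z w (k * (N ^ 2 : ℕ) + (r : ℕ)) := by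
    have hs := summable_mul_tm1 N φ z w hz
    rw [← (Int.divModEquiv (N ^ 2)).symm.tsum_eq]
    have hs' := (Int.divModEquiv (N ^ 2)).symm.summable_iff.2 hs
    rw [← (Equiv.prodComm (Fin (N ^ 2)) ℤ).tsum_eq]
    have hs'' := (Equiv.prodComm (Fin (N ^ 2)) ℤ).summable_iff.2 hs'
    refine (hs''.tsum_prod).trans ?_
    rw [tsum_fintype]
    refine Finset.sum_congr rfl (fun r _ => tsum_congr (fun k => ?_))
    simp only [Function.comp_apply, Int.divModEquiv_symm_apply, Equiv.prodComm_apply,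
      Prod.swap_prod_mk]
    push_cast
    congr 2
    have : ((N : ZMod (N ^ 2)) ^ 2) = 0 := by
      have := ZMod.natCast_self (N ^ 2)
      push_cast at this
      exact this
    rw [this]
    ring
  have h2 : ∀ r : Fin (N ^ 2), ∑' k : ℤ, φ ((r : ℕ) : ZMod (N ^ 2)) *
        tm1 N z w (k * (N ^ 2 : ℕ) + (r : ℕ)) =
      φ ((r : ℕ) : ZMod (N ^ 2)) * (1 / (-I * z) ^ (1 / 2 : ℂ) * cexp (-π * I * w ^ 2 / z) *
        ∑' m : ℤ, (N : ℂ)⁻¹ * ZMod.stdAddChar (((r : ℕ) : ZMod (N ^ 2)) * (m : ZMod (N ^ 2))) *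
          tm1 N (-1 / z) (w / z) m) := by
    intro r
    rw [tsum_mul_left]
    congr 1
    have h3 : ∀ k : ℤ, tm1 N z w (k * (N ^ 2 : ℕ) + (r : ℕ)) =
        cexp (π * I * z * (r : ℂ) ^ 2 / (N : ℂ) ^ 2 + 2 * π * I * r * w / N) *
          jacobiTheta₂_term k (N * w + r * z) ((N : ℂ) ^ 2 * z) := by
      intro k
      unfold tm1 jacobiTheta₂_term
      rw [← Complex.exp_add]
      congr 1
      push_cast
      field_simp
      ring
    rw [tsum_congr h3, tsum_mul_left]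
    have h4 := jacobiTheta₂_functional_equation (N * w + r * z) ((N : ℂ) ^ 2 * z)
    have h5 : ∑' k : ℤ, jacobiTheta₂_term k (N * w + r * z) ((N : ℂ) ^ 2 * z) =
        jacobiTheta₂ (N * w + r * z) ((N : ℂ) ^ 2 * z) := rfl
    rw [h5, h4]
    have h6 : (-I * ((N : ℂ) ^ 2 * z)) ^ (1 / 2 : ℂ) = N * (-I * z) ^ (1 / 2 : ℂ) := by
      have e1 : -I * ((N : ℂ) ^ 2 * z) = (((N : ℝ) ^ 2 : ℝ) : ℂ) * (-I * z) := by
        push_cast; ring
      have hu : -I * z ≠ 0 := mul_ne_zero (neg_ne_zero.2 I_ne_zero) hz0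
      have hNr : (0 : ℝ) < (N : ℝ) ^ 2 := by positivity
      rw [e1, Complex.cpow_def_of_ne_zero (mul_ne_zero (by exact_mod_cast hNr.ne') hu),
        Complex.log_ofReal_mul hNr hu, add_mul, Complex.exp_add,
        Complex.cpow_def_of_ne_zero hu]
      congr 1
      have e3 : Real.log ((N : ℝ) ^ 2) = 2 * Real.log N := by
        rw [Real.log_pow]; norm_num
      have e4 : ((Real.log ((N : ℝ) ^ 2) : ℝ) : ℂ) * (1 / 2) = ((Real.log N : ℝ) : ℂ) := by
        rw [e3, Complex.ofReal_mul, Complex.ofReal_ofNat]; ring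
      rw [e4, ← Complex.ofReal_exp, Real.exp_log (by exact_mod_cast hNpos),
        Complex.ofReal_natCast]
    rw [h6]
    unfold jacobiTheta₂
    rw [← tsum_mul_left, ← tsum_mul_left, ← tsum_mul_left]
    refine tsum_congr (fun m => ?_)
    have h7 : ZMod.stdAddChar (((r : ℕ) : ZMod (N ^ 2)) * (m : ZMod (N ^ 2))) =
        cexp (2 * π * I * ((r : ℂ) * m) / (N : ℂ) ^ 2) := by
      have e5 : (((r : ℕ) : ZMod (N ^ 2)) * (m : ZMod (N ^ 2))) =
          (((((r : ℕ) : ℤ) * m : ℤ)) : ZMod (N ^ 2)) := by push_cast; rfl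
      rw [e5, ZMod.stdAddChar_coe]
      push_cast
      rfl
    rw [h7]
    unfold tm1 jacobiTheta₂_term
    have hsq : (-I * z) ^ (1 / 2 : ℂ) ≠ 0 := by
      rw [Complex.cpow_def_of_ne_zero (mul_ne_zero (neg_ne_zero.2 I_ne_zero) hz0)]
      exact Complex.exp_ne_zero _
    have e6 : ∀ a b c d : ℂ, cexp a * (1 / (N * (-I * z) ^ (1 / 2 : ℂ)) * cexp b * cexp c) =
        (1 / (N * (-I * z) ^ (1 / 2 : ℂ))) * cexp (a + b + c) := by
      intro a b c d
      rw [Complex.exp_add, Complex.exp_add]; ring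
    have e7 : ∀ a b c : ℂ, 1 / (-I * z) ^ (1 / 2 : ℂ) * cexp a * ((N : ℂ)⁻¹ * cexp b * cexp c) =
        (1 / (N * (-I * z) ^ (1 / 2 : ℂ))) * cexp (a + b + c) := by
      intro a b c
      rw [Complex.exp_add, Complex.exp_add]
      field_simp
    rw [e6 _ _ _ 0, e7]
    congr 2
    field_simp
    ring
  rw [h1, Finset.sum_congr rfl (fun r _ => h2 r)]
  rw [sum_fin_zmod (N ^ 2) (fun x => φ x * (1 / (-I * z) ^ (1 / 2 : ℂ) *
      cexp (-π * I * w ^ 2 / z) *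
        ∑' m : ℤ, (N : ℂ)⁻¹ * ZMod.stdAddChar (x * (m : ZMod (N ^ 2))) *
          tm1 N (-1 / z) (w / z) m))]
  have hs : ∀ x : ZMod (N ^ 2), Summable (fun m : ℤ =>
      φ x * ((N : ℂ)⁻¹ * ZMod.stdAddChar (x * (m : ZMod (N ^ 2))) *
        tm1 N (-1 / z) (w / z) m)) := by
    intro x
    have hz' : 0 < (-1 / z).im := by
      rw [neg_div, Complex.neg_im, one_div, Complex.inv_im, neg_div, neg_neg]
      exact div_pos hz (Complex.normSq_pos.2 hz0)
    have := summable_mul_tm1 N (fun y : ZMod (N ^ 2) => φ x * ((N : ℂ)⁻¹ *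
      ZMod.stdAddChar (x * y))) (-1 / z) (w / z) hz'
    refine this.congr (fun m => ?_)
    ring
  have h8 : ∀ m : ℤ, F1 N φ m * tm1 N (-1 / z) (w / z) m =
      ∑ x : ZMod (N ^ 2), φ x * ((N : ℂ)⁻¹ * ZMod.stdAddChar (x * (m : ZMod (N ^ 2))) *
        tm1 N (-1 / z) (w / z) m) := by
    intro m
    unfold F1
    rw [Finset.mul_sum, Finset.sum_mul]
    refine Finset.sum_congr rfl (fun x _ => ?_)
    ring
  rw [tsum_congr h8, Summable.tsum_finsetSum (fun x _ => hs x), Finset.mul_sum]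
  refine Finset.sum_congr rfl (fun x _ => ?_)
  rw [tsum_mul_left]
  ring

end Pool.Agent.CMT
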