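import Mathlib
import Pool.Agent.Lib.CMT.A.GenJ1
import Pool.Agent.Lib.CMT.A.JOne

/-! CMT part A (helper31): the theta functions of level `N` under the partial inversion `Jp i`:
`PG N (8 N²)`. -/

open Complex Real Matrix

namespace Pool.Agent.CMT.A

set_option linter.unusedSectionVars false

variable {ι : Type*} [Fintype ι] [DecidableEq ι]

/-- the Fourier transform in the coordinate `i` -/
noncomputable def LJ (N : ℕ) [NeZero N] (i : ι) :
    ((ι → ZMod (N ^ 2)) → ℂ) →ₗ[ℂ] ((ι → ZMod (N ^ 2)) → ℂ) where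
  toFun φ := fun v => (N : ℂ)⁻¹ * ZMod.dft (fun r => φ (Function.update v i r)) (v i)
  map_add' φ ψ := by
    funext v
    have h : (fun r => (φ + ψ) (Function.update v i r)) =
      (fun r => φ (Function.update v i r)) + (fun r => ψ (Function.update v i r)) := rfl
    rw [h, map_add]
    simp only [Pi.add_apply]
    ring
  map_smul' c φ := by
    funext v
    have h : (fun r => (c • φ) (Function.update v i r)) =
      c • (fun r => φ (Function.update v i r)) := rfl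
    rw [h, map_smul]
    simp only [Pi.smul_apply, smul_eq_mul, RingHom.id_apply]
    ring

theorem LJ_apply (N : ℕ) [NeZero N] (i : ι) (φ : (ι → ZMod (N ^ 2)) → ℂ) (v : ι → ZMod (N ^ 2)) :
    LJ N i φ v = (N : ℂ)⁻¹ * ZMod.dft (fun r => φ (Function.update v i r)) (v i) := rfl

theorem LJ_LJ (N : ℕ) [NeZero N] (i : ι) (φ : (ι → ZMod (N ^ 2)) → ℂ) (v : ι → ZMod (N ^ 2)) :
    LJ N i (LJ N i φ) v = φ (Function.update v i (-(v i))) := by
  have hN : (N : ℂ) ≠ 0 := by exact_mod_cast NeZero.ne N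
  rw [LJ_apply]
  have h1 : (fun r => LJ N i φ (Function.update v i r)) =
      (N : ℂ)⁻¹ • (ZMod.dft (fun r => φ (Function.update v i r))) := by
    funext r
    rw [LJ_apply]
    simp only [Function.update_idem, Function.update_self, Pi.smul_apply, smul_eq_mul]
  rw [h1, map_smul, ZMod.dft_dft]
  simp only [Pi.smul_apply, smul_eq_mul]
  push_cast
  field_simp

theorem LJ_four (N : ℕ) [NeZero N] (i : ι) : LJ (ι := ι) N i ^ 4 = 1 := by
  apply LinearMap.ext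
  intro φ
  funext v
  have h : (LJ N i ^ 4) φ = LJ N i (LJ N i (LJ N i (LJ N i φ))) := rfl
  rw [h, LJ_LJ, LJ_LJ]
  simp

theorem det_LJ (N : ℕ) [NeZero N] (i : ι) :
    (LinearMap.toMatrix' (LJ (ι := ι) N i)).det ^ (8 * N ^ 2) = 1 := by
  have h : (LinearMap.toMatrix' (LJ (ι := ι) N i)).det ^ 4 = 1 := by
    rw [← Matrix.det_pow]
    have : (LinearMap.toMatrix' (LJ (ι := ι) N i)) ^ 4 =
        LinearMap.toMatrix' (LJ (ι := ι) N i ^ 4) := by
      have := map_pow (LinearMap.toMatrixAlgEquiv' (R := ℂ) (n := ι → ZMod (N ^ 2)))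
        (LJ (ι := ι) N i) 4
      exact this.symm
    rw [this, LJ_four]
    have h2 : LinearMap.toMatrix' (1 : ((ι → ZMod (N ^ 2)) → ℂ) →ₗ[ℂ] ((ι → ZMod (N ^ 2)) → ℂ)) = 1 :=
      LinearMap.toMatrix'_one
    rw [h2, Matrix.det_one]
  rw [show 8 * N ^ 2 = 4 * (2 * N ^ 2) by ring, pow_mul, h, one_pow]

theorem F1_neg (N : ℕ) [NeZero N] (ψ : ZMod (N ^ 2) → ℂ) (k : ZMod (N ^ 2)) :
    Pool.Agent.CMT.F1 N ψ (-k) = (N : ℂ)⁻¹ * ZMod.dft ψ k := by
  unfold Pool.Agent.CMT.F1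
  rw [ZMod.dft_apply]
  congr 1
  refine Finset.sum_congr rfl (fun r _ => ?_)
  rw [smul_eq_mul, mul_neg, mul_comm]

/-- splitting a sum over `ℤ ^ ι` along the coordinate `i` -/
theorem tsum_split (i : ι) {f : (ι → ℤ) → ℂ} (hf : Summable f) :
    ∑' m, f m = ∑' b : {j // j ≠ i} → ℤ, ∑' n : ℤ,
      f (Function.update ((Equiv.funSplitAt i ℤ).symm (0, b)) i n) := by
  rw [← (Equiv.funSplitAt i ℤ).symm.tsum_eq]
  have hf' := (Equiv.funSplitAt i ℤ).symm.summable_iff.2 hf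
  rw [← (Equiv.prodComm _ _).tsum_eq]
  have hf'' := (Equiv.prodComm ({j // j ≠ i} → ℤ) ℤ).summable_iff.2 hf'
  refine (hf''.tsum_prod).trans ?_
  refine tsum_congr (fun b => tsum_congr (fun n => ?_))
  simp only [Function.comp_apply, Equiv.prodComm_apply, Prod.swap_prod_mk]
  congr 1
  funext j
  by_cases hj : j = i
  · subst hj
    simp [Equiv.funSplitAt, Equiv.piSplitAt]
  · simp [Equiv.funSplitAt, Equiv.piSplitAt, hj]

theorem base_apply (i : ι) (b : {j // j ≠ i} → ℤ) : (Equiv.funSplitAt i ℤ).symm (0, b) i = 0 := by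
  simp [Equiv.funSplitAt, Equiv.piSplitAt]

theorem iv_update (m : ι → ℤ) (i : ι) (hm : m i = 0) (n : ℤ) :
    iv (Function.update m i n) = iv m + (n : ℂ) • eu i := by
  funext k
  by_cases hk : k = i
  · subst hk
    simp [iv, eu, hm]
  · simp [iv, eu, hk]

theorem zv_update (N : ℕ) (m : ι → ℤ) (i : ι) (n : ℤ) :
    zv N (Function.update m i n) = Function.update (zv N m) i (n : ZMod (N ^ 2)) := by
  funext k
  by_cases hk : k = i
  · subst hk
    simp [zv]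
  · simp [zv, hk]

theorem tmg_ZJ (N : ℕ) [NeZero N] {Z : Matrix ι ι ℂ} (hZ : Zᵀ = Z) (i : ι) (hτ : Z i i ≠ 0)
    (w : ι → ℂ) (m : ι → ℤ) (hm : m i = 0) (n : ℤ) :
    tmg N (ZJ Z i) (AJ Z i *ᵥ w) (Function.update m i n) =
      cexp (π * I * (iv m ⬝ᵥ Z *ᵥ iv m - (Z i i)⁻¹ * (Z *ᵥ iv m) i ^ 2) / (N : ℂ) ^ 2 +
        2 * π * I * (iv m ⬝ᵥ w - (Z i i)⁻¹ * w i * (Z *ᵥ iv m) i) / N) *
      Pool.Agent.CMT.tm1 N (-1 / Z i i) (((Z *ᵥ iv m) i / N + w i) / Z i i) n := by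
  have hN : (N : ℂ) ≠ 0 := by exact_mod_cast NeZero.ne N
  have hy : iv m i = 0 := by simp [iv, hm]
  have e1 : (iv m + (n : ℂ) • eu i) ⬝ᵥ w = iv m ⬝ᵥ w + n * w i := by
    rw [add_dotProduct, smul_dotProduct, eu_dot, smul_eq_mul]
  unfold tmg Pool.Agent.CMT.tm1
  rw [← Complex.exp_add, iv_update m i hm, quad_ZJ_add hZ i hτ _ hy, AJ_mulVec, dotProduct_sub,
    dotProduct_smul, dotProduct_comm _ (pJ Z i), pJ_add hZ i _ hy, e1]
  congr 1
  simp only [smul_eq_mul]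
  field_simp
  ring

theorem tmg_Z (N : ℕ) [NeZero N] {Z : Matrix ι ι ℂ} (hZ : Zᵀ = Z) (i : ι)
    (w : ι → ℂ) (m : ι → ℤ) (hm : m i = 0) (n : ℤ) :
    tmg N Z w (Function.update m i n) =
      cexp (π * I * (iv m ⬝ᵥ Z *ᵥ iv m) / (N : ℂ) ^ 2 + 2 * π * I * (iv m ⬝ᵥ w) / N) *
      Pool.Agent.CMT.tm1 N (Z i i) ((Z *ᵥ iv m) i / N + w i) n := by
  have hN : (N : ℂ) ≠ 0 := by exact_mod_cast NeZero.ne N
  have e1 : (iv m + (n : ℂ) • eu i) ⬝ᵥ w = iv m ⬝ᵥ w + n * w i := by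
    rw [add_dotProduct, smul_dotProduct, eu_dot, smul_eq_mul]
  unfold tmg Pool.Agent.CMT.tm1
  rw [← Complex.exp_add, iv_update m i hm, quad_add hZ i, e1]
  congr 1
  field_simp
  ring

/-- the constant -/
noncomputable def cJ (τ : ℂ) : ℂ := 1 / (-I * (-1 / τ)) ^ (1 / 2 : ℂ)

theorem cJ_sq {τ : ℂ} (hτ : τ ≠ 0) : cJ τ ^ 2 = -I * τ := by
  unfold cJ
  rw [div_pow, one_pow, ← Complex.cpow_nat_mul]
  have : ((2 : ℕ) : ℂ) * (1 / 2) = 1 := by norm_num
  rw [this, Complex.cpow_one]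
  field_simp
  rw [Complex.I_sq]
  norm_num

theorem im_neg_inv_pos {τ : ℂ} (h : 0 < τ.im) : 0 < (-1 / τ).im := by
  have h0 : τ ≠ 0 := by
    rintro rfl
    simp at h
  rw [neg_div, Complex.neg_im, one_div, Complex.inv_im, neg_div, neg_neg]
  exact div_pos h (Complex.normSq_pos.2 h0)

theorem tm1_neg (N : ℕ) (z w : ℂ) (n : ℤ) :
    Pool.Agent.CMT.tm1 N z (-w) (-n) = Pool.Agent.CMT.tm1 N z w n := by
  unfold Pool.Agent.CMT.tm1
  congr 1
  push_cast
  ring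

theorem th_J (N : ℕ) [NeZero N] {Z : Matrix ι ι ℂ} (hZ : IsH Z) (i : ι)
    (φ : (ι → ZMod (N ^ 2)) → ℂ) (w : ι → ℂ) :
    th N φ (ZJ Z i) (AJ Z i *ᵥ w) =
      cJ (Z i i) * cexp (π * I * (w i ^ 2 / Z i i)) * th N (LJ N i φ) Z w := by
  have hN : (N : ℂ) ≠ 0 := by exact_mod_cast NeZero.ne N
  have hτ := diag_im_pos hZ i
  have hτ0 : Z i i ≠ 0 := by
    intro h
    rw [h] at hτ
    simp at hτ
  unfold th
  rw [tsum_split i (summable_th N φ (ZJ Z i) _ (isH_ZJ hZ i)),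
    tsum_split i (summable_th N (LJ N i φ) Z w hZ), ← tsum_mul_left]
  refine tsum_congr (fun b => ?_)
  set m := (Equiv.funSplitAt i ℤ).symm (0, b) with hm
  have hm0 : m i = 0 := base_apply i b
  set s := (Z *ᵥ iv m) i with hs
  set K := cexp (π * I * (iv m ⬝ᵥ Z *ᵥ iv m - (Z i i)⁻¹ * s ^ 2) / (N : ℂ) ^ 2 +
        2 * π * I * (iv m ⬝ᵥ w - (Z i i)⁻¹ * w i * s) / N) with hK
  set K' := cexp (π * I * (iv m ⬝ᵥ Z *ᵥ iv m) / (N : ℂ) ^ 2 + 2 * π * I * (iv m ⬝ᵥ w) / N)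
    with hK'
  set ψ : ZMod (N ^ 2) → ℂ := fun r => φ (Function.update (zv N m) i r) with hψ
  have h1 : ∑' n : ℤ, φ (zv N (Function.update m i n)) *
      tmg N (ZJ Z i) (AJ Z i *ᵥ w) (Function.update m i n) =
      K * ∑' n : ℤ, ψ n * Pool.Agent.CMT.tm1 N (-1 / Z i i) ((s / N + w i) / Z i i) n := by
    rw [← tsum_mul_left]
    refine tsum_congr (fun n => ?_)
    rw [tmg_ZJ N hZ.1 i hτ0 w m hm0 n, zv_update]
    ring
  have h2 : ∑' n : ℤ, LJ N i φ (zv N (Function.update m i n)) *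
      tmg N Z w (Function.update m i n) =
      K' * ∑' n : ℤ, Pool.Agent.CMT.F1 N ψ (((-n : ℤ) : ZMod (N ^ 2))) *
        Pool.Agent.CMT.tm1 N (Z i i) (s / N + w i) n := by
    rw [← tsum_mul_left]
    refine tsum_congr (fun n => ?_)
    rw [tmg_Z N hZ.1 i w m hm0 n, zv_update, LJ_apply]
    push_cast
    rw [F1_neg]
    simp only [Function.update_idem, Function.update_self]
    ring
  have h3 := Pool.Agent.CMT.tJOne N ψ (-1 / Z i i) ((s / N + w i) / Z i i) (im_neg_inv_pos hτ)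
  have h4 : -1 / (-1 / Z i i) = Z i i := by field_simp
  have h5 : (s / N + w i) / Z i i / (-1 / Z i i) = -(s / N + w i) := by
    field_simp
  have h6 : ∑' n : ℤ, Pool.Agent.CMT.F1 N ψ (((-n : ℤ) : ZMod (N ^ 2))) *
        Pool.Agent.CMT.tm1 N (Z i i) (s / N + w i) n =
      ∑' n : ℤ, Pool.Agent.CMT.F1 N ψ (n : ZMod (N ^ 2)) *
        Pool.Agent.CMT.tm1 N (Z i i) (-(s / N + w i)) n := by
    rw [← (Equiv.neg ℤ).tsum_eq]
    refine tsum_congr (fun n => ?_)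
    simp only [Equiv.neg_apply]
    rw [neg_neg, ← tm1_neg N (Z i i) (-(s / N + w i)), neg_neg]
  have h7 : K * cexp (-π * I * ((s / N + w i) / Z i i) ^ 2 / (-1 / Z i i)) =
      cexp (π * I * (w i ^ 2 / Z i i)) * K' := by
    rw [hK, hK', ← Complex.exp_add, ← Complex.exp_add]
    congr 1
    field_simp
    ring
  rw [h1, h2, h6, h3, h4, h5]
  have h8 : ∀ T : ℂ, K * (1 / (-I * (-1 / Z i i)) ^ (1 / 2 : ℂ) *
      cexp (-π * I * ((s / N + w i) / Z i i) ^ 2 / (-1 / Z i i)) * T) =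
      cJ (Z i i) * (K * cexp (-π * I * ((s / N + w i) / Z i i) ^ 2 / (-1 / Z i i))) * T := by
    intro T
    unfold cJ
    ring
  rw [h8, h7]
  ring

theorem E_map (i : ι) : ((single i i (1 : ℤ) : Matrix ι ι ℤ)).map (Int.cast : ℤ → ℂ) =
    vecMulVec (eu i) (eu i) := by
  ext k l
  simp only [Matrix.map_apply, vecMulVec_apply, eu, Matrix.single_apply, Pi.single_apply]
  by_cases h1 : i = k
  · by_cases h2 : i = l
    · simp [h1.symm, h2.symm]
    · simp [h1.symm, h2, Ne.symm h2]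
  · simp [h1, Ne.symm h1]

theorem rel_J {Z : Matrix ι ι ℂ} (hZ : IsH Z) (i : ι) :
    Rel (Pool.Agent.Lib.CMT.Jp i) Z (ZJ Z i) (AJ Z i) := by
  have hτ := diag_im_pos hZ i
  have hτ0 : Z i i ≠ 0 := by
    intro h
    rw [h] at hτ
    simp at hτ
  have h1 : (1 : Matrix ι ι ℤ).map (Int.cast : ℤ → ℂ) = 1 :=
    Matrix.map_one _ Int.cast_zero Int.cast_one
  have h2 : (1 - single i i (1 : ℤ) : Matrix ι ι ℤ).map (Int.cast : ℤ → ℂ) =
      1 - vecMulVec (eu i) (eu i) := by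
    rw [← E_map, ← h1]
    ext k l
    simp only [Matrix.map_apply, Matrix.sub_apply, Int.cast_sub]
  have h3 : (-single i i (1 : ℤ) : Matrix ι ι ℤ).map (Int.cast : ℤ → ℂ) =
      -vecMulVec (eu i) (eu i) := by
    rw [← E_map]
    ext k l
    simp
  -- column `i` of `Z'`
  have h4 : ZJ Z i *ᵥ eu i = (Z i i)⁻¹ • pJ Z i - eu i := by
    rw [ZJ_mulVec, pJ_dot hZ.1, pJ_eq]
    have e1 : (Z *ᵥ eu i) i = Z i i := by simp [eu]
    have e2 : eu i i = 1 := by simp [eu]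
    rw [e1, e2]
    funext k
    simp only [Pi.sub_apply, Pi.smul_apply, smul_eq_mul]
    field_simp
    ring
  have h5 : eu i ᵥ* Z = Z *ᵥ eu i := by
    rw [← Matrix.mulVec_transpose, hZ.1]
  unfold Rel
  simp only [Pool.Agent.Lib.CMT.Jp, al, be, ga, de, toBlocks_fromBlocks₁₁, toBlocks_fromBlocks₁₂,
    toBlocks_fromBlocks₂₁, toBlocks_fromBlocks₂₂, h2, h3, E_map]
  constructor
  · rw [Matrix.mul_neg, mul_vecMulVec, h4]
    unfold AJ
    ext k l
    simp only [Matrix.add_apply, Matrix.neg_apply, Matrix.sub_apply, Matrix.smul_apply,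
      vecMulVec_apply, Pi.sub_apply, Pi.smul_apply, smul_eq_mul]
    ring
  · rw [Matrix.mul_sub, Matrix.mul_one, mul_vecMulVec, h4]
    unfold AJ
    rw [Matrix.sub_mul, Matrix.one_mul, Matrix.smul_mul, vecMulVec_mul, h5]
    unfold ZJ
    ext k l
    have h6 : (Z *ᵥ eu i) l = pJ Z i l + eu i l := by
      rw [pJ_eq]
      simp
    simp only [Matrix.add_apply, Matrix.sub_apply, Matrix.smul_apply,
      vecMulVec_apply, Pi.sub_apply, Pi.smul_apply, smul_eq_mul, h6]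
    ring

theorem S_J (N : ℕ) [NeZero N] (i : ι) : PG N (8 * N ^ 2) (Pool.Agent.Lib.CMT.Jp i) := by
  refine ⟨LinearMap.toMatrix' (LJ N i), det_LJ N i, fun Z hZ => ⟨ZJ Z i, AJ Z i, cJ (Z i i),
    isH_ZJ hZ i, rel_J hZ i, ?_, fun φ w => ?_⟩⟩
  · have hτ := diag_im_pos hZ i
    have hτ0 : Z i i ≠ 0 := by
      intro h
      rw [h] at hτ
      simp at hτ
    rw [cJ_sq hτ0, det_AJ i hτ0, mul_assoc, mul_inv_cancel₀ hτ0, mul_one,
      show 8 * N ^ 2 = 4 * (2 * N ^ 2) by ring, pow_mul]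
    have : (-I) ^ 4 = 1 := by
      rw [neg_pow, Complex.I_pow_four]; norm_num
    rw [this, one_pow]
  · have h3 : be (Pool.Agent.Lib.CMT.Jp i) = -vecMulVec (eu i) (eu i) := by
      simp only [Pool.Agent.Lib.CMT.Jp, be, toBlocks_fromBlocks₁₂]
      rw [← E_map]
      ext k l
      simp
    have hτ := diag_im_pos hZ i
    have hτ0 : Z i i ≠ 0 := by
      intro h
      rw [h] at hτ
      simp at hτ
    rw [h3, Matrix.neg_mulVec, vmv, eu_dot, dotProduct_neg, dotProduct_smul, dot_eu, AJ_mulVec]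
    have e : (w - ((Z i i)⁻¹ * w i) • pJ Z i) i = w i / Z i i := by
      simp only [Pi.sub_apply, Pi.smul_apply, smul_eq_mul, pJ, eu, Pi.single_eq_same]
      field_simp
      ring
    rw [e, LinearMap.toMatrix'_mulVec, ← AJ_mulVec, th_J N hZ i φ w]
    congr 3
    simp only [smul_eq_mul]
    ring

end Pool.Agent.CMT.A
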