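import Mathlib
import Pool.Agent.Lib.CMT.A.Sum

/-! CMT part A (helper31): the theta functions of level `N` under `fromBlocks u 0 0 v`
(`u * vᵀ = 1`) : `PG N (8 N²)`. -/

open Complex Real Matrix

namespace Pool.Agent.CMT.A

set_option linter.unusedSectionVars false

variable {ι : Type*} [Fintype ι] [DecidableEq ι]

theorem iv_mulVec (u : Matrix ι ι ℤ) (m : ι → ℤ) :
    iv (u *ᵥ m) = u.map (Int.cast : ℤ → ℂ) *ᵥ iv m := by
  funext i
  simp [iv, Matrix.mulVec, dotProduct]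

theorem zv_mulVec (N : ℕ) (u : Matrix ι ι ℤ) (m : ι → ℤ) :
    zv N (u *ᵥ m) = u.map (Int.cast : ℤ → ZMod (N ^ 2)) *ᵥ zv N m := by
  funext i
  simp [zv, Matrix.mulVec, dotProduct]

theorem map_mul_cast {R : Type*} [CommRing R] (u v : Matrix ι ι ℤ) :
    (u * v).map (Int.cast : ℤ → R) = u.map (Int.cast : ℤ → R) * v.map (Int.cast : ℤ → R) :=
  Matrix.map_mul (f := Int.castRingHom R)

theorem map_one_cast {R : Type*} [CommRing R] :
    (1 : Matrix ι ι ℤ).map (Int.cast : ℤ → R) = 1 :=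
  Matrix.map_one _ Int.cast_zero Int.cast_one

theorem det_map_cast (u : Matrix ι ι ℤ) :
    (u.map (Int.cast : ℤ → ℂ)).det = ((u.det : ℤ) : ℂ) :=
  (Int.castRingHom ℂ).map_det u |>.symm

/-- the bijection `m ↦ u m` -/
def mulVecEquiv {R : Type*} [CommRing R] (u u' : Matrix ι ι R) (h : u * u' = 1) (h' : u' * u = 1) :
    (ι → R) ≃ (ι → R) where
  toFun := fun x => u *ᵥ x
  invFun := fun x => u' *ᵥ x
  left_inv := fun x => by
    change u' *ᵥ (u *ᵥ x) = x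
    rw [Matrix.mulVec_mulVec, h', Matrix.one_mulVec]
  right_inv := fun x => by
    change u *ᵥ (u' *ᵥ x) = x
    rw [Matrix.mulVec_mulVec, h, Matrix.one_mulVec]

theorem isH_conj {Z : Matrix ι ι ℂ} (hZ : IsH Z) {u v : Matrix ι ι ℤ} (huv : u * vᵀ = 1) :
    IsH (v.map (Int.cast : ℤ → ℂ) * Z * (v.map (Int.cast : ℤ → ℂ))ᵀ) := by
  refine ⟨?_, fun x hx => ?_⟩
  · rw [Matrix.transpose_mul, Matrix.transpose_mul, Matrix.transpose_transpose, hZ.1,
      Matrix.mul_assoc]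
  · set y : ι → ℝ := (v.map (Int.cast : ℤ → ℝ))ᵀ *ᵥ x with hy
    have hy0 : y ≠ 0 := by
      intro h0
      apply hx
      have h1 : (u.map (Int.cast : ℤ → ℝ)) * (v.map (Int.cast : ℤ → ℝ))ᵀ = 1 := by
        rw [← Matrix.transpose_map, ← map_mul_cast, huv, map_one_cast]
      rw [← Matrix.one_mulVec x, ← h1, ← Matrix.mulVec_mulVec, ← hy, h0, Matrix.mulVec_zero]
    have h2 := hZ.2 y hy0
    have h3 : (v.map (Int.cast : ℤ → ℂ) * Z * (v.map (Int.cast : ℤ → ℂ))ᵀ).map Complex.im =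
        v.map (Int.cast : ℤ → ℝ) * Z.map Complex.im * (v.map (Int.cast : ℤ → ℝ))ᵀ := by
      ext i j
      simp only [Matrix.map_apply, Matrix.mul_apply, Matrix.transpose_apply, Complex.im_sum]
      refine Finset.sum_congr rfl (fun k _ => ?_)
      rw [show ((v j k : ℤ) : ℂ) = (((v j k : ℤ) : ℝ) : ℂ) by push_cast; rfl,
        Complex.im_mul_ofReal, Complex.im_sum]
      congr 1
      refine Finset.sum_congr rfl (fun l _ => ?_)
      rw [show ((v i l : ℤ) : ℂ) = (((v i l : ℤ) : ℝ) : ℂ) by push_cast; rfl,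
        Complex.im_ofReal_mul]
    rw [h3, ← Matrix.mulVec_mulVec, ← Matrix.mulVec_mulVec, Matrix.dotProduct_mulVec,
      ← Matrix.mulVec_transpose, ← hy]
    exact h2

theorem tmg_conj (N : ℕ) (Z : Matrix ι ι ℂ) {u v : Matrix ι ι ℤ} (huv : u * vᵀ = 1)
    (w : ι → ℂ) (m : ι → ℤ) :
    tmg N (v.map (Int.cast : ℤ → ℂ) * Z * (v.map (Int.cast : ℤ → ℂ))ᵀ)
      (v.map (Int.cast : ℤ → ℂ) *ᵥ w) (u *ᵥ m) = tmg N Z w m := by
  have h1 : (v.map (Int.cast : ℤ → ℂ))ᵀ * (u.map (Int.cast : ℤ → ℂ)) = 1 := by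
    have : vᵀ * u = 1 := mul_eq_one_comm.1 huv
    rw [← Matrix.transpose_map, ← map_mul_cast, this, map_one_cast]
  have h2 : (v.map (Int.cast : ℤ → ℂ))ᵀ *ᵥ (iv (u *ᵥ m)) = iv m := by
    rw [iv_mulVec, Matrix.mulVec_mulVec, h1, Matrix.one_mulVec]
  unfold tmg
  congr 2
  · rw [← Matrix.mulVec_mulVec, ← Matrix.mulVec_mulVec, Matrix.dotProduct_mulVec,
      ← Matrix.mulVec_transpose, h2]
  · rw [Matrix.dotProduct_mulVec, ← Matrix.mulVec_transpose, h2]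

theorem S_M (N : ℕ) [NeZero N] (u v : Matrix ι ι ℤ) (huv : u * vᵀ = 1) :
    PG N (8 * N ^ 2) (fromBlocks u 0 0 v) := by
  have : NeZero (N ^ 2) := ⟨pow_ne_zero _ (NeZero.ne N)⟩
  have hvu : vᵀ * u = 1 := mul_eq_one_comm.1 huv
  have e1 : (u.map (Int.cast : ℤ → ZMod (N ^ 2))) * (vᵀ.map (Int.cast : ℤ → ZMod (N ^ 2))) = 1 := by
    rw [← map_mul_cast, huv, map_one_cast]
  have e2 : (vᵀ.map (Int.cast : ℤ → ZMod (N ^ 2))) * (u.map (Int.cast : ℤ → ZMod (N ^ 2))) = 1 := by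
    rw [← map_mul_cast, hvu, map_one_cast]
  set σ : Equiv.Perm (ι → ZMod (N ^ 2)) := mulVecEquiv _ _ e1 e2 with hσ
  set σZ : Equiv.Perm (ι → ℤ) := mulVecEquiv _ _ huv hvu with hσZ
  refine ⟨σ.toPEquiv.toMatrix, ?_, fun Z hZ => ⟨v.map (Int.cast : ℤ → ℂ) * Z *
    (v.map (Int.cast : ℤ → ℂ))ᵀ, v.map (Int.cast : ℤ → ℂ), 1, isH_conj hZ huv, ?_, ?_, ?_⟩⟩
  · have h1 : (σ.toPEquiv.toMatrix : Matrix (ι → ZMod (N ^ 2)) (ι → ZMod (N ^ 2)) ℂ).det =
        ((Equiv.Perm.sign σ : ℤ) : ℂ) := Matrix.det_permutation σ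
    have h2 : (((Equiv.Perm.sign σ : ℤ) : ℂ)) ^ 2 = 1 := by
      rcases Int.units_eq_one_or (Equiv.Perm.sign σ) with h | h <;> rw [h] <;> simp
    rw [h1, show 8 * N ^ 2 = 2 * (4 * N ^ 2) by ring, pow_mul, h2, one_pow]
  · unfold Rel
    simp only [al, be, ga, de, toBlocks_fromBlocks₁₁, toBlocks_fromBlocks₁₂,
      toBlocks_fromBlocks₂₁, toBlocks_fromBlocks₂₂]
    have h0 : (0 : Matrix ι ι ℤ).map (Int.cast : ℤ → ℂ) = 0 := Matrix.map_zero _ Int.cast_zero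
    rw [h0, Matrix.mul_zero, zero_add, add_zero]
    refine ⟨rfl, ?_⟩
    rw [Matrix.mul_assoc, ← Matrix.transpose_map, ← map_mul_cast, hvu, map_one_cast,
      Matrix.mul_one]
  · have h1 : (v.map (Int.cast : ℤ → ℂ)).det ^ 2 = 1 := by
      rw [det_map_cast]
      have h3 : u.det * v.det = 1 := by
        have := congrArg Matrix.det huv
        rwa [Matrix.det_mul, Matrix.det_transpose, Matrix.det_one] at this
      have h4 : v.det ^ 2 = 1 := by
        rcases Int.isUnit_iff.1 (IsUnit.of_mul_eq_one_right _ h3) with h | h <;> rw [h] <;> norm_num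
      exact_mod_cast h4
    rw [one_pow, one_mul, show 8 * N ^ 2 = 2 * (4 * N ^ 2) by ring, pow_mul, h1, one_pow]
  · intro φ w
    have h0 : be (fromBlocks u 0 0 v) = 0 := by
      simp only [be, toBlocks_fromBlocks₁₂]
      exact Matrix.map_zero _ Int.cast_zero
    rw [h0, Matrix.zero_mulVec, dotProduct_zero, mul_zero, neg_zero, Complex.exp_zero, one_mul,
      one_mul]
    unfold th
    rw [← σZ.tsum_eq]
    refine tsum_congr (fun m => ?_)
    have h5 : σZ m = u *ᵥ m := rfl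
    rw [h5, tmg_conj N Z huv, PEquiv.toMatrix_toPEquiv_mulVec]
    congr 1
    simp only [Function.comp_apply]
    congr 1
    exact zv_mulVec N u m

end Pool.Agent.CMT.A
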