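import Mathlib
import Pool.Agent.Lib.CMT.A.Sum

/-! CMT part A (helper31): the theta functions of level `N`, `N` even, under
`fromBlocks 1 0 c 1` (`c` symmetric): `PG N (8 N²)`. -/

open Complex Real Matrix

namespace Pool.Agent.CMT.A

set_option linter.unusedSectionVars false

variable {ι : Type*} [Fintype ι] [DecidableEq ι]

/-- lift of a residue vector -/
def lft (N : ℕ) (v : ι → ZMod (N ^ 2)) : ι → ℤ := fun i => (v i).cast

theorem iv_quad (c : Matrix ι ι ℤ) (m : ι → ℤ) :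
    iv m ⬝ᵥ (c.map (Int.cast : ℤ → ℂ)) *ᵥ iv m = ((m ⬝ᵥ c *ᵥ m : ℤ) : ℂ) := by
  simp [iv, Matrix.mulVec, dotProduct]

theorem exists_lft (N : ℕ) [NeZero N] (m : ι → ℤ) :
    ∃ k : ι → ℤ, m = lft N (zv N m) + ((N : ℤ) ^ 2) • k := by
  have h : ∀ i, ∃ k : ℤ, m i = lft N (zv N m) i + (N : ℤ) ^ 2 * k := by
    intro i
    have h1 : ((lft N (zv N m) i : ℤ) : ZMod (N ^ 2)) = ((m i : ℤ) : ZMod (N ^ 2)) := by
      simp [lft, zv]
    rw [ZMod.intCast_eq_intCast_iff_dvd_sub] at h1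
    obtain ⟨k, hk⟩ := h1
    refine ⟨k, ?_⟩
    push_cast at hk
    linarith
  choose k hk using h
  exact ⟨k, funext (fun i => by simpa using hk i)⟩

/-- the quadratic character attached to `c` -/
noncomputable def chq (N : ℕ) (c : Matrix ι ι ℤ) (v : ι → ZMod (N ^ 2)) : ℂ :=
  cexp (-(π * I * ((lft N v ⬝ᵥ c *ᵥ lft N v : ℤ) : ℂ) / (N : ℂ) ^ 2))

theorem chq_zv (N : ℕ) [NeZero N] (hN : Even N) {c : Matrix ι ι ℤ} (hc : cᵀ = c) (m : ι → ℤ) :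
    chq N c (zv N m) = cexp (-(π * I * ((m ⬝ᵥ c *ᵥ m : ℤ) : ℂ) / (N : ℂ) ^ 2)) := by
  obtain ⟨k, hk⟩ := exists_lft N m
  obtain ⟨t, ht⟩ := hN
  set l := lft N (zv N m) with hl
  have h1 : k ⬝ᵥ c *ᵥ l = l ⬝ᵥ c *ᵥ k := by
    rw [Matrix.dotProduct_mulVec, ← Matrix.mulVec_transpose, hc, dotProduct_comm]
  have h2 : m ⬝ᵥ c *ᵥ m = l ⬝ᵥ c *ᵥ l + (N : ℤ) ^ 2 * (2 * (k ⬝ᵥ c *ᵥ l)) +
      (N : ℤ) ^ 4 * (k ⬝ᵥ c *ᵥ k) := by
    rw [hk, Matrix.mulVec_add, Matrix.mulVec_smul, add_dotProduct, dotProduct_add, dotProduct_add,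
      smul_dotProduct, smul_dotProduct, dotProduct_smul, dotProduct_smul, ← h1]
    simp only [smul_eq_mul]
    ring
  have hN0 : (N : ℂ) ≠ 0 := by exact_mod_cast NeZero.ne N
  have hNt : (N : ℂ) ^ 2 = 4 * (t : ℂ) ^ 2 := by
    rw [ht]
    push_cast
    ring
  have h3 : -(π * I * ((m ⬝ᵥ c *ᵥ m : ℤ) : ℂ) / (N : ℂ) ^ 2) =
      -(π * I * ((l ⬝ᵥ c *ᵥ l : ℤ) : ℂ) / (N : ℂ) ^ 2) +
        ((-(k ⬝ᵥ c *ᵥ l) - 2 * (t : ℤ) ^ 2 * (k ⬝ᵥ c *ᵥ k) : ℤ) : ℂ) * (2 * π * I) := by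
    rw [h2]
    push_cast
    have e4 : (N : ℂ) ^ 4 = (N : ℂ) ^ 2 * (4 * (t : ℂ) ^ 2) := by
      rw [← hNt]; ring
    rw [e4]
    field_simp
    ring
  unfold chq
  rw [h3, Complex.exp_add, Complex.exp_int_mul_two_pi_mul_I, mul_one, ← hl]

theorem chq_pow (N : ℕ) [NeZero N] (c : Matrix ι ι ℤ) (v : ι → ZMod (N ^ 2)) :
    chq N c v ^ (8 * N ^ 2) = 1 := by
  have hN0 : (N : ℂ) ≠ 0 := by exact_mod_cast NeZero.ne N
  unfold chq
  rw [← Complex.exp_nat_mul]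
  have : ((8 * N ^ 2 : ℕ) : ℂ) * -(π * I * ((lft N v ⬝ᵥ c *ᵥ lft N v : ℤ) : ℂ) / (N : ℂ) ^ 2) =
      ((-4 * (lft N v ⬝ᵥ c *ᵥ lft N v) : ℤ) : ℂ) * (2 * π * I) := by
    push_cast
    field_simp
    ring
  rw [this, Complex.exp_int_mul_two_pi_mul_I]

theorem isH_sub {Z : Matrix ι ι ℂ} (hZ : IsH Z) {c : Matrix ι ι ℤ} (hc : cᵀ = c) :
    IsH (Z - c.map (Int.cast : ℤ → ℂ)) := by
  refine ⟨?_, fun x hx => ?_⟩
  · rw [Matrix.transpose_sub, hZ.1, ← Matrix.transpose_map, hc]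
  · have : (Z - c.map (Int.cast : ℤ → ℂ)).map Complex.im = Z.map Complex.im := by
      ext i j
      simp
    rw [this]
    exact hZ.2 x hx

theorem S_T (N : ℕ) [NeZero N] (hN : Even N) (c : Matrix ι ι ℤ) (hc : cᵀ = c) :
    PG N (8 * N ^ 2) (fromBlocks 1 0 c 1) := by
  have : NeZero (N ^ 2) := ⟨pow_ne_zero _ (NeZero.ne N)⟩
  refine ⟨Matrix.diagonal (chq N c), ?_, fun Z hZ => ⟨Z - c.map (Int.cast : ℤ → ℂ), 1, 1,
    isH_sub hZ hc, ?_, ?_, ?_⟩⟩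
  · rw [Matrix.det_diagonal, ← Finset.prod_pow]
    exact Finset.prod_eq_one (fun v _ => chq_pow N c v)
  · unfold Rel
    simp only [al, be, ga, de, toBlocks_fromBlocks₁₁, toBlocks_fromBlocks₁₂,
      toBlocks_fromBlocks₂₁, toBlocks_fromBlocks₂₂]
    have h0 : (0 : Matrix ι ι ℤ).map (Int.cast : ℤ → ℂ) = 0 := Matrix.map_zero _ Int.cast_zero
    have h1 : (1 : Matrix ι ι ℤ).map (Int.cast : ℤ → ℂ) = 1 :=
      Matrix.map_one _ Int.cast_zero Int.cast_one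
    rw [h0, h1, Matrix.mul_zero, zero_add, Matrix.mul_one, Matrix.one_mul]
    exact ⟨rfl, sub_add_cancel _ _⟩
  · rw [one_pow, one_mul, Matrix.det_one, one_pow]
  · intro φ w
    have h0 : be (fromBlocks 1 0 c 1) = 0 := by
      simp only [be, toBlocks_fromBlocks₁₂]
      exact Matrix.map_zero _ Int.cast_zero
    rw [h0, Matrix.zero_mulVec, dotProduct_zero, mul_zero, neg_zero, Complex.exp_zero, one_mul,
      one_mul, Matrix.one_mulVec]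
    unfold th
    refine tsum_congr (fun m => ?_)
    rw [Matrix.mulVec_diagonal, chq_zv N hN hc, mul_right_comm, mul_comm _ (φ (zv N m)), mul_assoc]
    congr 1
    unfold tmg
    rw [← Complex.exp_add]
    congr 1
    rw [Matrix.sub_mulVec, dotProduct_sub, iv_quad]
    ring

end Pool.Agent.CMT.A
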