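import Pool.Agent.Lib.CMT.A.A3
import Pool.Agent.Lib.CMT.A.GenJ
import Pool.Agent.Lib.CMT.A.GenM
import Pool.Agent.Lib.CMT.A.GenT

/-!
# CMT part A: `S_A3` (helper31, helper75)
-/

namespace Pool.Agent.CMT.A

/-- **S_A3**: deep elements of `Sp(ι, ℤ)` multiply the theta functions by scalars of finite order,
up to the automorphy factor. -/
theorem tA3 : CMT.B.S_A3 :=
  a3B (fun _ _ => tSum) (fun _ _ _ N _ _ i => S_J N i) (fun _ _ _ N _ hN c hc => S_T N hN c hc)
    (fun _ _ _ N _ _ u v h => S_M N u v h)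

end Pool.Agent.CMT.A

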