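import Mathlib
import Pool.Agent.Lib.CMT.A.ThDef

/-!
# CMT part A (I3): the transformation property `PG` is closed under products (helper75)
-/

set_option linter.unusedSectionVars false

open Complex Real Matrix

namespace Pool.Agent.CMT.A

variable {ι : Type*} [Fintype ι] [DecidableEq ι]

theorem al_mul (g h : Matrix (ι ⊕ ι) (ι ⊕ ι) ℤ) : al (g * h) = al g * al h + be g * ga h := by
  ext i j
  simp [al, be, ga, Matrix.mul_apply, Fintype.sum_sum_type, toBlocks₁₁, toBlocks₁₂, toBlocks₂₁]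

theorem be_mul (g h : Matrix (ι ⊕ ι) (ι ⊕ ι) ℤ) : be (g * h) = al g * be h + be g * de h := by
  ext i j
  simp [al, be, de, Matrix.mul_apply, Fintype.sum_sum_type, toBlocks₁₁, toBlocks₁₂, toBlocks₂₂]

theorem ga_mul (g h : Matrix (ι ⊕ ι) (ι ⊕ ι) ℤ) : ga (g * h) = ga g * al h + de g * ga h := by
  ext i j
  simp [al, ga, de, Matrix.mul_apply, Fintype.sum_sum_type, toBlocks₁₁, toBlocks₂₂, toBlocks₂₁]

theorem de_mul (g h : Matrix (ι ⊕ ι) (ι ⊕ ι) ℤ) : de (g * h) = ga g * be h + de g * de h := by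
  ext i j
  simp [be, ga, de, Matrix.mul_apply, Fintype.sum_sum_type, toBlocks₂₂, toBlocks₁₂, toBlocks₂₁]

theorem blk {R : Type*} [Ring R] (M : Matrix (ι ⊕ ι) (ι ⊕ ι) R) :
    M = fromBlocks M.toBlocks₁₁ M.toBlocks₁₂ M.toBlocks₂₁ M.toBlocks₂₂ := (fromBlocks_toBlocks M).symm

/-- the symplectic relations of the columns -/
theorem sp_rel {g : Matrix (ι ⊕ ι) (ι ⊕ ι) ℤ} (hg : g ∈ symplecticGroup ι ℤ) :
    (de g)ᵀ * al g - (be g)ᵀ * ga g = 1 ∧ (de g)ᵀ * be g = (be g)ᵀ * de g ∧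
      (ga g)ᵀ * al g = (al g)ᵀ * ga g := by
  have h0 : gᵀ * Matrix.J ι ℤ * g = Matrix.J ι ℤ := SymplecticGroup.mem_iff'.1 hg
  have h1 : g.toBlocks₂₂ᵀ * g.toBlocks₁₁ - g.toBlocks₁₂ᵀ * g.toBlocks₂₁ = 1 ∧
      g.toBlocks₂₂ᵀ * g.toBlocks₁₂ = g.toBlocks₁₂ᵀ * g.toBlocks₂₂ ∧
      g.toBlocks₂₁ᵀ * g.toBlocks₁₁ = g.toBlocks₁₁ᵀ * g.toBlocks₂₁ := by
    rw [blk g, fromBlocks_transpose, Matrix.J, fromBlocks_multiply, fromBlocks_multiply,
      fromBlocks_inj] at h0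
    obtain ⟨e1, e2, e3, e4⟩ := h0
    simp only [Matrix.mul_zero, zero_add, add_zero, Matrix.mul_one, Matrix.mul_neg, Matrix.neg_mul]
      at e1 e2 e3 e4
    refine ⟨?_, ?_, ?_⟩
    · rw [sub_eq_add_neg]; exact e3
    · rw [← sub_eq_zero, sub_eq_add_neg]; exact e4
    · rw [← sub_eq_zero, sub_eq_add_neg]; exact e1
  have hm : ∀ A B : Matrix ι ι ℤ, (A * B).map (Int.cast : ℤ → ℂ) =
      A.map (Int.cast : ℤ → ℂ) * B.map (Int.cast : ℤ → ℂ) := by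
    intro A B
    exact Matrix.map_mul (f := Int.castRingHom ℂ)
  obtain ⟨h1, h2, h3⟩ := h1
  refine ⟨?_, ?_, ?_⟩
  · have h := congrArg (fun M : Matrix ι ι ℤ => M.map (Int.cast : ℤ → ℂ)) h1
    simp only [Matrix.map_sub _ (Int.cast_sub (R := ℂ)), hm] at h
    rw [Matrix.map_one _ Int.cast_zero Int.cast_one] at h
    exact h
  · have h := congrArg (fun M : Matrix ι ι ℤ => M.map (Int.cast : ℤ → ℂ)) h2
    simp only [hm] at h
    exact h
  · have h := congrArg (fun M : Matrix ι ι ℤ => M.map (Int.cast : ℤ → ℂ)) h3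
    simp only [hm] at h
    exact h

theorem rel_mul {g h : Matrix (ι ⊕ ι) (ι ⊕ ι) ℤ} {Z Z' Z'' A B : Matrix ι ι ℂ}
    (hg : Rel g Z'' Z' A) (hh : Rel h Z Z'' B) : Rel (g * h) Z Z' (A * B) := by
  obtain ⟨g1, g2⟩ := hg
  obtain ⟨h1, h2⟩ := hh
  constructor
  · rw [be_mul, de_mul]
    calc Z' * (al g * be h + be g * de h) + (ga g * be h + de g * de h)
        = (Z' * al g + ga g) * be h + (Z' * be g + de g) * de h := by noncomm_ring
      _ = A * (Z'' * be h + de h) := by rw [g1, g2]; noncomm_ring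
      _ = A * B := by rw [h1]
  · rw [al_mul, ga_mul]
    calc Z' * (al g * al h + be g * ga h) + (ga g * al h + de g * ga h)
        = (Z' * al g + ga g) * al h + (Z' * be g + de g) * ga h := by noncomm_ring
      _ = A * (Z'' * al h + ga h) := by rw [g1, g2]; noncomm_ring
      _ = A * B * Z := by rw [h2]; noncomm_ring

/-- `Aᵀ (al - be Z) = 1`. -/
theorem rel_transp {g : Matrix (ι ⊕ ι) (ι ⊕ ι) ℤ} (hg : g ∈ symplecticGroup ι ℤ)
    {Z Z' A : Matrix ι ι ℂ} (hZ' : Z'ᵀ = Z') (h : Rel g Z Z' A) :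
    Aᵀ * (al g - be g * Z) = 1 := by
  obtain ⟨h1, h2⟩ := h
  obtain ⟨s1, s2, s3⟩ := sp_rel hg
  have hA : Aᵀ = (be g)ᵀ * Z' + (de g)ᵀ := by
    rw [← h1, transpose_add, transpose_mul, hZ']
  have e1 : Z' * al g = A * Z - ga g := by rw [← h2]; noncomm_ring
  have e2 : Z' * be g = A - de g := by rw [← h1]; noncomm_ring
  calc Aᵀ * (al g - be g * Z)
      = (be g)ᵀ * (Z' * al g) + (de g)ᵀ * al g - (be g)ᵀ * (Z' * be g) * Z -
          (de g)ᵀ * be g * Z := by rw [hA]; noncomm_ring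
    _ = ((de g)ᵀ * al g - (be g)ᵀ * ga g) + ((be g)ᵀ * de g - (de g)ᵀ * be g) * Z := by
        rw [e1, e2]; noncomm_ring
    _ = 1 := by rw [s1, s2]; simp

theorem dot_transp (A B : Matrix ι ι ℂ) (h : Aᵀ * B = 1) (u v : ι → ℂ) :
    (A *ᵥ u) ⬝ᵥ (B *ᵥ v) = u ⬝ᵥ v := by
  rw [Matrix.dotProduct_mulVec, ← Matrix.mulVec_transpose, Matrix.mulVec_mulVec]
  have h2 : Bᵀ * A = 1 := by
    have := congrArg Matrix.transpose h
    rwa [transpose_mul, transpose_transpose, transpose_one] at this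
  rw [h2, one_mulVec]

/-- **The transformation property is closed under products.** -/
theorem pg_mul {N : ℕ} [NeZero N] {K : ℕ} {g h : Matrix (ι ⊕ ι) (ι ⊕ ι) ℤ}
    (hgm : g ∈ symplecticGroup ι ℤ) (hg : PG N K g) (hh : PG N K h) : PG N K (g * h) := by
  obtain ⟨R, hR, hR2⟩ := hg
  obtain ⟨S, hS, hS2⟩ := hh
  refine ⟨S * R, ?_, ?_⟩
  · rw [det_mul, mul_pow, hR, hS, mul_one]
  · intro Z hZ
    obtain ⟨Z'', B, d, hZ'', hB, hd, hth2⟩ := hS2 Z hZ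
    obtain ⟨Z', A, c, hZ', hA, hc, hth1⟩ := hR2 Z'' hZ''
    refine ⟨Z', A * B, c * d, hZ', rel_mul hA hB, ?_, ?_⟩
    · rw [det_mul]
      calc ((c * d) ^ 2 * (A.det * B.det)) ^ K
          = (c ^ 2 * A.det) ^ K * (d ^ 2 * B.det) ^ K := by rw [← mul_pow]; ring
        _ = 1 := by rw [hc, hd, mul_one]
    · intro φ w
      have hAt := rel_transp hgm hZ'.1 hA
      rw [← mulVec_mulVec w A B, hth1 φ (B *ᵥ w), hth2 (R *ᵥ φ) w, mulVec_mulVec φ S R]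
      have key : (A *ᵥ B *ᵥ w) ⬝ᵥ (be (g * h) *ᵥ w) =
          (A *ᵥ B *ᵥ w) ⬝ᵥ (be g *ᵥ B *ᵥ w) + (B *ᵥ w) ⬝ᵥ (be h *ᵥ w) := by
        have e1 : be (g * h) *ᵥ w = be g *ᵥ B *ᵥ w + (al g - be g * Z'') *ᵥ (be h *ᵥ w) := by
          have e2 : be (g * h) = be g * B + (al g - be g * Z'') * be h := by
            rw [be_mul, ← hB.1]; noncomm_ring
          rw [e2, add_mulVec, mulVec_mulVec, mulVec_mulVec]
        rw [e1, dotProduct_add, dot_transp _ _ hAt]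
      rw [key]
      have e3 : -(π * I * ((A *ᵥ B *ᵥ w) ⬝ᵥ (be g *ᵥ B *ᵥ w) + (B *ᵥ w) ⬝ᵥ (be h *ᵥ w))) =
          -(π * I * ((A *ᵥ B *ᵥ w) ⬝ᵥ (be g *ᵥ B *ᵥ w))) +
            -(π * I * ((B *ᵥ w) ⬝ᵥ (be h *ᵥ w))) := by ring
      rw [e3, Complex.exp_add]
      ring

end Pool.Agent.CMT.A
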