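import Mathlib
import Pool.Agent.Lib.CMT.A.Comp

/-!
# CMT part A (I3): deep elements of `Sp(ι, ℤ)` act by scalars of finite order (helper75)

`a3` : for every `N` there are `M, k > 0` such that for every `g` in `symplecticGroup ι ℤ`,
`g = 1` modulo `M`, every `Z` in the Siegel upper half space and `Z'`, `A` with `Rel g Z Z' A`
there is a number `c` with `(c² det A)^k = 1` and
`th N φ Z' (A w) = c exp (-π i (A w)·(be w)) th N φ Z w` for ALL `φ`, `w`.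

Proof.  By `sp_induction''` and `pg_mul` every `g` has the property `PG` (for even `N`).  The
coefficient function is determined by the theta function (`th_inj`), so the matrix `R` of `g`
satisfies `R H(g v) = exp (π i (x·y - x'·y')/N²) H(v) R` with the Heisenberg operators
`H(x, y) φ (r) = φ(r - x) e((r - x)·y/N²)`.  For `g = 1` modulo `2 N²` the matrix `R` commutes with
all `H(v)`, so it is a scalar `λ`, and `λ^(K (N²)^card ι) = (det R)^K = 1`.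
-/

set_option linter.unusedSectionVars false

open Complex Real Matrix MeasureTheory

namespace Pool.Agent.CMT.A

open Pool.Agent.Lib.CMT

variable {ι : Type*} [Fintype ι] [DecidableEq ι]

/-- as in `Mathlib.Analysis.Fourier.AddCircleMulti` -/
noncomputable local instance : MeasureSpace UnitAddCircle := ⟨AddCircle.haarAddCircle⟩

/-- as in `Mathlib.Analysis.Fourier.AddCircleMulti` -/
local instance : Measure.IsAddHaarMeasure (volume : Measure UnitAddCircle) :=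
  inferInstanceAs (Measure.IsAddHaarMeasure AddCircle.haarAddCircle)

/-- as in `Mathlib.Analysis.Fourier.AddCircleMulti` -/
local instance : IsProbabilityMeasure (volume : Measure UnitAddCircle) :=
  inferInstanceAs (IsProbabilityMeasure AddCircle.haarAddCircle)

/-- An absolutely convergent multiple Fourier series which vanishes identically has zero
coefficients. -/
theorem coeff_zero (a : (ι → ℤ) → ℂ) (ha : Summable fun m => ‖a m‖)
    (h : ∀ x : ι → ℝ, ∑' m, a m * cexp (2 * π * I * (iv m ⬝ᵥ fun i => (x i : ℂ))) = 0)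
    (m₀ : ι → ℤ) : a m₀ = 0 := by
  have hs : Summable (fun m => a m • (UnitAddTorus.mFourier m : C(UnitAddTorus ι, ℂ))) := by
    refine Summable.of_norm ?_
    refine ha.congr (fun m => ?_)
    rw [norm_smul, UnitAddTorus.mFourier_norm, mul_one]
  have hG : (∑' m, a m • (UnitAddTorus.mFourier m : C(UnitAddTorus ι, ℂ))) = 0 := by
    ext x
    obtain ⟨r, hr⟩ : ∃ r : ι → ℝ, x = fun i => ((r i : ℝ) : UnitAddCircle) := by
      have : ∀ i, ∃ r : ℝ, (r : UnitAddCircle) = x i := fun i => QuotientAddGroup.mk_surjective (x i)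
      choose r hr using this
      exact ⟨r, funext fun i => (hr i).symm⟩
    rw [← ContinuousMap.tsum_apply hs x, ContinuousMap.zero_apply, ← h r]
    refine tsum_congr (fun m => ?_)
    rw [ContinuousMap.smul_apply, smul_eq_mul]
    congr 1
    rw [hr]
    unfold UnitAddTorus.mFourier
    simp only [ContinuousMap.coe_mk, fourier_coe_apply, Complex.ofReal_one, div_one]
    rw [← Complex.exp_sum]
    congr 1
    unfold iv dotProduct
    rw [Finset.mul_sum]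
    refine Finset.sum_congr rfl (fun i _ => ?_)
    ring
  have hs2 : HasSum (fun m => a m • UnitAddTorus.mFourierLp (d := ι) 2 m) 0 := by
    have h1 := hs.hasSum
    rw [hG] at h1
    have h2 := h1.mapL (ContinuousMap.toLp (E := ℂ) 2 volume ℂ)
    simp only [map_smul, map_zero] at h2
    exact h2
  have h3 := hs2.mapL (innerSL ℂ (UnitAddTorus.mFourierLp (d := ι) 2 m₀))
  rw [map_zero] at h3
  have h4 : HasSum (fun m => (innerSL ℂ (UnitAddTorus.mFourierLp (d := ι) 2 m₀))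
      (a m • UnitAddTorus.mFourierLp (d := ι) 2 m)) (a m₀) := by
    have ho := UnitAddTorus.orthonormal_mFourier (d := ι)
    rw [orthonormal_iff_ite] at ho
    have h5 : ∀ m, (innerSL ℂ (UnitAddTorus.mFourierLp (d := ι) 2 m₀))
      (a m • UnitAddTorus.mFourierLp (d := ι) 2 m) = if m₀ = m then a m else 0 := by
      intro m
      rw [map_smul, innerSL_apply_apply, ho m₀ m, smul_eq_mul]
      split_ifs <;> simp
    simp_rw [h5]
    have := hasSum_ite_eq m₀ (a m₀)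
    refine this.congr_fun ?_
    intro m
    by_cases hm : m = m₀
    · subst hm; simp
    · rw [if_neg (Ne.symm hm), if_neg hm]
  exact h4.unique h3

theorem zv_surj (N : ℕ) [NeZero N] (r : ι → ZMod (N ^ 2)) : ∃ m : ι → ℤ, zv N m = r := by
  refine ⟨fun i => ((r i).val : ℤ), ?_⟩
  funext i
  simp [zv]

theorem phi_bdd (N : ℕ) [NeZero N] (φ : (ι → ZMod (N ^ 2)) → ℂ) : ∃ C : ℝ, ∀ r, ‖φ r‖ ≤ C := by
  obtain ⟨C, hC⟩ := (Set.finite_range (fun r => ‖φ r‖)).bddAbove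
  exact ⟨C, fun r => hC ⟨r, rfl⟩⟩

theorem summ_phi {N : ℕ} [NeZero N] (φ : (ι → ZMod (N ^ 2)) → ℂ) {Z : Matrix ι ι ℂ} {w : ι → ℂ}
    (hs : Summable fun m => ‖tmg N Z w m‖) : Summable fun m => ‖φ (zv N m) * tmg N Z w m‖ := by
  obtain ⟨C, hC⟩ := phi_bdd N φ
  refine Summable.of_nonneg_of_le (fun m => norm_nonneg _) (fun m => ?_) (hs.mul_left C)
  rw [norm_mul]
  exact mul_le_mul_of_nonneg_right (hC _) (norm_nonneg _)

/-- the coefficient function is determined by the theta function -/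
theorem th_inj (hS : S_Sum ι) {N : ℕ} [NeZero N] {Z : Matrix ι ι ℂ} (hZ : IsH Z)
    {φ ψ : (ι → ZMod (N ^ 2)) → ℂ} (h : ∀ w, th N φ Z w = th N ψ Z w) : φ = ψ := by
  have hN : (N : ℂ) ≠ 0 := by exact_mod_cast NeZero.ne N
  have ht : ∀ (x : ι → ℂ) (m : ι → ℤ), tmg N Z ((N : ℂ) • x) m =
      tmg N Z 0 m * cexp (2 * π * I * (iv m ⬝ᵥ x)) := by
    intro x m
    unfold tmg
    rw [← Complex.exp_add]
    congr 1
    rw [dotProduct_smul, dotProduct_zero, smul_eq_mul]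
    field_simp
    ring
  have h0 : ∀ m : ι → ℤ, (φ (zv N m) - ψ (zv N m)) * tmg N Z 0 m = 0 := by
    refine coeff_zero _ ?_ ?_
    · exact summ_phi (fun r => φ r - ψ r) (hS N Z 0 hZ)
    · intro x
      have h1 := h ((N : ℂ) • fun i => (x i : ℂ))
      unfold th at h1
      have s1 := (summ_phi φ (hS N Z ((N : ℂ) • fun i => (x i : ℂ)) hZ)).of_norm
      have s2 := (summ_phi ψ (hS N Z ((N : ℂ) • fun i => (x i : ℂ)) hZ)).of_norm
      rw [← sub_eq_zero, ← s1.tsum_sub s2] at h1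
      rw [← h1]
      refine tsum_congr (fun m => ?_)
      rw [ht]
      ring
  funext r
  obtain ⟨m, rfl⟩ := zv_surj N r
  have h1 := h0 m
  have h2 : tmg N Z 0 m ≠ 0 := Complex.exp_ne_zero _
  exact sub_eq_zero.1 ((mul_eq_zero.1 h1).resolve_right h2)

/-- the Heisenberg operators -/
noncomputable def Hop (N : ℕ) [NeZero N] (x y : ι → ZMod (N ^ 2)) (φ : (ι → ZMod (N ^ 2)) → ℂ) :
    (ι → ZMod (N ^ 2)) → ℂ :=
  fun r => φ (r - x) * ZMod.stdAddChar ((r - x) ⬝ᵥ y)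

/-- `P_Z (x, y) = Z x + y` -/
def pv (Z : Matrix ι ι ℂ) (x y : ι → ℤ) : ι → ℂ := Z *ᵥ iv x + iv y

theorem iv_add (x y : ι → ℤ) : iv (x + y) = iv x + iv y := by
  funext i; simp [iv]

theorem zv_add (N : ℕ) (x y : ι → ℤ) : zv N (x + y) = zv N x + zv N y := by
  funext i; simp [zv]

theorem dot_iv (x y : ι → ℤ) : iv x ⬝ᵥ iv y = ((x ⬝ᵥ y : ℤ) : ℂ) := by
  simp [iv, dotProduct]

theorem symm_dot {Z : Matrix ι ι ℂ} (hZ : Zᵀ = Z) (u v : ι → ℂ) : u ⬝ᵥ Z *ᵥ v = v ⬝ᵥ Z *ᵥ u := by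
  rw [Matrix.dotProduct_mulVec, ← Matrix.mulVec_transpose, hZ, dotProduct_comm]

theorem char_zv (N : ℕ) [NeZero N] (x y : ι → ℤ) :
    (ZMod.stdAddChar (zv N x ⬝ᵥ zv N y) : ℂ) = cexp (2 * π * I * (iv x ⬝ᵥ iv y) / (N : ℂ) ^ 2) := by
  have h : zv N x ⬝ᵥ zv N y = (((x ⬝ᵥ y : ℤ)) : ZMod (N ^ 2)) := by
    simp [zv, dotProduct]
  rw [h, ZMod.stdAddChar_coe, dot_iv]
  push_cast
  rfl

theorem th_shift {N : ℕ} [NeZero N] {Z : Matrix ι ι ℂ} (hZ : Zᵀ = Z)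
    (φ : (ι → ZMod (N ^ 2)) → ℂ) (w : ι → ℂ) (x y : ι → ℤ) :
    th N φ Z (w + (N : ℂ)⁻¹ • pv Z x y) =
      cexp (-(π * I * (iv x ⬝ᵥ Z *ᵥ iv x) / (N : ℂ) ^ 2 + 2 * π * I * (iv x ⬝ᵥ w) / N)) *
        th N (Hop N (zv N x) (zv N y) φ) Z w := by
  have hN : (N : ℂ) ≠ 0 := by exact_mod_cast NeZero.ne N
  unfold th
  rw [← tsum_mul_left, ← (Equiv.addRight x).tsum_eq
    (fun m => cexp (-(π * I * (iv x ⬝ᵥ Z *ᵥ iv x) / (N : ℂ) ^ 2 + 2 * π * I * (iv x ⬝ᵥ w) / N)) *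
      (Hop N (zv N x) (zv N y) φ (zv N m) * tmg N Z w m))]
  refine tsum_congr (fun m => ?_)
  rw [Equiv.coe_addRight]
  have h1 : Hop N (zv N x) (zv N y) φ (zv N (m + x)) =
      φ (zv N m) * cexp (2 * π * I * (iv m ⬝ᵥ iv y) / (N : ℂ) ^ 2) := by
    unfold Hop
    rw [zv_add, add_sub_cancel_right, char_zv]
  rw [h1]
  unfold tmg
  have h2 : iv (m + x) ⬝ᵥ Z *ᵥ iv (m + x) =
      iv m ⬝ᵥ Z *ᵥ iv m + 2 * (iv m ⬝ᵥ Z *ᵥ iv x) + iv x ⬝ᵥ Z *ᵥ iv x := by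
    rw [iv_add, mulVec_add, add_dotProduct, dotProduct_add, dotProduct_add, symm_dot hZ (iv x) (iv m)]
    ring
  rw [h2, iv_add, add_dotProduct]
  unfold pv
  rw [dotProduct_add, dotProduct_smul, dotProduct_add, smul_eq_mul]
  have h3 : ∀ a b c d f : ℂ, a * cexp b = cexp c * (a * cexp d * cexp f) ↔
      a * cexp b = a * cexp (c + d + f) := by
    intro a b c d f
    rw [Complex.exp_add, Complex.exp_add]
    constructor <;> intro h <;> rw [h] <;> ring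
  rw [h3]
  congr 2
  field_simp
  ring

/-- the first component of `g (x, y)` -/
def gx (g : Matrix (ι ⊕ ι) (ι ⊕ ι) ℤ) (x y : ι → ℤ) : ι → ℤ :=
  g.toBlocks₁₁ *ᵥ x + g.toBlocks₁₂ *ᵥ y

/-- the second component of `g (x, y)` -/
def gy (g : Matrix (ι ⊕ ι) (ι ⊕ ι) ℤ) (x y : ι → ℤ) : ι → ℤ :=
  g.toBlocks₂₁ *ᵥ x + g.toBlocks₂₂ *ᵥ y

theorem iv_gx (g : Matrix (ι ⊕ ι) (ι ⊕ ι) ℤ) (x y : ι → ℤ) :
    iv (gx g x y) = al g *ᵥ iv x + be g *ᵥ iv y := by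
  funext i
  simp [iv, gx, al, be, mulVec, dotProduct]

theorem iv_gy (g : Matrix (ι ⊕ ι) (ι ⊕ ι) ℤ) (x y : ι → ℤ) :
    iv (gy g x y) = ga g *ᵥ iv x + de g *ᵥ iv y := by
  funext i
  simp [iv, gy, ga, de, mulVec, dotProduct]

theorem dot_mul (A B : Matrix ι ι ℂ) (u v : ι → ℂ) : (A *ᵥ u) ⬝ᵥ (B *ᵥ v) = u ⬝ᵥ ((Aᵀ * B) *ᵥ v) := by
  rw [← mulVec_mulVec, dotProduct_mulVec u Aᵀ, vecMul_transpose]

theorem sp_dot {g : Matrix (ι ⊕ ι) (ι ⊕ ι) ℤ} (hg : g ∈ symplecticGroup ι ℤ) (x y w : ι → ℂ) :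
    (al g *ᵥ x + be g *ᵥ y) ⬝ᵥ (de g *ᵥ w) - (ga g *ᵥ x + de g *ᵥ y) ⬝ᵥ (be g *ᵥ w) = x ⬝ᵥ w := by
  obtain ⟨s1, s2, s3⟩ := sp_rel hg
  have s1' : (al g)ᵀ * de g - (ga g)ᵀ * be g = 1 := by
    have h := congrArg Matrix.transpose s1
    rwa [transpose_sub, transpose_mul, transpose_mul, transpose_transpose, transpose_transpose,
      transpose_one] at h
  rw [add_dotProduct, add_dotProduct, dot_mul, dot_mul, dot_mul, dot_mul, s2]
  have h : x ⬝ᵥ ((al g)ᵀ * de g) *ᵥ w + y ⬝ᵥ ((be g)ᵀ * de g) *ᵥ w -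
      (x ⬝ᵥ ((ga g)ᵀ * be g) *ᵥ w + y ⬝ᵥ ((be g)ᵀ * de g) *ᵥ w) =
      x ⬝ᵥ (((al g)ᵀ * de g - (ga g)ᵀ * be g) *ᵥ w) := by
    rw [sub_mulVec, dotProduct_sub]
    ring
  rw [h, s1', one_mulVec]

theorem pv_rel {g : Matrix (ι ⊕ ι) (ι ⊕ ι) ℤ} {Z Z' A : Matrix ι ι ℂ} (h : Rel g Z Z' A)
    (x y : ι → ℤ) : A *ᵥ pv Z x y = pv Z' (gx g x y) (gy g x y) := by
  unfold pv
  rw [iv_gx, iv_gy, mulVec_add, mulVec_add, mulVec_mulVec, mulVec_mulVec, mulVec_mulVec, ← h.2, ← h.1,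
    add_mulVec, add_mulVec]
  abel

/-- the linear identity -/
theorem lin_id {g : Matrix (ι ⊕ ι) (ι ⊕ ι) ℤ} (hg : g ∈ symplecticGroup ι ℤ)
    {Z Z' A : Matrix ι ι ℂ} (hZ' : Z'ᵀ = Z') (h : Rel g Z Z' A) (x y : ι → ℤ) (w : ι → ℂ) :
    (A *ᵥ w) ⬝ᵥ (be g *ᵥ pv Z x y) + pv Z' (gx g x y) (gy g x y) ⬝ᵥ (be g *ᵥ w) =
      2 * (iv (gx g x y) ⬝ᵥ (A *ᵥ w)) - 2 * (iv x ⬝ᵥ w) := by
  have e1 : be g *ᵥ pv Z x y = iv (gx g x y) - (al g - be g * Z) *ᵥ iv x := by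
    rw [iv_gx, sub_mulVec, pv, mulVec_add, mulVec_mulVec]
    abel
  have e2 : (A *ᵥ w) ⬝ᵥ (be g *ᵥ pv Z x y) = iv (gx g x y) ⬝ᵥ (A *ᵥ w) - iv x ⬝ᵥ w := by
    rw [e1, dotProduct_sub, dot_transp _ _ (rel_transp hg hZ' h), dotProduct_comm,
      dotProduct_comm w]
  have e3 : pv Z' (gx g x y) (gy g x y) ⬝ᵥ (be g *ᵥ w) =
      iv (gx g x y) ⬝ᵥ (A *ᵥ w) - iv x ⬝ᵥ w := by
    have h1 := sp_dot hg (iv x) (iv y) w
    rw [← iv_gx, ← iv_gy] at h1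
    rw [← h1, ← h.1, add_mulVec, dotProduct_add, pv, add_dotProduct, ← mulVec_mulVec,
      dotProduct_comm (Z' *ᵥ _), symm_dot hZ']
    ring
  rw [e2, e3]
  ring

/-- the quadratic identity -/
theorem quad_id {g : Matrix (ι ⊕ ι) (ι ⊕ ι) ℤ} (hg : g ∈ symplecticGroup ι ℤ)
    {Z Z' A : Matrix ι ι ℂ} (hZ' : Z'ᵀ = Z') (h : Rel g Z Z' A) (x y : ι → ℤ) :
    iv (gx g x y) ⬝ᵥ Z' *ᵥ iv (gx g x y) - iv x ⬝ᵥ Z *ᵥ iv x -
      pv Z' (gx g x y) (gy g x y) ⬝ᵥ (be g *ᵥ pv Z x y) =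
      ((x ⬝ᵥ y - gx g x y ⬝ᵥ gy g x y : ℤ) : ℂ) := by
  have e1 : be g *ᵥ pv Z x y = iv (gx g x y) - (al g - be g * Z) *ᵥ iv x := by
    rw [iv_gx, sub_mulVec, pv, mulVec_add, mulVec_mulVec]
    abel
  rw [e1, dotProduct_sub, ← pv_rel h, dot_transp _ _ (rel_transp hg hZ' h), pv_rel h, pv, pv,
    add_dotProduct, add_dotProduct, Int.cast_sub, ← dot_iv, ← dot_iv, dotProduct_comm (Z' *ᵥ _),
    dotProduct_comm (Z *ᵥ _), dotProduct_comm (iv y), dotProduct_comm (iv (gy g x y))]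
  ring

/-- the matrix of `g` normalises the Heisenberg operators -/
theorem comm_Hop (hS : S_Sum ι) {N : ℕ} [NeZero N] {g : Matrix (ι ⊕ ι) (ι ⊕ ι) ℤ}
    (hg : g ∈ symplecticGroup ι ℤ) {Z Z' A : Matrix ι ι ℂ} (hZ : IsH Z) (hZ' : Z'ᵀ = Z')
    (h : Rel g Z Z' A) {c : ℂ} (hc : c ≠ 0)
    {R : Matrix (ι → ZMod (N ^ 2)) (ι → ZMod (N ^ 2)) ℂ}
    (hth : ∀ (φ : (ι → ZMod (N ^ 2)) → ℂ) (w : ι → ℂ), th N φ Z' (A *ᵥ w) =
      c * cexp (-(π * I * ((A *ᵥ w) ⬝ᵥ (be g *ᵥ w)))) * th N (R *ᵥ φ) Z w)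
    (x y : ι → ℤ) (φ : (ι → ZMod (N ^ 2)) → ℂ) :
    R *ᵥ (Hop N (zv N (gx g x y)) (zv N (gy g x y)) φ) =
      cexp (π * I * ((x ⬝ᵥ y - gx g x y ⬝ᵥ gy g x y : ℤ) : ℂ) / (N : ℂ) ^ 2) •
        Hop N (zv N x) (zv N y) (R *ᵥ φ) := by
  have hN : (N : ℂ) ≠ 0 := by exact_mod_cast NeZero.ne N
  refine th_inj hS hZ (fun w => ?_)
  have hsm : ∀ (t : ℂ) (ψ : (ι → ZMod (N ^ 2)) → ℂ), th N (t • ψ) Z w = t * th N ψ Z w := by
    intro t ψ
    unfold th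
    rw [← tsum_mul_left]
    refine tsum_congr (fun m => ?_)
    rw [Pi.smul_apply, smul_eq_mul]
    ring
  rw [hsm]
  have h1 := hth φ (w + (N : ℂ)⁻¹ • pv Z x y)
  rw [th_shift hZ.1, mulVec_add, mulVec_smul, pv_rel h, th_shift hZ', hth, mulVec_add, mulVec_smul,
    add_dotProduct, dotProduct_add, dotProduct_add, smul_dotProduct, dotProduct_smul,
    smul_dotProduct, dotProduct_smul] at h1
  simp only [smul_eq_mul] at h1
  have hl := lin_id hg hZ' h x y w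
  have hq := quad_id hg hZ' h x y
  have h2 : c * cexp (-(π * I * (iv (gx g x y) ⬝ᵥ Z' *ᵥ iv (gx g x y)) / (N : ℂ) ^ 2 +
        2 * π * I * (iv (gx g x y) ⬝ᵥ A *ᵥ w) / N) + -(π * I * (A *ᵥ w ⬝ᵥ be g *ᵥ w))) ≠ 0 :=
    mul_ne_zero hc (Complex.exp_ne_zero _)
  apply mul_left_cancel₀ h2
  rw [Complex.exp_add]
  refine Eq.trans ?_ (h1.trans ?_)
  · ring
  · have e1 : ∀ a b d e f g : ℂ, c * cexp a * (cexp b * d) = c * (cexp e * cexp f) * (cexp g * d) ↔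
        c * cexp (a + b) * d = c * cexp (e + f + g) * d := by
      intro a b d e f g
      rw [Complex.exp_add, Complex.exp_add, Complex.exp_add]
      constructor <;> intro h <;> linear_combination h
    rw [e1]
    congr 3
    rw [← hq]
    field_simp
    linear_combination (-(N : ℂ)) * hl

/-- a matrix which commutes with the Heisenberg operators is a scalar -/
theorem scalar_of_comm {N : ℕ} [NeZero N] {R : Matrix (ι → ZMod (N ^ 2)) (ι → ZMod (N ^ 2)) ℂ}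
    (h : ∀ (x y : ι → ZMod (N ^ 2)) (φ : (ι → ZMod (N ^ 2)) → ℂ),
      R *ᵥ Hop N x y φ = Hop N x y (R *ᵥ φ)) : R = R 0 0 • (1 : Matrix _ _ ℂ) := by
  have h1 : ∀ (r s : ι → ZMod (N ^ 2)), (R *ᵥ Pi.single s 1) r = R r s := by
    intro r s
    rw [mulVec_single_one]
    rfl
  have hd : ∀ r s : ι → ZMod (N ^ 2), r ≠ s → R r s = 0 := by
    intro r s hrs
    obtain ⟨i, hi⟩ := Function.ne_iff.1 hrs
    have h2 := congrFun (h 0 (Pi.single i 1) (Pi.single s 1)) r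
    have h3 : Hop N 0 (Pi.single i 1) (Pi.single s (1 : ℂ)) =
        (ZMod.stdAddChar (s i) : ℂ) • (Pi.single s (1 : ℂ) : (ι → ZMod (N ^ 2)) → ℂ) := by
      funext t
      unfold Hop
      rw [sub_zero, Pi.smul_apply, smul_eq_mul, dotProduct_single_one]
      by_cases ht : t = s
      · subst ht; rw [mul_comm]
      · rw [Pi.single_eq_of_ne ht]; ring
    rw [h3, mulVec_smul, Pi.smul_apply, h1] at h2
    unfold Hop at h2
    rw [sub_zero, h1, smul_eq_mul, dotProduct_single_one] at h2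
    have h4 : ((ZMod.stdAddChar (s i) : ℂ) - ZMod.stdAddChar (r i)) * R r s = 0 := by
      linear_combination h2
    refine (mul_eq_zero.1 h4).resolve_left ?_
    intro h5
    exact hi ((ZMod.injective_stdAddChar (sub_eq_zero.1 h5)).symm)
  have hc : ∀ r : ι → ZMod (N ^ 2), R r r = R 0 0 := by
    intro r
    have h2 := congrFun (h r 0 (Pi.single 0 1)) r
    have h3 : Hop N r 0 (Pi.single 0 (1 : ℂ)) = (Pi.single r (1 : ℂ) : (ι → ZMod (N ^ 2)) → ℂ) := by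
      funext t
      unfold Hop
      rw [dotProduct_zero, AddChar.map_zero_eq_one, mul_one]
      by_cases ht : t = r
      · subst ht; simp
      · rw [Pi.single_eq_of_ne ht, Pi.single_eq_of_ne (sub_ne_zero.2 ht)]
    rw [h3, h1] at h2
    unfold Hop at h2
    rw [sub_self, h1, dotProduct_zero, AddChar.map_zero_eq_one, mul_one] at h2
    exact h2
  ext r s
  rw [Matrix.smul_apply, Matrix.one_apply, smul_eq_mul]
  by_cases hrs : r = s
  · subst hrs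
    rw [if_pos rfl, mul_one, hc]
  · rw [if_neg hrs, mul_zero, hd r s hrs]

/-- `Z'` and `A` are determined by `g` and `Z`. -/
theorem rel_unique {g : Matrix (ι ⊕ ι) (ι ⊕ ι) ℤ} (hg : g ∈ symplecticGroup ι ℤ)
    {Z Z₁ Z₂ A₁ A₂ : Matrix ι ι ℂ} (h₁ : Rel g Z Z₁ A₁) (h₂ : Rel g Z Z₂ A₂) :
    Z₁ = Z₂ ∧ A₁ = A₂ := by
  obtain ⟨k, hk⟩ : ∃ k : Matrix (ι ⊕ ι) (ι ⊕ ι) ℤ, g * k = 1 := by
    refine ⟨-(Matrix.J ι ℤ) * gᵀ * Matrix.J ι ℤ, ?_⟩
    have h := (SymplecticGroup.mem_iff.1 hg)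
    calc g * (-(Matrix.J ι ℤ) * gᵀ * Matrix.J ι ℤ) = -((g * Matrix.J ι ℤ * gᵀ) * Matrix.J ι ℤ) := by
          noncomm_ring
      _ = 1 := by rw [h, J_squared]; simp
  have e1 : al g * al k + be g * ga k = 1 := by
    rw [← al_mul, hk]; ext i j; simp [al, toBlocks₁₁, Matrix.one_apply]
  have e2 : al g * be k + be g * de k = 0 := by
    rw [← be_mul, hk]; ext i j; simp [be, toBlocks₁₂]
  have e3 : ga g * al k + de g * ga k = 0 := by
    rw [← ga_mul, hk]; ext i j; simp [ga, toBlocks₂₁]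
  have e4 : ga g * be k + de g * de k = 1 := by
    rw [← de_mul, hk]; ext i j; simp [de, toBlocks₂₂, Matrix.one_apply]
  have key : ∀ {Z' A : Matrix ι ι ℂ}, Rel g Z Z' A →
      A * (Z * be k + de k) = 1 ∧ A * (Z * al k + ga k) = Z' := by
    intro Z' A h
    constructor
    · calc A * (Z * be k + de k) = (A * Z) * be k + A * de k := by noncomm_ring
        _ = Z' * (al g * be k + be g * de k) + (ga g * be k + de g * de k) := by
            rw [← h.2, ← h.1]; noncomm_ring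
        _ = 1 := by rw [e2, e4]; simp
    · calc A * (Z * al k + ga k) = (A * Z) * al k + A * ga k := by noncomm_ring
        _ = Z' * (al g * al k + be g * ga k) + (ga g * al k + de g * ga k) := by
            rw [← h.2, ← h.1]; noncomm_ring
        _ = Z' := by rw [e1, e3]; simp
  obtain ⟨a1, b1⟩ := key h₁
  obtain ⟨a2, b2⟩ := key h₂
  have hA : A₁ = A₂ := by
    have h := mul_eq_one_comm.1 a1
    calc A₁ = A₂ * (Z * be k + de k) * A₁ := by rw [a2, one_mul]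
      _ = A₂ * ((Z * be k + de k) * A₁) := by rw [mul_assoc]
      _ = A₂ := by rw [h, mul_one]
  exact ⟨by rw [← b1, ← b2, hA], hA⟩

theorem blk_smul (q : ℤ) (G : Matrix (ι ⊕ ι) (ι ⊕ ι) ℤ) :
    (1 + q • G).toBlocks₁₁ = 1 + q • G.toBlocks₁₁ ∧ (1 + q • G).toBlocks₁₂ = q • G.toBlocks₁₂ ∧
    (1 + q • G).toBlocks₂₁ = q • G.toBlocks₂₁ ∧ (1 + q • G).toBlocks₂₂ = 1 + q • G.toBlocks₂₂ := by
  refine ⟨?_, ?_, ?_, ?_⟩ <;> ext i j <;>
    simp [toBlocks₁₁, toBlocks₁₂, toBlocks₂₁, toBlocks₂₂, Matrix.one_apply, -zsmul_eq_mul]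

/-- the conclusion for one level, from the property `PG` of all elements -/
theorem a3_of_pg (hS : S_Sum ι) {N : ℕ} [NeZero N] {K : ℕ} (hK : 0 < K)
    (hP : ∀ g ∈ symplecticGroup ι ℤ, PG N K g) :
    ∀ g ∈ symplecticGroup ι ℤ, (∃ G : Matrix (ι ⊕ ι) (ι ⊕ ι) ℤ, g = 1 + ((2 * N ^ 2 : ℕ) : ℤ) • G) →
      ∀ Z Z' A : Matrix ι ι ℂ, IsH Z → Rel g Z Z' A → ∃ c : ℂ,
        (c ^ 2 * A.det) ^ (K * (N ^ 2) ^ Fintype.card ι) = 1 ∧
        ∀ (φ : (ι → ZMod (N ^ 2)) → ℂ) (w : ι → ℂ), th N φ Z' (A *ᵥ w) =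
          c * cexp (-(π * I * ((A *ᵥ w) ⬝ᵥ (be g *ᵥ w)))) * th N φ Z w := by
  intro g hg hG Z Z₁ A₁ hZ h₁
  have hN : (N : ℂ) ≠ 0 := by exact_mod_cast NeZero.ne N
  obtain ⟨R, hR, hR2⟩ := hP g hg
  obtain ⟨Z', A, c, hZ', hA, hc, hth⟩ := hR2 Z hZ
  obtain ⟨e1, e2⟩ := rel_unique hg h₁ hA
  subst e1 e2
  have hc0 : c ≠ 0 := by
    rintro rfl
    rw [zero_pow two_ne_zero, zero_mul, zero_pow hK.ne'] at hc
    exact zero_ne_one hc
  obtain ⟨G, hG⟩ := hG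
  have hcomm : ∀ (x y : ι → ZMod (N ^ 2)) (φ : (ι → ZMod (N ^ 2)) → ℂ),
      R *ᵥ Hop N x y φ = Hop N x y (R *ᵥ φ) := by
    intro x y φ
    obtain ⟨x, rfl⟩ := zv_surj N x
    obtain ⟨y, rfl⟩ := zv_surj N y
    have h := comm_Hop hS hg hZ hZ'.1 hA hc0 hth x y φ
    have hx : ∃ u : ι → ℤ, gx g x y = x + ((2 * N ^ 2 : ℕ) : ℤ) • u := by
      refine ⟨G.toBlocks₁₁ *ᵥ x + G.toBlocks₁₂ *ᵥ y, ?_⟩
      have b1 : g.toBlocks₁₁ = 1 + ((2 * N ^ 2 : ℕ) : ℤ) • G.toBlocks₁₁ := by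
        rw [hG]; exact (blk_smul _ G).1
      have b2 : g.toBlocks₁₂ = ((2 * N ^ 2 : ℕ) : ℤ) • G.toBlocks₁₂ := by
        rw [hG]; exact (blk_smul _ G).2.1
      rw [gx, b1, b2, add_mulVec, one_mulVec, smul_mulVec, smul_mulVec, smul_add]
      abel
    have hy : ∃ u : ι → ℤ, gy g x y = y + ((2 * N ^ 2 : ℕ) : ℤ) • u := by
      refine ⟨G.toBlocks₂₁ *ᵥ x + G.toBlocks₂₂ *ᵥ y, ?_⟩
      have b1 : g.toBlocks₂₁ = ((2 * N ^ 2 : ℕ) : ℤ) • G.toBlocks₂₁ := by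
        rw [hG]; exact (blk_smul _ G).2.2.1
      have b2 : g.toBlocks₂₂ = 1 + ((2 * N ^ 2 : ℕ) : ℤ) • G.toBlocks₂₂ := by
        rw [hG]; exact (blk_smul _ G).2.2.2
      rw [gy, b1, b2, add_mulVec, one_mulVec, smul_mulVec, smul_mulVec, smul_add]
      abel
    obtain ⟨u, hu⟩ := hx
    obtain ⟨v, hv⟩ := hy
    have hz : ∀ (t s : ι → ℤ), zv N (t + ((2 * N ^ 2 : ℕ) : ℤ) • s) = zv N t := by
      intro t s
      funext i
      have h0 : ((N : ZMod (N ^ 2)) ^ 2) = 0 := by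
        have := ZMod.natCast_self (N ^ 2)
        push_cast at this
        exact this
      simp only [zv, Pi.add_apply, Pi.smul_apply, smul_eq_mul]
      push_cast
      rw [h0]
      ring
    have hk : cexp (π * I * ((x ⬝ᵥ y - gx g x y ⬝ᵥ gy g x y : ℤ) : ℂ) / (N : ℂ) ^ 2) = 1 := by
      rw [hu, hv]
      have h2 : x ⬝ᵥ y - (x + ((2 * N ^ 2 : ℕ) : ℤ) • u) ⬝ᵥ (y + ((2 * N ^ 2 : ℕ) : ℤ) • v) =
          (N : ℤ) ^ 2 * (2 * (-(x ⬝ᵥ v + u ⬝ᵥ y + ((2 * N ^ 2 : ℕ) : ℤ) * (u ⬝ᵥ v)))) := by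
        simp only [add_dotProduct, dotProduct_add, smul_dotProduct, dotProduct_smul, smul_eq_mul]
        push_cast
        ring
      rw [h2, Int.cast_mul, Int.cast_mul]
      have h3 : (π : ℂ) * I * (((N : ℤ) ^ 2 : ℤ) * (((2 : ℤ) : ℂ) *
          ((-(x ⬝ᵥ v + u ⬝ᵥ y + ((2 * N ^ 2 : ℕ) : ℤ) * (u ⬝ᵥ v)) : ℤ) : ℂ))) / (N : ℂ) ^ 2 =
          ((-(x ⬝ᵥ v + u ⬝ᵥ y + ((2 * N ^ 2 : ℕ) : ℤ) * (u ⬝ᵥ v)) : ℤ) : ℂ) * (2 * π * I) := by
        rw [Int.cast_pow, Int.cast_natCast, Int.cast_ofNat]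
        field_simp
      rw [h3, Complex.exp_int_mul_two_pi_mul_I]
    rw [hk, one_smul, hu, hv, hz, hz] at h
    exact h
  have hsc := scalar_of_comm hcomm
  obtain ⟨lam, hlam⟩ : ∃ lam : ℂ, lam = R 0 0 := ⟨_, rfl⟩
  rw [← hlam] at hsc
  have hl : lam ^ (K * (N ^ 2) ^ Fintype.card ι) = 1 := by
    rw [hsc, det_smul, det_one, mul_one, Fintype.card_fun, ZMod.card, ← pow_mul, mul_comm] at hR
    exact hR
  refine ⟨c * lam, ?_, ?_⟩
  · obtain ⟨q, hq⟩ : ∃ q : ℕ, q = (N ^ 2) ^ Fintype.card ι := ⟨_, rfl⟩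
    rw [← hq] at hl ⊢
    calc ((c * lam) ^ 2 * A₁.det) ^ (K * q)
        = ((c ^ 2 * A₁.det) ^ K) ^ q * (lam ^ (K * q)) ^ 2 := by
          rw [← pow_mul, ← pow_mul, mul_comm (K * q) 2, pow_mul lam 2, ← mul_pow]
          congr 1
          ring
      _ = 1 := by rw [hc, hl, one_pow, one_pow, one_mul]
  · intro φ w
    rw [hth, hsc, smul_mulVec, one_mulVec]
    have : th N (lam • φ) Z w = lam * th N φ Z w := by
      unfold th
      rw [← tsum_mul_left]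
      refine tsum_congr (fun m => ?_)
      rw [Pi.smul_apply, smul_eq_mul]
      ring
    rw [this]
    ring

/-- a coefficient function of level `N` as one of level `2 N` -/
noncomputable def dbl (N : ℕ) (φ : (ι → ZMod (N ^ 2)) → ℂ) : (ι → ZMod ((2 * N) ^ 2)) → ℂ := by
  classical
  exact fun r => if ∀ i, Even (r i).val then φ (fun i => (((r i).val / 2 : ℕ) : ZMod (N ^ 2))) else 0

theorem dbl_zv (N : ℕ) [NeZero N] (φ : (ι → ZMod (N ^ 2)) → ℂ) (m : ι → ℤ) :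
    dbl N φ (zv (2 * N) ((2 : ℤ) • m)) = φ (zv N m) := by
  have hN : 0 < N := NeZero.pos N
  have key : ∀ i, ∃ t : ℤ, ((zv (2 * N) ((2 : ℤ) • m) i).val : ℤ) = 2 * (m i + (N : ℤ) ^ 2 * t) := by
    intro i
    have h1 : ((zv (2 * N) ((2 : ℤ) • m) i).val : ℤ) = (2 * m i) % (((2 * N) ^ 2 : ℕ) : ℤ) := by
      unfold zv
      rw [ZMod.val_intCast]
      rfl
    refine ⟨-(2 * ((2 * m i) / (((2 * N) ^ 2 : ℕ) : ℤ))), ?_⟩
    rw [h1, Int.emod_def]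
    push_cast
    ring
  unfold dbl
  rw [if_pos]
  · congr 1
    funext i
    obtain ⟨t, ht⟩ := key i
    have h2 : (((zv (2 * N) ((2 : ℤ) • m) i).val / 2 : ℕ) : ℤ) = m i + (N : ℤ) ^ 2 * t := by
      push_cast
      rw [ht]
      exact Int.mul_ediv_cancel_left _ two_ne_zero
    have h3 := congrArg (fun z : ℤ => (z : ZMod (N ^ 2))) h2
    have h0 : ((N : ZMod (N ^ 2)) ^ 2) = 0 := by
      have := ZMod.natCast_self (N ^ 2)
      push_cast at this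
      exact this
    simp only [Int.cast_natCast, Int.cast_add, Int.cast_mul, Int.cast_pow, h0, zero_mul,
      add_zero] at h3
    exact h3
  · intro i
    obtain ⟨t, ht⟩ := key i
    have h4 : Even (((zv (2 * N) ((2 : ℤ) • m) i).val : ℤ)) := by
      rw [ht]
      exact even_two_mul _
    exact (Int.even_coe_nat _).1 h4

theorem dbl_zero (N : ℕ) [NeZero N] (φ : (ι → ZMod (N ^ 2)) → ℂ) (m : ι → ℤ)
    (h : dbl N φ (zv (2 * N) m) ≠ 0) : ∃ k : ι → ℤ, (2 : ℤ) • k = m := by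
  have h1 : ∀ i, Even (zv (2 * N) m i).val := by
    by_contra hc
    apply h
    unfold dbl
    rw [if_neg hc]
  have h2 : ∀ i, ∃ k : ℤ, 2 * k = m i := by
    intro i
    obtain ⟨s, hs⟩ := h1 i
    have h3 : ((zv (2 * N) m i).val : ℤ) = (m i) % (((2 * N) ^ 2 : ℕ) : ℤ) := by
      unfold zv
      rw [ZMod.val_intCast]
    rw [hs, Int.emod_def] at h3
    push_cast at h3
    refine ⟨s + 2 * (N : ℤ) ^ 2 * ((m i) / ((2 * N) ^ 2)), ?_⟩
    linear_combination h3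
  choose k hk using h2
  exact ⟨k, funext fun i => by rw [Pi.smul_apply, smul_eq_mul]; exact hk i⟩

theorem th_dbl (N : ℕ) [NeZero N] (φ : (ι → ZMod (N ^ 2)) → ℂ) (Z : Matrix ι ι ℂ) (w : ι → ℂ) :
    th (2 * N) (dbl N φ) Z w = th N φ Z w := by
  have hN : (N : ℂ) ≠ 0 := by exact_mod_cast NeZero.ne N
  have hinj : Function.Injective (fun m : ι → ℤ => (2 : ℤ) • m) := by
    intro a b hab
    funext i
    have := congrFun hab i
    simp only [Pi.smul_apply, smul_eq_mul] at this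
    omega
  unfold th
  rw [← hinj.tsum_eq]
  · refine tsum_congr (fun m => ?_)
    rw [dbl_zv]
    congr 1
    unfold tmg
    congr 1
    have h1 : iv ((2 : ℤ) • m) = (2 : ℂ) • iv m := by
      funext i
      simp [iv]
    rw [h1, mulVec_smul, dotProduct_smul, smul_dotProduct, smul_dotProduct, smul_eq_mul, smul_eq_mul,
      smul_eq_mul]
    push_cast
    field_simp
  · intro m hm
    rw [Function.mem_support] at hm
    exact dbl_zero N φ m (left_ne_zero_of_mul hm)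

/-- **S_A3, abstract form**: from the convergence and the three generators. -/
theorem a3 (hS : S_Sum ι)
    (hJ : ∀ (N : ℕ) [NeZero N], Even N → ∀ i : ι, PG N (8 * N ^ 2) (Jp i))
    (hT : ∀ (N : ℕ) [NeZero N], Even N → ∀ c : Matrix ι ι ℤ, cᵀ = c →
      PG N (8 * N ^ 2) (fromBlocks 1 0 c 1))
    (hM : ∀ (N : ℕ) [NeZero N], Even N → ∀ u v : Matrix ι ι ℤ, u * vᵀ = 1 →
      PG N (8 * N ^ 2) (fromBlocks u 0 0 v))
    (N : ℕ) [NeZero N] : ∃ M k : ℕ, 0 < M ∧ 0 < k ∧ ∀ g ∈ symplecticGroup ι ℤ,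
      (∃ G : Matrix (ι ⊕ ι) (ι ⊕ ι) ℤ, g = 1 + (M : ℤ) • G) →
      ∀ Z Z' A : Matrix ι ι ℂ, IsH Z → Rel g Z Z' A → ∃ c : ℂ, (c ^ 2 * A.det) ^ k = 1 ∧
        ∀ (φ : (ι → ZMod (N ^ 2)) → ℂ) (w : ι → ℂ), th N φ Z' (A *ᵥ w) =
          c * cexp (-(π * I * ((A *ᵥ w) ⬝ᵥ (be g *ᵥ w)))) * th N φ Z w := by
  have hN : 0 < N := NeZero.pos N
  have hev : Even (2 * N) := even_two_mul N
  have hP : ∀ g ∈ symplecticGroup ι ℤ, PG (2 * N) (8 * (2 * N) ^ 2) g := by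
    intro g hg
    exact sp_induction'' (hJ (2 * N) hev) (hT (2 * N) hev) (hM (2 * N) hev)
      (fun x y hx _ px py => pg_mul hx px py) hg
  have hK : 0 < 8 * (2 * N) ^ 2 := by positivity
  refine ⟨2 * (2 * N) ^ 2, 8 * (2 * N) ^ 2 * ((2 * N) ^ 2) ^ Fintype.card ι, by positivity,
    by positivity, ?_⟩
  intro g hg hG Z Z' A hZ hA
  obtain ⟨c, hc, hth⟩ := a3_of_pg hS hK hP g hg hG Z Z' A hZ hA
  refine ⟨c, hc, fun φ w => ?_⟩
  have h := hth (dbl N φ) w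
  rwa [th_dbl, th_dbl] at h

end Pool.Agent.CMT.A
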