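import Mathlib
import Pool.Agent.Lib.CMT.A.Gau

/-! CMT part A/P (helper31): Poisson summation for `P x * exp (-π x A x + 2 π x w)`,
`A` real positive definite, `w` complex, `P` continuous of at most exponential growth. -/

open Complex Real MeasureTheory Matrix
open scoped MatrixOrder

namespace Pool.Agent.CMT

variable {ι : Type*} [Fintype ι]

/-- the shifted parameter `w - i m` -/
noncomputable def shw (w : ι → ℂ) (m : ι → ℤ) : ι → ℂ := fun i => w i - I * (m i : ℂ)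

/-- the moment integral -/
noncomputable def momP (A : Matrix ι ι ℝ) (P : (ι → ℝ) → ℂ) (w : ι → ℂ) : ℂ :=
  ∫ x, P x * gA A w x

theorem gA_shw (A : Matrix ι ι ℝ) (w : ι → ℂ) (m : ι → ℤ) (x : ι → ℝ) :
    cexp (-2 * π * I * ∑ i, (m i : ℂ) * (x i : ℂ)) * gA A w x = gA A (shw w m) x := by
  unfold gA shw
  rw [← Complex.exp_add]
  congr 1
  have e : ∑ i, (x i : ℂ) * (w i - I * (m i : ℂ)) =
      ∑ i, (x i : ℂ) * w i - I * ∑ i, (m i : ℂ) * (x i : ℂ) := by
    rw [Finset.mul_sum, ← Finset.sum_sub_distrib]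
    exact Finset.sum_congr rfl (fun i _ => by ring)
  rw [e]
  ring

theorem ftPi_mul_gA (A : Matrix ι ι ℝ) (P : (ι → ℝ) → ℂ) (w : ι → ℂ) (m : ι → ℤ) :
    ftPi (fun x => P x * gA A w x) m = momP A P (shw w m) := by
  unfold ftPi momP
  refine integral_congr_ae (Filter.Eventually.of_forall (fun x => ?_))
  simp only
  rw [← gA_shw]
  ring

theorem gaBd_mul_gA [DecidableEq ι] {A : Matrix ι ι ℝ} (hA : A.PosDef) {P : (ι → ℝ) → ℂ}
    (hP : ExGr P) (w : ι → ℂ) : GaBd (fun x => P x * gA A w x) := hP.mul_gaBd (gaBd_gA hA w)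

/-- **Poisson summation for `P` times a Gaussian.** -/
theorem tPoisP [DecidableEq ι] {A : Matrix ι ι ℝ} (hA : A.PosDef) {P : (ι → ℝ) → ℂ}
    (hc : Continuous P) (hP : ExGr P) (w : ι → ℂ)
    (hs : Summable (fun m : ι → ℤ => momP A P (shw w m))) (x : ι → ℝ) :
    ∑' n : ι → ℤ, P (x + fun i => (n i : ℝ)) * gA A w (x + fun i => (n i : ℝ)) =
      ∑' m : ι → ℤ, momP A P (shw w m) * ePi m x := by
  have h := tPois (f := fun x => P x * gA A w x) (hc.mul (continuous_gA A w))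
    (gaBd_mul_gA hA hP w).domPi
    (hs.congr (fun m => (ftPi_mul_gA A P w m).symm)) x
  rw [h]
  exact tsum_congr (fun m => by rw [ftPi_mul_gA])

/-- dual exponent -/
theorem qC_shw {M : Matrix ι ι ℝ} (hM : Mᵀ = M) (w : ι → ℂ) (m : ι → ℤ) :
    cexp (π * qC M (shw w m)) = cexp (π * qC M w) *
      gA M (fun i => -I * ((M.map (algebraMap ℝ ℂ)) *ᵥ w) i) (fun i => (m i : ℝ)) := by
  unfold gA
  rw [← Complex.exp_add]
  congr 1
  set C := M.map (algebraMap ℝ ℂ) with hC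
  have hCt : Cᵀ = C := by rw [hC, ← Matrix.transpose_map, hM]
  set μ : ι → ℂ := fun i => (m i : ℂ) with hμ
  have e1 : shw w m = w - I • μ := by
    funext i
    simp [shw, hμ]
  have e2 : (((fun i => (m i : ℝ)) ⬝ᵥ M *ᵥ (fun i => (m i : ℝ)) : ℝ) : ℂ) = μ ⬝ᵥ C *ᵥ μ := by
    simp [dotProduct, Matrix.mulVec, hC, hμ]
  have e3 : w ⬝ᵥ C *ᵥ μ = μ ⬝ᵥ C *ᵥ w := by
    rw [Matrix.dotProduct_mulVec, ← Matrix.mulVec_transpose, hCt, dotProduct_comm]
  have e4 : ∑ i, (((m i : ℝ)) : ℂ) * (-I * (C *ᵥ w) i) = -I * (μ ⬝ᵥ C *ᵥ w) := by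
    unfold dotProduct
    rw [Finset.mul_sum]
    refine Finset.sum_congr rfl (fun i _ => ?_)
    simp only [hμ]
    push_cast
    ring
  unfold qC
  rw [e1, e2, e4, Matrix.mulVec_sub, Matrix.mulVec_smul, sub_dotProduct, dotProduct_sub,
    dotProduct_sub, smul_dotProduct, smul_dotProduct, dotProduct_smul, dotProduct_smul, e3]
  simp only [smul_eq_mul]
  ring_nf
  rw [Complex.I_sq]
  ring

theorem inv_symm [DecidableEq ι] {A : Matrix ι ι ℝ} (hA : A.PosDef) : (A⁻¹)ᵀ = A⁻¹ := by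
  have h : Aᵀ = A := by
    have := hA.isHermitian
    rwa [Matrix.IsHermitian, Matrix.conjTranspose_eq_transpose_of_trivial] at this
  rw [Matrix.transpose_nonsing_inv, h]

theorem summable_dual [DecidableEq ι] {A : Matrix ι ι ℝ} (hA : A.PosDef) (w : ι → ℂ)
    {R : (ι → ℝ) → ℂ} (hR : ExGr R) :
    Summable (fun m : ι → ℤ => R (fun i => (m i : ℝ)) * cexp (π * qC A⁻¹ (shw w m))) := by
  have h1 := (hR.mul_gaBd (gaBd_gA hA.inv (fun i => -I * ((A⁻¹.map (algebraMap ℝ ℂ)) *ᵥ w) i)))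
  have h2 := h1.summable.mul_left (cexp (π * qC A⁻¹ w))
  refine h2.congr (fun m => ?_)
  rw [qC_shw (inv_symm hA)]
  ring

/-- **Poisson summation for Gaussians with complex linear term.** -/
theorem tGauPois [DecidableEq ι] {A : Matrix ι ι ℝ} (hA : A.PosDef) (w : ι → ℂ) (x : ι → ℝ) :
    ∑' n : ι → ℤ, gA A w (x + fun i => (n i : ℝ)) =
      ((Real.sqrt A.det)⁻¹ : ℝ) * ∑' m : ι → ℤ, cexp (π * qC A⁻¹ (shw w m)) * ePi m x := by
  have h0 : ∀ v, momP A (fun _ => 1) v = ((Real.sqrt A.det)⁻¹ : ℝ) * cexp (π * qC A⁻¹ v) := by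
    intro v
    unfold momP
    simp only [one_mul]
    exact tGau hA v
  have h := tPoisP hA (P := fun _ => 1) continuous_const (exGr_const 1) w ?_ x
  · simp only [one_mul] at h
    rw [h, ← tsum_mul_left]
    refine tsum_congr (fun m => ?_)
    rw [h0]
    ring
  · have := (summable_dual hA w (exGr_const 1)).mul_left (((Real.sqrt A.det)⁻¹ : ℝ) : ℂ)
    refine this.congr (fun m => ?_)
    rw [h0]
    ring

end Pool.Agent.CMT
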